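import Pool.Agent.H941.TF.Lines
import Pool.Graph.R_pool_sql_team_seeded_620a6dc7.helper748_eq_.Main

set_option autoImplicit false
set_option linter.unusedSectionVars false
set_option linter.unusedVariables false

/-! # The motivic zeta functions and the finite set of pairs -/

namespace Pool.Agent.H941.TF

open MvPolynomial Pool.Agent.Helper748.MC Pool.Agent.Helper748.EQ Pool.Agent.W574.SM
  Pool.Agent.W574.CN Pool.Agent.W574.MO Pool.Agent.W574.HS Pool.Agent.W574.LM
  Pool.Agent.H628R4.TP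

/-- `Z ∈ M[T][(1 - L⁻ⁿ Tᵃ)⁻¹ : (a, n) ∈ S]` for a finite set `S` of pairs of positive integers
such that `-n/a` is a root of `b` for all `(a, n) ∈ S`. -/
def Good {M : Type} [CommRing M] (L : Mˣ) (b : Polynomial ℂ) (Z : PowerSeries M) : Prop :=
  ∃ S : Finset (ℕ × ℕ), (∀ p ∈ S, 1 ≤ p.1 ∧ 1 ≤ p.2 ∧ b.eval (-(p.2 : ℂ) / (p.1 : ℂ)) = 0) ∧
    Z ∈ DenRing L fun a n => (a, n) ∈ S

theorem den_mono {M : Type} [CommRing M] (L : Mˣ) {K K' : ℕ → ℕ → Prop}
    (h : ∀ a n, K a n → K' a n) : DenRing L K ≤ DenRing L K' := by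
  refine Subring.closure_mono ?_
  rintro x (hx | ⟨a, n, h1, h2, h3, h4⟩)
  · exact Or.inl hx
  · exact Or.inr ⟨a, n, h1, h2, h a n h3, h4⟩

theorem good_of {M : Type} [CommRing M] {L : Mˣ} {b : Polynomial ℂ} {Z : PowerSeries M}
    (h : Z ∈ DenRing L (RootPair b)) : Good L b Z := by
  classical
  rw [DenRing] at h
  induction h using Subring.closure_induction with
  | mem x hx =>
    rcases hx with hx | ⟨a, n, h1, h2, h3, h4⟩
    · exact ⟨∅, fun p hp => absurd hp (Finset.notMem_empty p), Subring.subset_closure (Or.inl hx)⟩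
    · refine ⟨{(a, n)}, fun p hp => ?_, Subring.subset_closure (Or.inr ⟨a, n, h1, h2, ?_, h4⟩)⟩
      · rw [Finset.mem_singleton] at hp
        rw [hp]
        exact ⟨h1, h2, h3⟩
      · exact Finset.mem_singleton_self _
  | zero => exact ⟨∅, fun p hp => absurd hp (Finset.notMem_empty p), Subring.zero_mem _⟩
  | one => exact ⟨∅, fun p hp => absurd hp (Finset.notMem_empty p), Subring.one_mem _⟩
  | add x y _ _ hx hy =>
    obtain ⟨S, hS, hx⟩ := hx
    obtain ⟨S', hS', hy⟩ := hy
    refine ⟨S ∪ S', fun p hp => ?_, Subring.add_mem _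
      (den_mono L (fun a n h => Finset.mem_union_left _ h) hx)
      (den_mono L (fun a n h => Finset.mem_union_right _ h) hy)⟩
    rcases Finset.mem_union.1 hp with h | h
    · exact hS p h
    · exact hS' p h
  | neg x _ hx =>
    obtain ⟨S, hS, hx⟩ := hx
    exact ⟨S, hS, Subring.neg_mem _ hx⟩
  | mul x y _ _ hx hy =>
    obtain ⟨S, hS, hx⟩ := hx
    obtain ⟨S', hS', hy⟩ := hy
    refine ⟨S ∪ S', fun p hp => ?_, Subring.mul_mem _
      (den_mono L (fun a n h => Finset.mem_union_left _ h) hx)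
      (den_mono L (fun a n h => Finset.mem_union_right _ h) hy)⟩
    rcases Finset.mem_union.1 hp with h | h
    · exact hS p h
    · exact hS' p h

theorem glob {f : MvPolynomial (Fin 3) ℂ} (hf0 : f ≠ 0) {d : ℕ} (hf : f.IsHomogeneous d)
    {b : Polynomial ℂ} (hb : IsBFunction f b ∨ IsLocalBFunction f b) : IsBFunction f b := by
  rcases hb with hb | hb
  · exact hb
  · exact global_of_local f hf0 d hf b hb

/-- the global and the local motivic zeta function of the form -/
theorem mot_single {M : Type} [CommRing M] (L : Mˣ) (f : MvPolynomial (Fin 3) ℂ) (d : ℕ)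
    (hd : 0 < d) (hf0 : f ≠ 0) (hf : f.IsHomogeneous d) (b : Polynomial ℂ)
    (hb : IsBFunction f b ∨ IsLocalBFunction f b)
    (hr : IsBFunction f b → b.eval (-3 / d : ℂ) = 0) (Z : PowerSeries M)
    (hZ : ConeGlobalMot L (fun _ : Unit => f) d Z ∨ ConeMot L (fun _ : Unit => f) d Z) :
    Z ∈ DenRing L (RootPair b) := by
  have hb' := glob hf0 hf hb
  have hb2 := funEq_unit f b hb'
  rcases hZ with hZ | hZ
  · exact mot_global_of L (fun _ : Unit => f) d hd (fun _ => hf) b hb2 (hr hb') Z hZ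
  · exact mot_local_of L (fun _ : Unit => f) d (fun _ => hf) b hb2 (hr hb') Z hZ

/-- the equivariant motivic zeta function of the form -/
theorem eq_single {M : Type} [CommRing M] (L : Mˣ) (f : MvPolynomial (Fin 3) ℂ) (d : ℕ)
    (hf0 : f ≠ 0) (hf : f.IsHomogeneous d) (b : Polynomial ℂ)
    (hb : IsBFunction f b ∨ IsLocalBFunction f b)
    (hr : IsBFunction f b → b.eval (-3 / d : ℂ) = 0) (Z : PowerSeries M)
    (hZ : EqCone L f d Z) : Z ∈ DenRing L (RootPair b) := by
  have hb' := glob hf0 hf hb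
  exact cone_eq L f d hf b (funEq_unit f b hb') (hr hb') Z hZ

variable {ι : Type} [Fintype ι]

theorem glob_sys {f : ι → MvPolynomial (Fin 3) ℂ} (hf0 : ∃ j, f j ≠ 0) {d : ℕ}
    (hf : ∀ j, (f j).IsHomogeneous d) {b : Polynomial ℂ}
    (hb : IsBFunction (univ f) b ∨ IsLocalBFunction (univ f) b) : IsBFunction (univ f) b := by
  classical
  rcases hb with hb | hb
  · exact hb
  · exact bfun_of_local f d hf hf0 b hb

end Pool.Agent.H941.TF
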