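import Pool.Agent.H941.TF.Two

set_option autoImplicit false
set_option linter.unusedSectionVars false
set_option linter.unusedVariables false

/-! # Forms which vanish on two transversal lines: the class -/

namespace Pool.Agent.H941.TF

open MvPolynomial Pool.Agent.Helper748.MC Pool.Agent.Helper748.TP Pool.Agent.W574.SM
  Pool.Agent.W574.CN Pool.Agent.W574.MO Pool.Agent.W574.HS Pool.Agent.W574.LM Pool.Agent.H628R4.TP

/-- **Forms with two transversal lines.** In suitable linear coordinates,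
`f = x₀ ^ m₀ x₁ ^ m₁ g` with `m₀, m₁ ≥ 1`, where `g` is an arbitrary form (of the degree `δ`)
such that the curve `G = 0` of its zeros (`G` and `g` have the same irreducible factors, `G` has
the degree `N ≥ 2`) meets each of the two lines `x₀ = 0` and `x₁ = 0` in `N` different points,
and does not contain the point `(0 : 0 : 1)` of intersection of the two lines.
There is no condition on the multiplicities of `g` and on the singularities of `G = 0`. -/
def TwoLines (f : MvPolynomial (Fin 3) ℂ) : Prop :=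
  ∃ (A : Matrix (Fin 3) (Fin 3) ℂ) (g G : MvPolynomial (Fin 3) ℂ) (m₀ m₁ δ N k : ℕ),
    A.det ≠ 0 ∧ lin A f = X 0 ^ m₀ * X 1 ^ m₁ * g ∧ 1 ≤ m₀ ∧ 1 ≤ m₁ ∧ 2 ≤ N ∧
    g.IsHomogeneous δ ∧ G.IsHomogeneous N ∧ G ∣ g ∧ g ∣ G ^ k ∧
    (aeval ![(0 : Polynomial ℂ), 1, Polynomial.X] G).Separable ∧
    (aeval ![(0 : Polynomial ℂ), 1, Polynomial.X] G).natDegree = N ∧
    (aeval ![(1 : Polynomial ℂ), 0, Polynomial.X] G).Separable ∧
    (aeval ![(1 : Polynomial ℂ), 0, Polynomial.X] G).natDegree = N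

/-- `f = x₀ ^ m₀ x₁ ^ m₁ g` is not `0` -/
theorem TwoLines.ne {f : MvPolynomial (Fin 3) ℂ} (h : TwoLines f) : f ≠ 0 := by
  obtain ⟨A, g, G, m₀, m₁, δ, N, k, hA, hF, h0, h1, hN, hg, hG, hGg, hgG, s0, n0, s1, n1⟩ := h
  rintro rfl
  rw [map_zero] at hF
  have hG0 : G ≠ 0 := by
    rintro rfl
    rw [map_zero, Polynomial.natDegree_zero] at n0
    omega
  have hg0 : g ≠ 0 := by
    rintro rfl
    exact pow_ne_zero k hG0 (zero_dvd_iff.1 hgG)
  exact mul_ne_zero (mul_ne_zero (pow_ne_zero _ (X_ne_zero 0)) (pow_ne_zero _ (X_ne_zero 1))) hg0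
    hF.symm

/-- Forms with two transversal lines are not exact. -/
theorem not_exact_lines {d : ℕ} {f : MvPolynomial (Fin 3) ℂ} (hf : f.IsHomogeneous d)
    (h : TwoLines f) : 0 < d ∧ f ≠ 0 ∧ ¬ Exact d f (-3 / d) := by
  have hf0 := h.ne
  obtain ⟨A, g, G, m₀, m₁, δ, N, k, hA, hF, h0, h1, hN, hg, hG, hGg, hgG, s0, n0, s1, n1⟩ := h
  have hFh : (lin A f).IsHomogeneous d := lin_homog A hf
  have hG0 : G ≠ 0 := by
    rintro rfl
    rw [map_zero, Polynomial.natDegree_zero] at n0
    omega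
  have hg0 : g ≠ 0 := by
    rintro rfl
    exact pow_ne_zero k hG0 (zero_dvd_iff.1 hgG)
  have hF0 : lin A f ≠ 0 := by
    rw [hF]
    exact mul_ne_zero (mul_ne_zero (pow_ne_zero _ (X_ne_zero 0)) (pow_ne_zero _ (X_ne_zero 1))) hg0
  have hd : d = m₀ + m₁ + δ := by
    refine hFh.inj_right ?_ hF0
    rw [hF]
    have e0 := (isHomogeneous_X ℂ (0 : Fin 3)).pow m₀
    have e1 := (isHomogeneous_X ℂ (1 : Fin 3)).pow m₁
    rw [one_mul] at e0 e1
    exact (e0.mul e1).mul hg
  refine ⟨by omega, hf0, fun hE => ?_⟩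
  have hE' := exact_lin hE A (isUnit_iff_ne_zero.2 hA)
  have hsw : lin (pm (Equiv.swap 0 1)) (lin A f) = sw (lin A f) := lin_pm _ _
  have hEs : Exact d (sw (lin A f)) (-3 / d) := by
    rw [← hsw]
    exact exact_lin hE' _ (isUnit_iff_ne_zero.2 (pm_det _))
  have hFs : sw (lin A f) = X 0 ^ m₁ * X 1 ^ m₀ * sw g := by
    rw [hF, map_mul, map_mul, map_pow, map_pow, sw_X0, sw_X1]
    ring
  by_cases he0 : ∀ n : ℤ, (-3 / d * m₀ : ℝ) ≠ n
  · exact core hF hFh hd h0 h1 hN hg hG hGg hgG s0 n0 s1 hE' (Or.inl he0)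
  by_cases he1 : ∀ n : ℤ, (-3 / d * m₁ : ℝ) ≠ n
  · refine core (G := sw G) (k := k) hFs (sw_homog hFh) (by omega) h1 h0 hN (sw_homog hg)
      (sw_homog hG) (map_dvd sw hGg) ?_ ?_ ?_ ?_ hEs (Or.inl he1)
    · have := map_dvd sw hgG
      rwa [map_pow] at this
    · rw [aeval_sw]; exact s1
    · rw [aeval_sw]; exact n1
    · rw [aeval_sw']; exact s0
  · push Not at he0 he1
    obtain ⟨x, hx⟩ := he0
    obtain ⟨y, hy⟩ := he1
    have hd0 : (0 : ℝ) < d := by
      have : 0 < d := by omega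
      exact_mod_cast this
    have hx' : -3 * (m₀ : ℝ) = x * d := by
      rw [← hx]
      field_simp
    have hy' : -3 * (m₁ : ℝ) = y * d := by
      rw [← hy]
      field_simp
    have hxz : -3 * (m₀ : ℤ) = x * d := by exact_mod_cast hx'
    have hyz : -3 * (m₁ : ℤ) = y * d := by exact_mod_cast hy'
    have hδ : 1 ≤ δ := by
      have h2 : (ch G).natDegree ≤ (ch g).natDegree := by
        refine Polynomial.natDegree_le_of_dvd (map_dvd ch hGg) fun h0 => hg0 (ch_inj hg h0)
      have h3 : N ≤ (ch G).natDegree := by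
        rw [← n0, ← evt_ch]
        exact natDegree_evt_le _ _
      have h4 := (ch_top hg).1
      omega
    have hdz : (d : ℤ) = m₀ + m₁ + δ := by exact_mod_cast hd
    have hx1 : x = -1 := by
      have h2 : x < 0 := by
        by_contra h3
        push Not at h3
        have : (0 : ℤ) ≤ x * d := mul_nonneg h3 (by omega)
        omega
      by_contra h3
      have h4 : x ≤ -2 := by omega
      have h5 : x * d ≤ -2 * d := mul_le_mul_of_nonneg_right h4 (by omega)
      have h6 : y < 0 := by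
        by_contra h7
        push Not at h7
        have : (0 : ℤ) ≤ y * d := mul_nonneg h7 (by omega)
        omega
      have h7 : y * d ≤ -1 * d := mul_le_mul_of_nonneg_right (by omega) (by omega)
      omega
    have hy1 : y = -1 := by
      have h2 : y < 0 := by
        by_contra h3
        push Not at h3
        have : (0 : ℤ) ≤ y * d := mul_nonneg h3 (by omega)
        omega
      by_contra h3
      have h4 : y ≤ -2 := by omega
      have h5 : y * d ≤ -2 * d := mul_le_mul_of_nonneg_right h4 (by omega)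
      rw [hx1] at hxz
      omega
    rw [hx1] at hxz
    rw [hy1] at hyz
    exact core hF hFh hd h0 h1 hN hg hG hGg hgG s0 n0 s1 hE' (Or.inr ⟨by omega, by omega⟩)

variable {ι : Type} [Fintype ι] [DecidableEq ι]

/-- The root `-3/d` of the Bernstein-Sato polynomial of a form with two transversal lines. -/
theorem lines_single (f : MvPolynomial (Fin 3) ℂ) (d : ℕ) (hf : f.IsHomogeneous d)
    (h : TwoLines f) (b : Polynomial ℂ) (hb : IsBFunction f b) : b.eval (-3 / d : ℂ) = 0 := by
  obtain ⟨hd, hf0, hE⟩ := not_exact_lines hf h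
  exact root_of_not_exact (fun _ : Unit => f) d hd (fun _ => hf) b (funEq_unit f b hb)
    (fun _ => 1) (by rw [lcomb_unit]; exact hf0) (by rw [lcomb_unit]; exact hE)

theorem lines_ideal (f : ι → MvPolynomial (Fin 3) ℂ) (d : ℕ)
    (hf : ∀ j, (f j).IsHomogeneous d) (lam : ι → ℂ) (h : TwoLines (lcomb f lam))
    (b : Polynomial ℂ) (hb : IsFunctionalEq f b) : b.eval (-3 / d : ℂ) = 0 := by
  obtain ⟨hd, hf0, hE⟩ := not_exact_lines (lcomb_homog hf lam) h
  exact root_of_not_exact f d hd hf b hb lam hf0 hE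

end Pool.Agent.H941.TF
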