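import Pool.Agent.H941.TF.Glob

set_option autoImplicit false
set_option linter.unusedSectionVars false
set_option linter.unusedVariables false

/-! # There is no primitive -/

namespace Pool.Agent.H941.TF

open Polynomial Finset Filter Topology Metric Pool.Agent.Helper748.TP

theorem sep_der {P : ℂ[X]} (h : P.Separable) {x : ℂ} (h0 : P.eval x = 0) :
    (derivative P).eval x ≠ 0 := by
  obtain ⟨a, b, hab⟩ := h
  intro h1
  have h2 := congrArg (eval x) hab
  rw [eval_add, eval_mul, eval_mul, h0, h1, mul_zero, mul_zero, add_zero, eval_one] at h2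
  exact zero_ne_one h2

/-- the logarithmic derivative does not vanish at the roots -/
theorem hx_ne {Qp γ hx : ℂ[X][X]} (hxE : derivative γ * Qp = γ * hx) (hQγ : Qp ∣ γ) {M : ℕ}
    (hγ : γ ∣ Qp ^ M) (hQ : Qp.Monic) {t : ℂ} (hs : (evt t Qp).Separable) {x : ℂ}
    (h0 : (evt t Qp).eval x = 0) : ev2 hx t x ≠ 0 := by
  have hG : evt t γ ≠ 0 := by
    intro h0
    obtain ⟨V, hV⟩ := hγ
    have h1 := congrArg (evt t) hV
    rw [map_mul, h0, zero_mul, map_pow] at h1
    exact pow_ne_zero M (evt_monic hQ t).ne_zero h1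
  have hGh : derivative (evt t γ) * evt t Qp = evt t γ * evt t hx := by
    rw [← evt_der, ← map_mul, hxE, map_mul]
  have h1 := mult_val hG hGh h0
  rw [ev2, h1]
  refine mul_ne_zero ?_ (sep_der hs h0)
  have h2 : 0 < (evt t γ).rootMultiplicity x := by
    rw [rootMultiplicity_pos hG]
    obtain ⟨V, hV⟩ := hQγ
    rw [hV, map_mul, IsRoot, eval_mul, h0, zero_mul]
  exact_mod_cast h2.ne'

section
variable {N : ℕ} {Qp γ hx ht : ℂ[X][X]} {σ e0 : ℝ} {d : ℂ[X]} {p r q : ℂ[X][X]}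

/-- the exceptional points -/
theorem bad_pt (D : Data N Qp γ hx ht σ e0 d p r q) (hσ : σ < 0) {M : ℕ} (hγ : γ ∣ Qp ^ M)
    {D0 : ℂ[X]} {α β : ℂ[X][X]} (hD : D0 ≠ 0) (hαβ : C D0 = α * Qp + β * derivative Qp)
    {b : ℂ} (hb : b ≠ 0) :
    ∃ (m : ℕ) (a : Fin N → ℂ → ℂ) (L : Fin N → ℂ), 0 < m ∧ (∀ j, AnalyticAt ℂ (a j) 0) ∧
      (∀ᶠ u in 𝓝[≠] (0 : ℂ), Function.Injective fun j => a j u) ∧
      (∀ᶠ u in 𝓝[≠] (0 : ℂ), evt (b + u ^ m) Qp = nod fun j => a j u) ∧
      (∀ j, Tendsto (fun u => yy σ hx d p (b + u ^ m) (a j u)) (𝓝[≠] 0) (𝓝 (L j))) ∧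
      ∀ j i, a j 0 = a i 0 → L j = L i := by
  obtain ⟨ρ, hρ, h1⟩ := ball_ne (mul_ne_zero D.d0 hD) b
  obtain ⟨m, a, hm, h2, h3, h4⟩ := par_punct D.monic D.deg (c := b) hρ (fun t ht htb => by
    have h := h1 t ht htb
    rw [eval_mul] at h
    exact sep_of_disc hαβ (right_ne_zero_of_mul h))
  have hTan : AnalyticAt ℂ (fun u : ℂ => b + u ^ m) 0 := by fun_prop
  have P : Par N Qp (fun u => b + u ^ m) a :=
    ⟨hTan.meromorphicAt, fun j => (h2 j).meromorphicAt, h4, h3⟩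
  have hd : ∀ᶠ u in 𝓝[≠] (0 : ℂ), d.eval (b + u ^ m) ≠ 0 := by
    have h5 : ∀ᶠ u in 𝓝 (0 : ℂ), b + u ^ m ∈ ball b ρ := by
      have h6 : Tendsto (fun u : ℂ => b + u ^ m) (𝓝 0) (𝓝 b) := by
        have := hTan.continuousAt.tendsto
        simpa [zero_pow hm.ne'] using this
      exact h6 (ball_mem_nhds b hρ)
    filter_upwards [h5.filter_mono nhdsWithin_le_nhds, ev_ne] with u hu hu0
    have h := h1 _ hu (by
      intro h
      have h' : u ^ m = 0 := by linear_combination h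
      exact pow_ne_zero m hu0 h')
    rw [eval_mul] at h
    exact left_ne_zero_of_mul h
  obtain ⟨L, h5, h6⟩ := lim_fin D hσ hγ P hTan (by simpa [zero_pow hm.ne'] using hb) h2 hd
  exact ⟨m, a, L, hm, h2, h3, h4, h5, h6⟩

/-- **There is no primitive.** -/
theorem contra (D : Data N Qp γ hx ht σ e0 d p r q) (hN : 2 ≤ N) (hσ : σ < 0) {M : ℕ}
    (hγ : γ ∣ Qp ^ M) (he : ∀ n : ℤ, e0 ≠ n) (h0 : (evt 0 Qp).Separable)
    {Qi : ℂ[X][X]} (hQi : Qi.Monic) (hNi : Qi.natDegree = N) (hi0 : (evt 0 Qi).Separable)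
    (hinf : ∀ u x : ℂ, u ≠ 0 → (evt u Qi).eval x = 0 → (evt u⁻¹ Qp).eval (x / u) = 0)
    {δ : ℕ} (hlc : hx.coeff (N - 1) = C (δ : ℂ)) {e1 : ℝ} (he1 : e1 < 0)
    (hsum : e0 + e1 + σ * δ = -3) : False := by
  classical
  have hN0 : 0 < N := by omega
  obtain ⟨D0, α, β, hD, hαβ⟩ := disc D.monic (by rw [D.deg]; exact hN0) h0
  set B : Finset ℂ := insert 0 (d * D0).roots.toFinset with hBdef
  have hdD : d * D0 ≠ 0 := mul_ne_zero D.d0 hD
  have hB : ∀ t ∉ B, t ≠ 0 ∧ d.eval t ≠ 0 ∧ D0.eval t ≠ 0 := by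
    intro t ht
    rw [hBdef, Finset.mem_insert, Multiset.mem_toFinset, mem_roots hdD, not_or, IsRoot,
      eval_mul, mul_eq_zero, not_or] at ht
    exact ⟨ht.1, ht.2.1, ht.2.2⟩
  have hoff : ∀ x : Fin N → ℂ, Function.Injective x ↔
      (∏ z ∈ (univ : Finset (Fin N)).offDiag, (x z.1 - x z.2)) ≠ 0 := by
    intro x
    rw [Finset.prod_ne_zero_iff]
    constructor
    · intro hx z hz
      rw [Finset.mem_offDiag] at hz
      exact sub_ne_zero.2 fun h => hz.2.2 (hx h)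
    · intro h i j hij
      by_contra hne
      have h1 := h (i, j) (by
        rw [Finset.mem_offDiag]
        exact ⟨mem_univ _, mem_univ _, hne⟩)
      exact h1 (sub_eq_zero.2 hij)
  -- the two functions
  set v : ℂ → ℂ → ℂ := fun t x => yy σ hx d p t x / t ^ 2 with hv
  set w : ℂ → ℂ → ℂ := fun t x => x with hw
  -- regular points
  have hreg : ∀ t ∉ B, DifferentiableAt ℂ (Dl Qp v) t ∧ DifferentiableAt ℂ (Dl Qp w) t ∧
      Dl Qp w t ≠ 0 := by
    intro t ht
    have h1 : (B : Set ℂ)ᶜ ∈ 𝓝 t := B.finite_toSet.isClosed.isOpen_compl.mem_nhds (by simpa using ht)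
    obtain ⟨ρ, hρ, h2⟩ := Metric.mem_nhds_iff.1 h1
    have h2' : ∀ u ∈ ball t ρ, u ∉ B := fun u hu => by simpa using h2 hu
    have hs : ∀ u ∈ ball t ρ, (evt u Qp).Separable := fun u hu =>
      sep_of_disc hαβ (hB u (h2' u hu)).2.2
    obtain ⟨a, h3, h4, h5⟩ := par_ball D.monic D.deg hs
    have hbt := ball_mem_nhds t hρ
    have e1 : ∀ᶠ u in 𝓝 t, evt u Qp = nod fun j => a j u := Filter.mem_of_superset hbt h5
    have e2 : ∀ᶠ u in 𝓝 t, Function.Injective fun j => a j u := Filter.mem_of_superset hbt h4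
    have hta : ∀ j, DifferentiableAt ℂ (a j) t := fun j => (h3 j).differentiableAt hbt
    have htB := hB t ht
    refine ⟨Dl_diff e1 e2 fun j => ?_, Dl_diff e1 e2 fun j => hta j, ?_⟩
    · have hid : HasDerivAt (fun u : ℂ => u) 1 t := hasDerivAt_id' t
      have g1 : DifferentiableAt ℂ (fun u => ev2 p u (a j u)) t :=
        (hasDerivAt_ev2 p hid (hta j).hasDerivAt).differentiableAt
      have g2 : DifferentiableAt ℂ (fun u => ev2 (kc (σ : ℂ) * hx) u (a j u)) t :=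
        (hasDerivAt_ev2 _ hid (hta j).hasDerivAt).differentiableAt
      have g3 : DifferentiableAt ℂ (fun u : ℂ => d.eval u) t := d.differentiable t
      have g4 : ev2 (kc (σ : ℂ) * hx) t (a j t) ≠ 0 := by
        rw [ev2_mul]
        refine mul_ne_zero ?_ ?_
        · rw [ev2, evt_kc, eval_C]
          exact_mod_cast hσ.ne
        · refine hx_ne D.hxE D.dvd hγ D.monic (hs t (mem_ball_self hρ)) ?_
          rw [h5 t (mem_ball_self hρ)]
          exact eval_nod (x := fun j => a j t) j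
      exact (g1.fun_div (g3.fun_mul g2) (mul_ne_zero htB.2.1 g4)).fun_div (by fun_prop)
        (pow_ne_zero 2 htB.1)
    · rw [Dl_eq (h5 t (mem_ball_self hρ)) (h4 t (mem_ball_self hρ))]
      exact (hoff fun j => a j t).1 (h4 t (mem_ball_self hρ))
  -- infinity
  obtain ⟨X', hX1, hX2, hX3⟩ := par_reg hQi hNi hN0 hi0
  have hX2' := hX2.filter_mono (nhdsWithin_le_nhds (s := {0}ᶜ))
  have hX3' := hX3.filter_mono (nhdsWithin_le_nhds (s := {0}ᶜ))
  have hX0 := hX2.self_of_nhds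
  have Pinf : Par N Qp (fun u => u⁻¹) (fun j u => X' j u / u) := by
    have hinj : ∀ᶠ u in 𝓝[≠] (0 : ℂ), Function.Injective fun j => X' j u / u := by
      filter_upwards [hX2', ev_ne] with u hu hu0 j i hji
      have h : X' j u / u = X' i u / u := hji
      exact hu ((div_left_inj' hu0).1 h)
    refine ⟨(MeromorphicAt.id 0).inv, fun j => (hX1 j).meromorphicAt.div (MeromorphicAt.id 0),
      ?_, hinj⟩
    filter_upwards [hX3', hinj, ev_ne] with u hu hui hu0
    refine eq_nod (evt_monic D.monic _) (by rw [natDegree_evt D.monic, D.deg]) hui fun j => ?_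
    refine hinf u _ hu0 ?_
    rw [hu]
    exact eval_nod (x := fun j => X' j u) j
  have hcob : Tendsto (fun u : ℂ => u⁻¹) (𝓝[≠] 0) (cocompact ℂ) := by
    rw [← Metric.cobounded_eq_cocompact]
    exact tendsto_inv₀_nhdsNE_zero
  have hdinf : ∀ᶠ u in 𝓝[≠] (0 : ℂ), d.eval u⁻¹ ≠ 0 := by
    have h1 := hcob (B.finite_toSet.isCompact.compl_mem_cocompact)
    filter_upwards [h1] with u hu
    have hu' : u⁻¹ ∉ B := by simpa using hu
    exact (hB _ hu').2.1
  obtain ⟨L, hL1, hL2⟩ := lim_inf D hσ hγ he Pinf hX1 hX0 hdinf hlc he1 hsum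
  set Li := ∏ z ∈ (univ : Finset (Fin N)).offDiag, (L z.1 - L z.2) with hLi
  have hLi0 : Li ≠ 0 := (hoff L).1 hL1
  have hFinf : Tendsto (Dl Qp v) (cocompact ℂ) (𝓝 Li) := by
    refine lim_inv (Dl_lim Pinf.root Pinf.inj fun j => ?_)
    refine (hL2 j).congr fun u => ?_
    simp only [hv, inv_pow, div_inv_eq_mul]
    ring
  have hGinf : Tendsto (fun t => (Dl Qp w t)⁻¹) (cocompact ℂ) (𝓝 0) := by
    refine lim_inv ?_
    have h1 : (fun u => ∏ z ∈ (univ : Finset (Fin N)).offDiag, (u / (X' z.1 u - X' z.2 u)))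
        =ᶠ[𝓝[≠] 0] fun u => (Dl Qp w u⁻¹)⁻¹ := by
      filter_upwards [Pinf.root, Pinf.inj] with u hu hiu
      rw [Dl_eq hu hiu, ← Finset.prod_inv_distrib]
      refine Finset.prod_congr rfl fun z _ => ?_
      change _ = (X' z.1 u / u - X' z.2 u / u)⁻¹
      rw [← sub_div, inv_div]
    have h2 : (0 : ℂ) = ∏ z ∈ (univ : Finset (Fin N)).offDiag, (0 / (X' z.1 0 - X' z.2 0)) := by
      symm
      refine Finset.prod_eq_zero (i := (⟨0, by omega⟩, ⟨1, by omega⟩)) ?_ (zero_div _)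
      rw [Finset.mem_offDiag]
      exact ⟨mem_univ _, mem_univ _, by simp⟩
    refine Tendsto.congr' h1 ?_
    have h3 : Tendsto (fun u => ∏ z ∈ (univ : Finset (Fin N)).offDiag,
        (u / (X' z.1 u - X' z.2 u))) (𝓝[≠] 0) (𝓝 (∏ z ∈ (univ : Finset (Fin N)).offDiag,
        (0 / (X' z.1 0 - X' z.2 0)))) := by
      refine tendsto_finsetProd _ fun z hz => ?_
      rw [Finset.mem_offDiag] at hz
      have hXc : ∀ j, Tendsto (X' j) (𝓝[≠] 0) (𝓝 (X' j 0)) := fun j =>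
        (hX1 j).continuousAt.tendsto.mono_left nhdsWithin_le_nhds
      exact tendsto_u.div ((hXc _).sub (hXc _)) (sub_ne_zero.2 fun h => hz.2.2 (hX0 h))
    rwa [← h2] at h3
  -- the point `0`
  obtain ⟨a0, hz1, hz2, hz3⟩ := par_reg D.monic D.deg hN0 h0
  have P0 : Par N Qp (fun u => u) a0 := ⟨MeromorphicAt.id 0, fun j => (hz1 j).meromorphicAt,
    hz3.filter_mono nhdsWithin_le_nhds, hz2.filter_mono nhdsWithin_le_nhds⟩
  have hd0 : ∀ᶠ u in 𝓝[≠] (0 : ℂ), d.eval u ≠ 0 := by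
    obtain ⟨ρ, hρ, h1⟩ := ball_ne D.d0 0
    filter_upwards [mem_nhdsWithin_of_mem_nhds (ball_mem_nhds (0 : ℂ) hρ), ev_ne] with u hu hu0
    exact h1 u hu hu0
  obtain ⟨L0, hL0⟩ := lim_zero D hσ hγ he P0 hz1 hz2.self_of_nhds hd0
  -- the first function is constant
  have hF := liou (F := Dl Qp v) (B := B) (fun t ht => (hreg t ht).1) (fun b hb => by
    by_cases hb0 : b = 0
    · rw [hb0]
      exact ⟨_, Dl_lim P0.root P0.inj fun j => hL0 j⟩
    · obtain ⟨m, a, L', hm, h2, h3, h4, h5, h6⟩ := bad_pt D hσ hγ hD hαβ hb0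
      have hT : Tendsto (fun u : ℂ => (b + u ^ m) ^ 2) (𝓝[≠] 0) (𝓝 (b ^ 2)) := by
        have : ContinuousAt (fun u : ℂ => (b + u ^ m) ^ 2) 0 := by fun_prop
        have := this.tendsto.mono_left (nhdsWithin_le_nhds (s := {0}ᶜ))
        simpa [zero_pow hm.ne'] using this
      exact ⟨_, lim_pow hm (Dl_lim h4 h3 fun j => (h5 j).div hT (pow_ne_zero 2 hb0))⟩) hFinf
  -- the second one
  have hG := liou (F := fun t => (Dl Qp w t)⁻¹) (B := B)
    (fun t ht => (hreg t ht).2.1.fun_inv (hreg t ht).2.2) (fun b hb => by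
    by_cases hb0 : b = 0
    · rw [hb0]
      refine ⟨_, (Dl_lim P0.root P0.inj (L := fun j => a0 j 0) fun j => ?_).inv₀ ?_⟩
      · exact (hz1 j).continuousAt.tendsto.mono_left nhdsWithin_le_nhds
      · exact (hoff fun j => a0 j 0).1 hz2.self_of_nhds
    · obtain ⟨m, a, L', hm, h2, h3, h4, h5, h6⟩ := bad_pt D hσ hγ hD hαβ hb0
      have hT : Tendsto (fun u : ℂ => (b + u ^ m) ^ 2) (𝓝[≠] 0) (𝓝 (b ^ 2)) := by
        have : ContinuousAt (fun u : ℂ => (b + u ^ m) ^ 2) 0 := by fun_prop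
        have := this.tendsto.mono_left (nhdsWithin_le_nhds (s := {0}ᶜ))
        simpa [zero_pow hm.ne'] using this
      have h7 := lim_pow hm (Dl_lim (v := v) h4 h3 fun j => (h5 j).div hT (pow_ne_zero 2 hb0))
      have h8 := tendsto_nhds_unique h7 (hF.2 b hb)
      have h9 : Function.Injective fun j => a j 0 := by
        have h10 : Function.Injective fun j => L' j / b ^ 2 := by
          rw [hoff, h8]
          exact hLi0
        intro j i hji
        exact h10 (by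
          change L' j / b ^ 2 = L' i / b ^ 2
          rw [h6 j i hji])
      refine ⟨_, (lim_pow hm (F := fun t => (Dl Qp w t)⁻¹)
        ((Dl_lim h4 h3 (L := fun j => a j 0) fun j => ?_).inv₀ ?_))⟩
      · exact (h2 j).continuousAt.tendsto.mono_left nhdsWithin_le_nhds
      · exact (hoff fun j => a j 0).1 h9) hGinf
  obtain ⟨t, ht⟩ := Infinite.exists_notMem_finset B
  exact inv_ne_zero (hreg t ht).2.2 (hG.1 t ht)

end

end Pool.Agent.H941.TF
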