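import Pool.Agent.H941.TF.Stage

set_option autoImplicit false
set_option linter.unusedSectionVars false
set_option linter.unusedVariables false

/-! # The resonant case: the polynomial part -/

namespace Pool.Agent.H941.TF

open Polynomial Pool.Agent.Helper748.TP

/-- the polynomial part of the equation -/
theorem pol_eq2 {Q h l P R w u v u2 : Kt[X]} {e : Kt} (hQ : Q.Monic)
    (hh : h.degree < (Q.natDegree : WithBot ℕ)) (hl : l.degree < (Q.natDegree : WithBot ℕ))
    (hC : Cl Q h l e 1 P R) (hP : PP Q 1 P w) (hR : PP Q 1 R v)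
    (hu : ∃ r : Kt[X], r.degree < (Q.natDegree : WithBot ℕ) ∧ l * w = Q * u + r)
    (hu2 : ∃ r : Kt[X], r.degree < (Q.natDegree : WithBot ℕ) ∧ h * v = Q * u2 + r) :
    dk w + C e * w + u + derivative v + u2 = 1 := by
  obtain ⟨r, hr, hrd⟩ := hP
  obtain ⟨r2, hr2, hrd2⟩ := hR
  obtain ⟨r3, hrd3, hr3⟩ := hu
  obtain ⟨r4, hrd4, hr4⟩ := hu2
  rw [one_mul] at hrd hrd2
  rw [pow_one] at hr hr2
  have hdQ : (dk Q).natDegree ≤ Q.natDegree := natDegree_dk_le Q
  have key : Q ^ 2 * (1 - dk w - C e * w - u - derivative v - u2) =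
      Q * r3 + gt Q l e 1 r + Q * r4 + gx Q h 1 r2 := by
    rw [Cl, hr, hr2, dk_add, dk_mul, derivative_add, derivative_mul] at hC
    rw [gt, gx]
    push_cast at hC ⊢
    linear_combination hC + Q * hr3 + Q * hr4
  have h0 : 1 - dk w - C e * w - u - derivative v - u2 = 0 := by
    refine dvd_deg hQ ?_
    rw [key]
    refine lt_of_le_of_lt (degree_add_le _ _) (max_lt (lt_of_le_of_lt (degree_add_le _ _)
      (max_lt (lt_of_le_of_lt (degree_add_le _ _) (max_lt ?_ ?_)) ?_)) ?_)
    · exact deg_mul_lt le_rfl hrd3 (by omega)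
    · exact deg_gt hl hrd
    · exact deg_mul_lt le_rfl hrd4 (by omega)
    · exact deg_gx hh hrd2
  linear_combination -h0

section
variable {Qp hp lp : ℂ[X][X]}

theorem Bop_surj' (hQ : Qp.Monic) (hl : lp.degree < (Qp.natDegree : WithBot ℕ))
    (a n : ℕ) (q : ℂ[X][X]) (hq : q.degree < (n : WithBot ℕ)) :
    ∃ c, ∀ m i, i ≠ a + 1 → ((q + Bop Qp lp (-1) a c).coeff m).coeff i = 0 := by
  induction n generalizing q with
  | zero =>
    refine ⟨0, fun m i _ => ?_⟩
    have : q = 0 := by
      rw [← degree_eq_bot]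
      have : q.degree < (0 : WithBot ℕ) := by exact_mod_cast hq
      exact Nat.WithBot.lt_zero_iff.1 this
    rw [this, Bop, dt_zero, mul_zero, mul_zero, mul_zero, zero_divByMonic]
    simp
  | succ n ih =>
    set p : ℂ[X] := -∑ i ∈ (q.coeff n).support, monomial i ((q.coeff n).coeff i / (-1 - a + i))
      with hp
    have hpc : ∀ i, i ≠ a + 1 → (-1 - a + i) * p.coeff i = -(q.coeff n).coeff i := by
      intro i hi
      have h3 : (-1 - (a : ℂ) + i) ≠ 0 := by
        intro h3
        apply hi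
        have h4 : (i : ℂ) = ((a + 1 : ℕ) : ℂ) := by
          push_cast
          linear_combination h3
        exact_mod_cast h4
      rw [hp, coeff_neg, finsetSum_coeff]
      simp only [coeff_monomial]
      rw [Finset.sum_ite_eq']
      split_ifs with h
      · field_simp
      · rw [notMem_support_iff.1 h, neg_zero, mul_zero]
    set m : ℂ[X][X] := monomial n p with hm
    have hmd : m.natDegree ≤ n := natDegree_monomial_le _
    -- the remaining part of degree `n`
    set q0 : ℂ[X] := monomial (a + 1) ((q.coeff n).coeff (a + 1)) with hq0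
    have h1 : (q + Bop Qp lp (-1) a m - monomial n q0).degree < (n : WithBot ℕ) := by
      rw [degree_lt_iff_coeff_zero]
      intro k hk
      rcases hk.eq_or_lt with h2 | h2
      · rw [← h2, coeff_sub, coeff_add, coeff_monomial, if_pos rfl]
        ext i
        rw [coeff_sub, coeff_add, coeff_Bop hQ hl hmd, hm, coeff_monomial, if_pos rfl,
          hq0, coeff_monomial, coeff_zero]
        by_cases hi : i = a + 1
        · rw [hi, if_pos rfl]
          push_cast
          ring
        · rw [if_neg (Ne.symm hi), hpc i hi]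
          ring
      · rw [coeff_sub, coeff_add, (degree_lt_iff_coeff_zero _ _).1 hq k (by omega),
          coeff_monomial, if_neg (by omega), zero_add, sub_zero]
        ext i
        rw [coeff_Bop hQ hl (by omega : m.natDegree ≤ k), hm, coeff_monomial, if_neg (by omega),
          coeff_zero, mul_zero]
    obtain ⟨c, hc⟩ := ih _ h1
    refine ⟨c + m, fun k i hi => ?_⟩
    have h5 := hc k i hi
    have h6 : q + Bop Qp lp (-1) a (c + m) = (q + Bop Qp lp (-1) a m - monomial n q0 +
        Bop Qp lp (-1) a c) + monomial n q0 := by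
      rw [Bop_add _ _ _ hQ]
      ring
    rw [h6, coeff_add, coeff_add, h5, zero_add, coeff_monomial]
    split_ifs with hk
    · rw [hq0, coeff_monomial, if_neg (Ne.symm hi)]
    · exact coeff_zero _

theorem C_mul_div (hQ : Qp.Monic) (c : ℂ[X]) (f : ℂ[X][X]) :
    (C c * f) /ₘ Qp = C c * (f /ₘ Qp) := by
  refine quot_unique (r := C c * (f %ₘ Qp)) hQ ?_ ?_
  · linear_combination (-C c) * (modByMonic_add_div f Qp)
  · exact lt_of_le_of_lt (deg_C_mul _ _) (degree_modByMonic_lt _ hQ)

theorem Bop_X (hQ : Qp.Monic) (a : ℕ) (p : ℂ[X][X]) :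
    Bop Qp lp (-1) a (C (X ^ (a + 1)) * p) = C (X ^ (a + 2)) * (dt p + (lp * p) /ₘ Qp) := by
  have h1 : (lp * (C (X ^ (a + 1)) * p)) /ₘ Qp = C (X ^ (a + 1)) * ((lp * p) /ₘ Qp) := by
    have h0 : lp * (C (X ^ (a + 1)) * p) = C (X ^ (a + 1)) * (lp * p) := by ring
    rw [h0, C_mul_div hQ]
  rw [Bop, h1, dt_mul, dt_C, derivative_X_pow, Nat.add_sub_cancel, Nat.cast_add, Nat.cast_one]
  have h2 : (C (C (-1 - (a : ℂ))) : ℂ[X][X]) = -C (C (a : ℂ) + 1) := by
    rw [← C_neg]
    congr 1
    rw [← C_1, ← C_add, ← C_neg]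
    congr 1
    ring
  rw [h2]
  simp only [C_mul, C_add, C_pow, C_1]
  ring

theorem dvd_of_Bop (hQ : Qp.Monic) (hl : lp.degree < (Qp.natDegree : WithBot ℕ))
    (a n : ℕ) (p : ℂ[X][X]) (hp : p.degree < (n : WithBot ℕ))
    (h : C (X ^ (a + 1)) ∣ Bop Qp lp (-1) a p) : C (X ^ (a + 1)) ∣ p := by
  induction n generalizing p with
  | zero =>
    have : p = 0 := by
      rw [← degree_eq_bot]
      have : p.degree < (0 : WithBot ℕ) := by exact_mod_cast hp
      exact Nat.WithBot.lt_zero_iff.1 this
    rw [this]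
    exact dvd_zero _
  | succ n ih =>
    have hpn : p.natDegree ≤ n := by
      by_cases h0 : p = 0
      · rw [h0, natDegree_zero]; exact Nat.zero_le _
      · exact Nat.lt_succ_iff.1 ((natDegree_lt_iff_degree_lt h0).2 hp)
    have h1 : X ^ (a + 1) ∣ p.coeff n := by
      rw [X_pow_dvd_iff]
      intro i hi
      have h2 := coeff_Bop (e0 := -1) hQ hl hpn a i
      have h3 := (C_dvd_iff_dvd_coeff _ _).1 h n
      rw [X_pow_dvd_iff] at h3
      rw [h3 i hi] at h2
      refine (mul_eq_zero.1 h2.symm).resolve_left fun h4 => ?_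
      have h5 : (i : ℂ) = ((a + 1 : ℕ) : ℂ) := by
        push_cast
        linear_combination h4
      have h6 : i = a + 1 := by exact_mod_cast h5
      omega
    obtain ⟨c', hc'⟩ := h1
    have h2 : monomial n (p.coeff n) = C (X ^ (a + 1)) * monomial n c' := by
      rw [C_mul_monomial, hc']
    have h3 : C (X ^ (a + 1)) ∣ p - monomial n (p.coeff n) := by
      refine ih _ ?_ ?_
      · rw [degree_lt_iff_coeff_zero]
        intro k hk
        rcases hk.eq_or_lt with h4 | h4
        · rw [← h4, coeff_sub, coeff_monomial, if_pos rfl, sub_self]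
        · rw [coeff_sub, coeff_monomial, if_neg (by omega), sub_zero]
          exact coeff_eq_zero_of_natDegree_lt (by omega)
      · rw [Bop_sub _ _ _ hQ]
        refine dvd_sub h ?_
        rw [h2, Bop_X hQ, pow_succ X (a + 1), C_mul, mul_assoc]
        exact Dvd.intro _ rfl
    have h4 : p = (p - monomial n (p.coeff n)) + C (X ^ (a + 1)) * monomial n c' := by
      rw [← h2]
      ring
    rw [h4]
    exact dvd_add h3 (Dvd.intro _ rfl)

/-- no polynomial solution at `t = 0` -/
theorem no_pol {Q h u : ℂ[X]} (hQ : Q.Monic) (hN : 0 < Q.natDegree)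
    (hh : h.degree < (Q.natDegree : WithBot ℕ)) (hc : h.coeff (Q.natDegree - 1) = -1)
    (h0 : derivative u + (h * u) /ₘ Q = 1) : False := by
  set N := Q.natDegree with hNd
  have h1 : h * u = Q * (1 - derivative u) + (h * u) %ₘ Q := by
    linear_combination -(modByMonic_add_div (h * u) Q) + Q * h0
  have hr : ∀ k, N ≤ k → ((h * u) %ₘ Q).coeff k = 0 := by
    intro k hk
    refine coeff_eq_zero_of_degree_lt (lt_of_lt_of_le (degree_modByMonic_lt _ hQ) ?_)
    rw [degree_eq_natDegree hQ.ne_zero]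
    exact_mod_cast hk
  have hhn : h.natDegree ≤ N - 1 := by
    by_cases hz : h = 0
    · rw [hz, natDegree_zero]; exact Nat.zero_le _
    · have := (natDegree_lt_iff_degree_lt hz).2 hh
      omega
  set n := u.natDegree with hn
  have hQc : Q.coeff N = 1 := hQ.coeff_natDegree
  rcases Nat.eq_zero_or_pos n with h2 | h2
  · have h3 := congrArg (fun p => coeff p (N + 0)) h1
    beta_reduce at h3
    have hu : derivative u = 0 := by
      rw [eq_C_of_natDegree_eq_zero h2, derivative_C]
    rw [hu, sub_zero, mul_one, coeff_add, hr _ (by omega), add_zero, add_zero, hQc] at h3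
    rw [coeff_eq_zero_of_natDegree_lt] at h3
    · exact zero_ne_one h3
    · refine lt_of_le_of_lt natDegree_mul_le ?_
      omega
  · have h3 := congrArg (fun p => coeff p (N - 1 + n)) h1
    beta_reduce at h3
    have h4 : N - 1 + n = N + (n - 1) := by omega
    have hdu : (1 - derivative u).natDegree ≤ n - 1 := by
      refine (natDegree_sub_le _ _).trans (max_le ?_ ?_)
      · rw [natDegree_one]; exact Nat.zero_le _
      · exact natDegree_derivative_le u
    rw [coeff_mul_add_eq_of_natDegree_le hhn (le_of_eq hn.symm), hc, h4, coeff_add, hr _ (by omega),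
      add_zero, coeff_mul_add_eq_of_natDegree_le (le_of_eq hNd.symm) hdu, hQc, one_mul, coeff_sub,
      coeff_derivative, show n - 1 + 1 = n by omega] at h3
    have hlc : u.coeff n ≠ 0 := by
      rw [hn, coeff_natDegree]
      intro h5
      rw [leadingCoeff_eq_zero] at h5
      rw [h5, natDegree_zero] at hn
      omega
    have hn1 : ((n - 1 : ℕ) : ℂ) = n - 1 := by
      rw [Nat.cast_sub h2]
      simp
    rw [hn1] at h3
    by_cases h5 : n = 1
    · rw [h5] at h3
      simp only [Nat.sub_self, coeff_one_zero, Nat.cast_one, sub_self, zero_add, mul_one,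
        neg_mul, one_mul] at h3
      exact one_ne_zero (α := ℂ) (by linear_combination -h3)
    · rw [coeff_one, if_neg (by omega)] at h3
      have h6 : u.coeff n * ((n : ℂ) - 1) = 0 := by linear_combination h3
      rcases mul_eq_zero.1 h6 with h7 | h7
      · exact hlc h7
      · apply h5
        have : (n : ℂ) = (1 : ℕ) := by
          push_cast
          linear_combination h7
        exact_mod_cast this

/-- **The resonant case.** -/
theorem special {Qp γ hx ht P R : ℂ[X][X]} {s : ℂ} {m0 K M : ℕ} (hγ : γ ≠ 0) (hQ : Qp.Monic)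
    (hxE : derivative γ * Qp = γ * hx) (htE : dt γ * Qp = γ * ht) (hV : γ ∣ Qp ^ M)
    (hQγ : Qp ∣ γ) (hN : 0 < Qp.natDegree)
    (hxd : hx.degree < (Qp.natDegree : WithBot ℕ)) (htd : ht.degree < (Qp.natDegree : WithBot ℕ))
    (hsq : ∃ (D0 : ℂ[X]) (α β : ℂ[X][X]), D0 ≠ 0 ∧ C D0 = α * Qp + β * derivative Qp)
    (hs : ∀ K m : ℕ, s * ((m : ℂ) + 1) - K ≠ 0) (he : s * m0 = -1)
    (hlc : (kc s * hx).coeff (Qp.natDegree - 1) = C (-1))
    (hE : (C X ^ m0 * γ) ^ (K + 1) = (C X ^ m0 * γ) * (dt P + derivative R) +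
      kc (s - K) * (dt (C X ^ m0 * γ) * P + derivative (C X ^ m0 * γ) * R)) : False := by
  obtain ⟨P', R', a, p, q, h1, h2, h3⟩ := stage0 hγ hQ hxE htE hV hQγ hN hxd htd hsq hs hE
  have hhd : (kc s * hx).degree < (Qp.natDegree : WithBot ℕ) := lt_of_le_of_lt (deg_C_mul _ _) hxd
  have hld : (kc s * ht).degree < (Qp.natDegree : WithBot ℕ) := lt_of_le_of_lt (deg_C_mul _ _) htd
  have hi := integ_map s hγ hxE htE
  rw [he] at h1
  generalize hhp : kc s * hx = hp at h1 hhd hlc hi
  generalize hlp : kc s * ht = lp at h1 hld hi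
  have hQk : (Qp.map io).Monic := hQ.map io
  have hnd : (Qp.map io).natDegree = Qp.natDegree := natDegree_map_eq_of_injective io_inj _
  have hhk : (hp.map io).degree < ((Qp.map io).natDegree : WithBot ℕ) := by
    rw [hnd]; exact lt_of_le_of_lt degree_map_le hhd
  have hlk : (lp.map io).degree < ((Qp.map io).natDegree : WithBot ℕ) := by
    rw [hnd]; exact lt_of_le_of_lt degree_map_le hld
  obtain ⟨c, hc⟩ := Bop_surj' hQ hld a _ (C X * q)
    (degree_le_natDegree.trans_lt (by exact_mod_cast Nat.lt_succ_self _))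
  have hC' := h1.gauge (m := 0) hi (La a c)
  have hR' := PP_gt (lp := lp) (e0 := -1) hQ h3 a c
  have hP' := PP_gx (hp := hp) hQ h2 a c
  rw [← La_succ a q, La_add] at hR'
  rw [La_sub] at hP'
  set q' := C X * q + Bop Qp lp (-1) a c with hq'
  set p' := p - (derivative c + (hp * c) /ₘ Qp) with hp'
  have hpol := pol_eq2 hQk hhk hlk hC' hP' hR' (by
      obtain ⟨r, h4, h5⟩ := La_quot (lp := lp) hQ a p'
      exact ⟨r, h4, h5⟩) (by
      obtain ⟨r, h4, h5⟩ := La_quot (lp := hp) hQ (a + 1) q'
      exact ⟨r, h4, h5⟩)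
  have hdq : derivative (La (a + 1) q') = La (a + 1) (derivative q') := by
    rw [La, La, derivative_C_mul, derivative_map]
  have h1' : (1 : Kt[X]) = La (a + 1) (C (X ^ (a + 1))) := by
    rw [La, map_C, ← C_mul, map_pow]
    change 1 = C (Tk⁻¹ ^ (a + 1) * Tk ^ (a + 1))
    rw [← mul_pow, inv_mul_cancel₀ Tk_ne, one_pow, C_1]
  rw [pol_La, hdq, La_add, La_add, h1'] at hpol
  have hE' := La_inj hpol
  -- the coefficients of `q'`
  set u : ℂ[X] := ∑ n ∈ q'.support, monomial n ((q'.coeff n).coeff (a + 1)) with hu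
  have hqu : q' = C (X ^ (a + 1)) * u.map C := by
    ext n i
    rw [coeff_C_mul, coeff_map, mul_comm, coeff_C_mul, coeff_X_pow]
    have hun : u.coeff n = (q'.coeff n).coeff (a + 1) := by
      rw [hu, finsetSum_coeff]
      simp only [coeff_monomial]
      rw [Finset.sum_ite_eq']
      split_ifs with h
      · rfl
      · rw [notMem_support_iff.1 h, coeff_zero]
    rw [hun]
    split_ifs with h
    · rw [h, mul_one]
    · rw [mul_zero]
      exact hc n i h
  have hdvd : C (X ^ (a + 1)) ∣ p' := by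
    refine dvd_of_Bop hQ hld a _ p'
      (degree_le_natDegree.trans_lt (by exact_mod_cast Nat.lt_succ_self _)) ?_
    have h6 : Bop Qp lp (-1) a p' = C (X ^ (a + 1)) * (1 - derivative (u.map C) -
        (hp * u.map C) /ₘ Qp) := by
      have h7 : derivative q' = C (X ^ (a + 1)) * derivative (u.map C) := by
        rw [hqu, derivative_C_mul]
      have h8 : (hp * q') /ₘ Qp = C (X ^ (a + 1)) * ((hp * u.map C) /ₘ Qp) := by
        have h0 : hp * (C (X ^ (a + 1)) * u.map C) = C (X ^ (a + 1)) * (hp * u.map C) := by ring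
        rw [hqu, h0, C_mul_div hQ]
      rw [h7, h8] at hE'
      linear_combination hE'
    rw [h6]
    exact Dvd.intro _ rfl
  obtain ⟨p1, hp1⟩ := hdvd
  have h7 : derivative q' = C (X ^ (a + 1)) * derivative (u.map C) := by
    rw [hqu, derivative_C_mul]
  have h8 : (hp * q') /ₘ Qp = C (X ^ (a + 1)) * ((hp * u.map C) /ₘ Qp) := by
    have h0 : hp * (C (X ^ (a + 1)) * u.map C) = C (X ^ (a + 1)) * (hp * u.map C) := by ring
    rw [hqu, h0, C_mul_div hQ]
  rw [hp1, Bop_X hQ, h7, h8] at hE'
  have hX0 : (C (X ^ (a + 1)) : ℂ[X][X]) ≠ 0 := C_ne_zero.2 (pow_ne_zero _ X_ne_zero)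
  have h9 : C X * (dt p1 + (lp * p1) /ₘ Qp) + derivative (u.map C) +
      (hp * u.map C) /ₘ Qp = 1 := by
    refine mul_left_cancel₀ hX0 ?_
    rw [pow_succ X (a + 1), C_mul] at hE'
    linear_combination hE'
  have h10 := congrArg (evt 0) h9
  rw [map_add, map_add, map_mul, evt_C, eval_X, C_0, zero_mul, zero_add, map_one, evt_der] at h10
  have h11 : evt 0 (u.map C) = u := by
    rw [evt, coe_mapRingHom, Polynomial.map_map]
    have : (evalRingHom (0 : ℂ)).comp C = RingHom.id ℂ := by
      ext z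
      simp
    rw [this, Polynomial.map_id]
  have h12 : evt 0 ((hp * u.map C) /ₘ Qp) = (evt 0 hp * u) /ₘ evt 0 Qp := by
    rw [evt, coe_mapRingHom, map_divByMonic _ hQ, Polynomial.map_mul]
    congr 2
  rw [h11, h12] at h10
  have h13 : (evt 0 Qp).natDegree = Qp.natDegree := by
    rw [evt, coe_mapRingHom, hQ.natDegree_map]
  refine no_pol (Q := evt 0 Qp) (h := evt 0 hp) (u := u) ?_ ?_ ?_ ?_ h10
  · rw [evt, coe_mapRingHom]; exact hQ.map _
  · rw [h13]; exact hN
  · rw [h13, evt, coe_mapRingHom]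
    exact lt_of_le_of_lt degree_map_le hhd
  · rw [h13, evt, coe_mapRingHom, coeff_map, hlc]
    simp

end

end Pool.Agent.H941.TF
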