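import Pool.Agent.H941.TF.Contra
import Pool.Agent.H941.TF.Spec
import Pool.Graph.R_pool_sql_team_seeded_620a6dc7.helper748_tp_.TameThm
import Pool.Graph.R_pool_sql_team_seeded_620a6dc7.helper748_mc_.Strict

set_option autoImplicit false
set_option linter.unusedSectionVars false
set_option linter.unusedVariables false

/-! # Forms which vanish on two transversal lines -/

namespace Pool.Agent.H941.TF

open MvPolynomial Pool.Agent.Helper748.MC Pool.Agent.Helper748.TP

theorem deg3 {n : ℕ} {F : MvPolynomial (Fin 3) ℂ} (hF : F.IsHomogeneous n) :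
    ∀ m ∈ F.support, m 0 + m 1 + m 2 = n := by
  intro m hm
  have h1 := hF (mem_support_iff.1 hm)
  rw [← h1, ← Fin.sum_univ_three (fun i => m i), ← Finsupp.degree_eq_sum,
    Finsupp.degree_eq_weight_one]
  rfl

theorem eval_mon (m : Fin 3 →₀ ℕ) (c a b e : ℂ) :
    eval ![a, b, e] (monomial m c) = c * (a ^ m 0 * b ^ m 1 * e ^ m 2) := by
  rw [eval_monomial, Finsupp.prod_fintype _ _ (fun i => pow_zero _), Fin.prod_univ_three]
  rfl

/-- the coefficient of the highest power of `x₂` -/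
theorem ch_top {n : ℕ} {F : MvPolynomial (Fin 3) ℂ} (hF : F.IsHomogeneous n) :
    (ch F).natDegree ≤ n ∧ (ch F).coeff n = Polynomial.C (eval ![0, 0, 1] F) := by
  have hm := deg3 hF
  have hs : F = ∑ m ∈ F.support, monomial m (coeff m F) := F.as_sum
  constructor
  · rw [hs, map_sum]
    refine Polynomial.natDegree_sum_le_of_forall_le _ _ fun m hm' => ?_
    rw [ch_monomial]
    have := hm m hm'
    exact (Polynomial.natDegree_monomial_le _).trans (by omega)
  · conv_lhs => rw [hs]
    conv_rhs => rw [hs]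
    rw [map_sum, map_sum, map_sum, Polynomial.finsetSum_coeff]
    refine Finset.sum_congr rfl fun m hm' => ?_
    have := hm m hm'
    rw [ch_monomial, Polynomial.coeff_monomial, eval_mon]
    by_cases h1 : m 2 = n
    · have h2 : m 0 = 0 := by omega
      have h3 : m 1 = 0 := by omega
      rw [if_pos h1, h2, h3]
      simp
    · rw [if_neg h1]
      rcases Nat.eq_zero_or_pos (m 0) with h2 | h2
      · have h3 : m 1 ≠ 0 := by omega
        rw [zero_pow h3]
        simp
      · rw [zero_pow h2.ne']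
        simp

theorem ev_ch (p : MvPolynomial (Fin 3) ℂ) (t x : ℂ) : ev2 (ch p) t x = eval ![t, 1, x] p := by
  induction p using MvPolynomial.induction_on with
  | C a => rw [ch_C, ev2, evt_kc, Polynomial.eval_C, eval_C]
  | add p q hp hq => rw [map_add, map_add, ev2_add, hp, hq]
  | mul_X p i hp =>
    rw [map_mul, map_mul, ev2_mul, hp, eval_X]
    congr 1
    fin_cases i
    · simp [ch, ev2, evt]
    · simp [ch, ev2, evt]
    · simp [ch, ev2, evt]

theorem eval_scale {n : ℕ} {F : MvPolynomial (Fin 3) ℂ} (hF : F.IsHomogeneous n) {u : ℂ}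
    (hu : u ≠ 0) (x : ℂ) : eval ![1, u, x] F = u ^ n * eval ![u⁻¹, 1, x / u] F := by
  have hm := deg3 hF
  have hs : F = ∑ m ∈ F.support, monomial m (coeff m F) := F.as_sum
  conv_lhs => rw [hs]
  conv_rhs => rw [hs]
  rw [map_sum, map_sum, Finset.mul_sum]
  refine Finset.sum_congr rfl fun m hm' => ?_
  have := hm m hm'
  rw [eval_mon, eval_mon, ← this, pow_add, pow_add, inv_pow, div_pow, one_pow, one_pow]
  field_simp

/-- the exchange of the first two variables -/
noncomputable def sw : MvPolynomial (Fin 3) ℂ →ₐ[ℂ] MvPolynomial (Fin 3) ℂ :=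
  rename (Equiv.swap (0 : Fin 3) 1)

theorem sw_sw (p : MvPolynomial (Fin 3) ℂ) : sw (sw p) = p := by
  rw [sw, rename_rename]
  have : (⇑(Equiv.swap (0 : Fin 3) 1) ∘ ⇑(Equiv.swap (0 : Fin 3) 1)) = id := by
    funext i
    simp
  rw [this, rename_id]
  rfl

theorem eval_sw (a b e : ℂ) (p : MvPolynomial (Fin 3) ℂ) :
    eval ![a, b, e] (sw p) = eval ![b, a, e] p := by
  rw [sw, eval_rename]
  congr 2
  funext i
  fin_cases i <;> rfl

theorem sw_homog {n : ℕ} {p : MvPolynomial (Fin 3) ℂ} (hp : p.IsHomogeneous n) :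
    (sw p).IsHomogeneous n := hp.rename_isHomogeneous

theorem sw_X0 : sw (X 0) = X 1 := by rw [sw, rename_X]; rfl

theorem sw_X1 : sw (X 1) = X 0 := by rw [sw, rename_X]; rfl

theorem evt_ch (p : MvPolynomial (Fin 3) ℂ) :
    evt 0 (ch p) = aeval ![(0 : Polynomial ℂ), 1, Polynomial.X] p := by
  induction p using MvPolynomial.induction_on with
  | C a => rw [ch_C, evt_kc, aeval_C]; rfl
  | add p q hp hq => rw [map_add, map_add, map_add, hp, hq]
  | mul_X p i hp =>
    rw [map_mul, map_mul, map_mul, hp, aeval_X]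
    congr 1
    fin_cases i
    · simp [ch, evt]
    · simp [ch, evt]
    · simp [ch, evt]

theorem aeval_sw (p : MvPolynomial (Fin 3) ℂ) :
    aeval ![(0 : Polynomial ℂ), 1, Polynomial.X] (sw p) =
      aeval ![(1 : Polynomial ℂ), 0, Polynomial.X] p := by
  rw [sw, aeval_rename]
  congr 2
  funext i
  fin_cases i <;> rfl

theorem aeval_sw' (p : MvPolynomial (Fin 3) ℂ) :
    aeval ![(1 : Polynomial ℂ), 0, Polynomial.X] (sw p) =
      aeval ![(0 : Polynomial ℂ), 1, Polynomial.X] p := by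
  rw [← aeval_sw, sw_sw]

/-- the radical and the derivatives -/
theorem log_dvd {g G : MvPolynomial (Fin 3) ℂ} (i : Fin 3)
    (h : ∀ p, Prime p → p ∣ g → p ∣ G) : g ∣ G * pderiv i g := by
  induction g using UniqueFactorizationMonoid.induction_on_prime with
  | h₁ => rw [map_zero, mul_zero]
  | h₂ x hx => exact hx.dvd
  | h₃ a p ha hp ih =>
    have h1 := ih fun q hq hqa => h q hq (hqa.mul_left p)
    have h2 : p ∣ G := h p hp (dvd_mul_right p a)
    obtain ⟨u, hu⟩ := h1
    obtain ⟨v, hv⟩ := h2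
    refine ⟨u + v * pderiv i p, ?_⟩
    rw [Derivation.leibniz, smul_eq_mul, smul_eq_mul]
    linear_combination p * hu + a * pderiv i p * hv

theorem neg3 {d : ℕ} (hd : 0 < d) : (-3 / d : ℝ) < 0 := by
  have h1 : (0 : ℝ) < d := by exact_mod_cast hd
  exact div_neg_of_neg_of_pos (by norm_num) h1

/-- **No primitive for a form with two transversal lines.** -/
theorem core {F g G : MvPolynomial (Fin 3) ℂ} {m₀ m₁ δ N k d : ℕ}
    (hF : F = X 0 ^ m₀ * X 1 ^ m₁ * g) (hFh : F.IsHomogeneous d) (hd : d = m₀ + m₁ + δ)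
    (h0 : 1 ≤ m₀) (h1 : 1 ≤ m₁) (hN : 2 ≤ N) (hg : g.IsHomogeneous δ) (hG : G.IsHomogeneous N)
    (hGg : G ∣ g) (hgG : g ∣ G ^ k)
    (s0 : (aeval ![(0 : Polynomial ℂ), 1, Polynomial.X] G).Separable)
    (n0 : (aeval ![(0 : Polynomial ℂ), 1, Polynomial.X] G).natDegree = N)
    (s1 : (aeval ![(1 : Polynomial ℂ), 0, Polynomial.X] G).Separable)
    (hE : Exact d F (-3 / d))
    (hcase : (∀ n : ℤ, (-3 / d * m₀ : ℝ) ≠ n) ∨ (m₁ = m₀ ∧ δ = m₀)) : False := by
  have hd0 : 0 < d := by omega
  have hdc : (d : ℂ) ≠ 0 := Nat.cast_ne_zero.2 hd0.ne'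
  have hds : (d : ℂ) * (-3 / d) = -3 := by field_simp
  have hσ := neg3 hd0
  set σ : ℝ := -3 / d with hσd
  have hsσ : (-3 / d : ℂ) = (σ : ℂ) := by
    rw [hσd]
    push_cast
    rfl
  -- the degrees with respect to `x₂`
  obtain ⟨gd, gc⟩ := ch_top hG
  have hc0 : eval ![0, 0, 1] G ≠ 0 := by
    intro h
    rw [h, Polynomial.C_0] at gc
    rw [← evt_ch] at n0 s0
    have h2 : (evt 0 (ch G)).coeff N = 0 := by
      rw [coeff_evt, gc, Polynomial.eval_zero]
    rw [← n0, Polynomial.coeff_natDegree, Polynomial.leadingCoeff_eq_zero] at h2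
    rw [h2, Polynomial.natDegree_zero] at n0
    omega
  set c := eval ![0, 0, 1] G with hc
  obtain ⟨v, hv⟩ := hgG
  have hg0 : eval ![0, 0, 1] g ≠ 0 := by
    intro h
    have h2 := congrArg (eval ![0, 0, 1]) hv
    rw [map_pow, map_mul, h, zero_mul] at h2
    exact pow_ne_zero k hc0 h2
  obtain ⟨γd, γc⟩ := ch_top hg
  have hγδ : (ch g).natDegree = δ := by
    refine le_antisymm γd (Polynomial.le_natDegree_of_ne_zero ?_)
    rw [γc]
    exact Polynomial.C_ne_zero.2 hg0
  have hGN : (ch G).natDegree = N := by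
    refine le_antisymm gd (Polynomial.le_natDegree_of_ne_zero ?_)
    rw [gc]
    exact Polynomial.C_ne_zero.2 hc0
  have hγ0 : ch g ≠ 0 := by
    intro h
    rw [h, Polynomial.coeff_zero] at γc
    exact Polynomial.C_ne_zero.2 hg0 γc.symm
  have hNδ : N ≤ δ := by
    rw [← hγδ, ← hGN]
    exact Polynomial.natDegree_le_of_dvd (map_dvd ch hGg) hγ0
  have hcc : (kc c⁻¹ * kc c) = 1 := by rw [← kc_mul, inv_mul_cancel₀ hc0, kc_one]
  set Qp : Polynomial (Polynomial ℂ) := kc c⁻¹ * ch G with hQp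
  have hQlc : Qp.coeff N = 1 := by
    rw [hQp, kc, Polynomial.coeff_C_mul, gc, ← Polynomial.C_mul, inv_mul_cancel₀ hc0,
      Polynomial.C_1]
  have hQd : Qp.natDegree = N := by
    refine le_antisymm ((Polynomial.natDegree_C_mul_le _ _).trans gd)
      (Polynomial.le_natDegree_of_ne_zero ?_)
    rw [hQlc]
    exact one_ne_zero
  have hQm : Qp.Monic := by
    rw [Polynomial.Monic, Polynomial.leadingCoeff, hQd, hQlc]
  -- the logarithmic derivatives
  have hprime : ∀ p, Prime p → p ∣ g → p ∣ G := fun p hp hpg =>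
    hp.dvd_of_dvd_pow (hpg.trans ⟨v, hv⟩)
  obtain ⟨w2, hw2⟩ := log_dvd (g := g) (G := G) 2 hprime
  obtain ⟨w0, hw0⟩ := log_dvd (g := g) (G := G) 0 hprime
  have e2 := congrArg ch hw2
  have e0 := congrArg ch hw0
  rw [map_mul, map_mul, ch_pderiv2] at e2
  rw [map_mul, map_mul, ch_pderiv0] at e0
  set hx : Polynomial (Polynomial ℂ) := kc c⁻¹ * ch w2 with hhx
  set ht : Polynomial (Polynomial ℂ) := kc c⁻¹ * ch w0 with hht
  have hxE : Polynomial.derivative (ch g) * Qp = ch g * hx := by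
    rw [hQp, hhx]
    linear_combination kc c⁻¹ * e2
  have htE : dt (ch g) * Qp = ch g * ht := by
    rw [hQp, hht]
    linear_combination kc c⁻¹ * e0
  have hQγ : Qp ∣ ch g := by
    obtain ⟨y, hy⟩ := hGg
    refine ⟨kc c * ch y, ?_⟩
    rw [hy, map_mul, hQp]
    linear_combination (-(ch G * ch y)) * hcc
  have hV : ch g ∣ Qp ^ k := by
    refine ⟨kc c⁻¹ ^ k * ch v, ?_⟩
    have h2 := congrArg ch hv
    rw [map_pow, map_mul] at h2
    rw [hQp, mul_pow]
    linear_combination kc c⁻¹ ^ k * h2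
  obtain ⟨hxn, hxlc⟩ := lead_h hγ0 hxE hQd (by omega) hγδ (by omega)
  rw [hQlc, mul_one] at hxlc
  have hxlc' : hx.coeff (N - 1) = Polynomial.C (δ : ℂ) := by
    rw [hxlc]
    simp
  have hxd : hx.degree < ((Qp.natDegree : ℕ) : WithBot ℕ) := by
    rw [hQd]
    refine lt_of_le_of_lt (Polynomial.degree_le_of_natDegree_le hxn) ?_
    have : N - 1 < N := by omega
    exact_mod_cast this
  have htd : ht.degree < ((Qp.natDegree : ℕ) : WithBot ℕ) := by
    rw [hQd]
    by_cases hz : ht = 0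
    · rw [hz, Polynomial.degree_zero]; exact WithBot.bot_lt_coe _
    · have hdt : dt (ch g) ≠ 0 := by
        intro h
        rw [h, zero_mul] at htE
        exact hz ((mul_eq_zero.1 htE.symm).resolve_left hγ0)
      have h2 := congrArg Polynomial.natDegree htE
      rw [Polynomial.natDegree_mul hdt hQm.ne_zero, Polynomial.natDegree_mul hγ0 hz, hQd,
        hγδ] at h2
      have h3 : (dt (ch g)).natDegree < δ := by
        refine (Polynomial.natDegree_lt_iff_degree_lt hdt).2 ?_
        rw [Polynomial.degree_lt_iff_coeff_zero]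
        intro i hi
        rw [coeff_dt]
        rcases hi.eq_or_lt with h4 | h4
        · rw [← h4, γc, Polynomial.derivative_C]
        · rw [Polynomial.coeff_eq_zero_of_natDegree_lt (by rw [hγδ]; exact h4),
            Polynomial.derivative_zero]
      have h4 : ht.natDegree < N := by omega
      exact (Polynomial.natDegree_lt_iff_degree_lt hz).1 h4
  -- the equation
  obtain ⟨K, P, Q, -, -, hEq⟩ := exact_two hFh hds hE
  have hX0 : ch (X 0) = Polynomial.C Polynomial.X := by simp [ch]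
  have hX1 : ch (X 1) = 1 := by simp [ch]
  have hchF : ch F = Polynomial.C Polynomial.X ^ m₀ * ch g := by
    rw [hF, map_mul, map_mul, map_pow, map_pow, hX0, hX1, one_pow, mul_one]
  have hEq' := congrArg ch hEq
  rw [map_mul, map_add, map_mul, map_mul, map_add, map_add, map_mul, map_mul, map_pow, ch_C,
    ch_pderiv0, ch_pderiv0, ch_pderiv2, ch_pderiv2, hX1, one_mul, hchF] at hEq'
  -- separability
  have he0 : evt 0 Qp = Polynomial.C c⁻¹ * aeval ![(0 : Polynomial ℂ), 1, Polynomial.X] G := by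
    rw [hQp, map_mul, evt_kc, evt_ch]
  have hsep0 : (evt 0 Qp).Separable := by
    rw [he0]
    exact s0.unit_mul (Polynomial.isUnit_C.2 (inv_ne_zero hc0).isUnit)
  have hdisc := disc hQm (by rw [hQd]; omega) hsep0
  have hs : ∀ K m : ℕ, (-3 / d : ℂ) * ((m : ℂ) + 1) - K ≠ 0 := by
    intro K m h
    rw [hsσ] at h
    have h2 : ((σ * (m + 1) - K : ℝ) : ℂ) = 0 := by
      push_cast
      exact h
    have h3 : (σ * (m + 1) - K : ℝ) = 0 := by exact_mod_cast h2
    have h4 : (0 : ℝ) ≤ K := Nat.cast_nonneg _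
    have h5 : (0 : ℝ) ≤ m := Nat.cast_nonneg _
    nlinarith
  rcases hcase with he | ⟨hm, hδ⟩
  · have he' : ∀ n : ℤ, (-3 / d : ℂ) * m₀ ≠ n := by
      intro n h
      apply he n
      rw [hsσ] at h
      exact_mod_cast h
    obtain ⟨P', R', hCl, hP', hR'⟩ := stage1 hγ0 hQm hxE htE hV hQγ (by rw [hQd]; omega) hxd htd
      hdisc hs he' hEq'
    obtain ⟨dd, p, r, q, hdd, hpE, hqd, hrd, heq⟩ := stage2 (hp := kc (-3 / d) * hx)
      (lp := kc (-3 / d) * ht) hQm hCl hP' hR'
    have D : Data N Qp (ch g) hx ht ((σ : ℝ) : ℂ) ((σ * m₀ : ℝ) : ℂ) dd p r q := by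
      rw [hsσ] at hpE heq
      rw [hQd] at hxd htd hqd hrd
      refine ⟨hQm, hQd, hγ0, hQγ, hxE, htE, hxd, htd, hdd, ?_, hqd, hrd, ?_⟩
      · push_cast
        exact hpE
      · push_cast
        exact heq
    -- the other line
    set Qi : Polynomial (Polynomial ℂ) := kc c⁻¹ * ch (sw G) with hQi
    obtain ⟨gid, gic⟩ := ch_top (sw_homog hG)
    rw [eval_sw, ← hc] at gic
    have hQilc : Qi.coeff N = 1 := by
      rw [hQi, kc, Polynomial.coeff_C_mul, gic, ← Polynomial.C_mul, inv_mul_cancel₀ hc0,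
        Polynomial.C_1]
    have hQid : Qi.natDegree = N := by
      refine le_antisymm ((Polynomial.natDegree_C_mul_le _ _).trans gid)
        (Polynomial.le_natDegree_of_ne_zero ?_)
      rw [hQilc]
      exact one_ne_zero
    have hQim : Qi.Monic := by
      rw [Polynomial.Monic, Polynomial.leadingCoeff, hQid, hQilc]
    have hsepi : (evt 0 Qi).Separable := by
      have : evt 0 Qi = Polynomial.C c⁻¹ *
          aeval ![(1 : Polynomial ℂ), 0, Polynomial.X] G := by
        rw [hQi, map_mul, evt_kc, evt_ch, aeval_sw]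
      rw [this]
      exact s1.unit_mul (Polynomial.isUnit_C.2 (inv_ne_zero hc0).isUnit)
    refine contra D hN hσ hV he hsep0 hQim hQid hsepi ?_ hxlc' (e1 := σ * m₁) ?_ ?_
    · intro u x hu hz
      have h2 : ev2 (ch (sw G)) u x = 0 := by
        have h3 : ev2 Qi u x = 0 := hz
        rw [hQi, ev2_mul, ev2, evt_kc, Polynomial.eval_C] at h3
        exact (mul_eq_zero.1 h3).resolve_left (inv_ne_zero hc0)
      rw [ev_ch, eval_sw, eval_scale hG hu] at h2
      have h3 := (mul_eq_zero.1 h2).resolve_left (pow_ne_zero N hu)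
      rw [← ev_ch] at h3
      change ev2 Qp u⁻¹ (x / u) = 0
      rw [hQp, ev2_mul, h3, mul_zero]
    · have : (1 : ℝ) ≤ m₁ := by exact_mod_cast h1
      nlinarith
    · have h2 : (d : ℝ) = m₀ + m₁ + δ := by exact_mod_cast hd
      have h3 : σ * d = -3 := by
        rw [hσd]
        have : (d : ℝ) ≠ 0 := by exact_mod_cast hd0.ne'
        field_simp
      rw [h2] at h3
      linarith
  · have hm0 : (m₀ : ℂ) ≠ 0 := Nat.cast_ne_zero.2 (by omega)
    have hd3 : (d : ℂ) = 3 * m₀ := by
      rw [hd, hm, hδ]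
      push_cast
      ring
    have he : (-3 / d : ℂ) * m₀ = -1 := by
      rw [hd3]
      field_simp
    refine special hγ0 hQm hxE htE hV hQγ (by rw [hQd]; omega) hxd htd hdisc hs he ?_ hEq'
    rw [hQd, kc, Polynomial.coeff_C_mul, hxlc', ← Polynomial.C_mul, hδ, he]

end Pool.Agent.H941.TF
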