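import Pool.Agent.H941.TF.Ode

set_option autoImplicit false
set_option linter.unusedSectionVars false
set_option linter.unusedVariables false

/-! # The residues along parametrized families of roots -/

namespace Pool.Agent.H941.TF

open Polynomial Finset Filter Topology Pool.Agent.Helper748.TP

/-- a parametrized family of the roots -/
structure Par (N : ℕ) (Qp : ℂ[X][X]) (T : ℂ → ℂ) (a : Fin N → ℂ → ℂ) : Prop where
  hT : MeromorphicAt T 0
  ha : ∀ j, MeromorphicAt (a j) 0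
  root : ∀ᶠ u in 𝓝[≠] (0 : ℂ), evt (T u) Qp = nod fun j => a j u
  inj : ∀ᶠ u in 𝓝[≠] (0 : ℂ), Function.Injective fun j => a j u

/-- the multiplicity of a root -/
theorem mult_val {G g h : ℂ[X]} (hG : G ≠ 0) (hGh : derivative G * g = G * h) {c : ℂ}
    (hc : g.eval c = 0) : h.eval c = G.rootMultiplicity c * (derivative g).eval c := by
  obtain ⟨G1, hG1, hH⟩ := at_pt hG hGh c
  have h1 := congrArg (fun p => eval c (derivative p)) hH
  beta_reduce at h1
  simp only [derivative_mul, derivative_add, derivative_sub, derivative_X, derivative_C, eval_add,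
    eval_mul, eval_sub, eval_X, eval_C, hc, sub_self, zero_mul, mul_zero, add_zero, zero_add,
    one_mul, sub_zero] at h1
  refine mul_left_cancel₀ hG1 ?_
  linear_combination -h1

/-- a meromorphic function with finitely many values is constant -/
theorem mero_const {φ : ℂ → ℂ} (hφ : MeromorphicAt φ 0) {B : ℕ}
    (h : ∀ᶠ u in 𝓝[≠] (0 : ℂ), ∃ n : ℕ, 1 ≤ n ∧ n ≤ B ∧ φ u = n) :
    ∃ n : ℕ, 1 ≤ n ∧ ∀ᶠ u in 𝓝[≠] (0 : ℂ), φ u = n := by
  by_contra hcon
  have h1 : ∀ n : ℕ, 1 ≤ n → ∀ᶠ u in 𝓝[≠] (0 : ℂ), φ u ≠ n := by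
    intro n hn
    have h2 : MeromorphicAt (fun u => φ u - n) 0 := hφ.sub (MeromorphicAt.const _ _)
    rcases h2.eventually_eq_zero_or_eventually_ne_zero with h3 | h3
    · exact absurd ⟨n, hn, h3.mono fun u hu => sub_eq_zero.1 hu⟩ hcon
    · exact h3.mono fun u hu => sub_ne_zero.1 hu
  have h2 : ∀ᶠ u in 𝓝[≠] (0 : ℂ), ∀ n ∈ Finset.Icc 1 B, φ u ≠ n := by
    rw [Filter.eventually_all_finset]
    intro n hn
    exact h1 n (Finset.mem_Icc.1 hn).1
  obtain ⟨u, ⟨n, hn1, hn2, hn3⟩, hu⟩ := (h.and h2).exists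
  exact hu n (Finset.mem_Icc.2 ⟨hn1, hn2⟩) hn3

/-- the multiplicities are constant -/
theorem Par.mult {N : ℕ} {Qp γ hx : ℂ[X][X]} {T : ℂ → ℂ} {a : Fin N → ℂ → ℂ}
    (P : Par N Qp T a) (hxE : derivative γ * Qp = γ * hx) (hQγ : Qp ∣ γ) {M : ℕ}
    (hγ : γ ∣ Qp ^ M) : ∃ n : Fin N → ℕ, (∀ j, 1 ≤ n j) ∧ ∀ᶠ u in 𝓝[≠] (0 : ℂ), ∀ j,
      ev2 hx (T u) (a j u) = n j * ev2 (derivative Qp) (T u) (a j u) := by
  have key : ∀ j, ∃ n : ℕ, 1 ≤ n ∧ ∀ᶠ u in 𝓝[≠] (0 : ℂ),
      ev2 hx (T u) (a j u) / ev2 (derivative Qp) (T u) (a j u) = n := by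
    intro j
    refine mero_const (B := γ.natDegree)
      ((mero_ev2 hx P.hT (P.ha j)).div (mero_ev2 _ P.hT (P.ha j))) ?_
    filter_upwards [P.root, P.inj] with u hu hi
    have hG : evt (T u) γ ≠ 0 := by
      intro h0
      obtain ⟨V, hV⟩ := hγ
      have h1 := congrArg (evt (T u)) hV
      rw [map_mul, h0, zero_mul, map_pow, hu] at h1
      refine pow_ne_zero M ?_ h1
      exact (monic_prod_of_monic _ _ fun k _ => monic_X_sub_C _).ne_zero
    have hGh : derivative (evt (T u) γ) * evt (T u) Qp = evt (T u) γ * evt (T u) hx := by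
      rw [← evt_der, ← map_mul, hxE, map_mul]
    have hc : (evt (T u) Qp).eval (a j u) = 0 := by
      rw [hu]; exact eval_nod (x := fun j => a j u) j
    have hq : ev2 (derivative Qp) (T u) (a j u) ≠ 0 := by
      rw [ev2, evt_der, hu]
      exact der_nod_ne hi j
    refine ⟨(evt (T u) γ).rootMultiplicity (a j u), ?_, ?_, ?_⟩
    · rw [Nat.succ_le_iff, rootMultiplicity_pos hG]
      obtain ⟨V, hV⟩ := hQγ
      rw [hV, map_mul, IsRoot, eval_mul, hc, zero_mul]
    · refine le_trans ?_ (natDegree_map_le (p := γ) (f := evalRingHom (T u)))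
      rw [← count_roots]
      exact (Multiset.count_le_card _ _).trans (card_roots' _)
    · rw [div_eq_iff hq]
      have h1 := mult_val hG hGh hc
      rw [ev2, h1, ev2, evt_der]
  choose n hn1 hn2 using key
  refine ⟨n, hn1, ?_⟩
  filter_upwards [P.root, P.inj, eventually_all.2 hn2] with u hu hi h1 j
  have hq : ev2 (derivative Qp) (T u) (a j u) ≠ 0 := by
    rw [ev2, evt_der, hu]
    exact der_nod_ne hi j
  exact (div_eq_iff hq).1 (h1 j)

/-- **The differential system along a parametrized family of roots.** -/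
theorem Data.system {N : ℕ} {Qp γ hx ht : ℂ[X][X]} {σ e0 : ℝ} {d : ℂ[X]} {p r q : ℂ[X][X]}
    (D : Data N Qp γ hx ht σ e0 d p r q) (hσ : σ < 0) {M : ℕ} (hγ : γ ∣ Qp ^ M)
    {T : ℂ → ℂ} {a : Fin N → ℂ → ℂ} (P : Par N Qp T a)
    (hTd : ∀ᶠ u in 𝓝[≠] (0 : ℂ), d.eval (T u) ≠ 0 ∧ T u ≠ 0) :
    ∃ b : Fin N → ℝ, (∀ j, b j < 0) ∧
      (∀ᶠ u in 𝓝[≠] (0 : ℂ), ∀ j, ev2 (kc σ * hx) (T u) (a j u) =
        b j * ev2 (derivative Qp) (T u) (a j u)) ∧
      (∀ j, MeromorphicAt (fun v => yy σ hx d p (T v) (a j v)) 0) ∧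
      ∀ j, ∀ᶠ u in 𝓝[≠] (0 : ℂ), deriv (fun v => yy σ hx d p (T v) (a j v)) u +
        deriv T u * (e0 / T u) * yy σ hx d p (T u) (a j u) +
        ∑ i ∈ univ.erase j, b i * (yy σ hx d p (T u) (a j u) - yy σ hx d p (T u) (a i u)) *
        ((deriv (a j) u - deriv (a i) u) / (a j u - a i u)) =
          deriv (a j) u * (T u * ((e0 : ℂ) + 1)⁻¹) := by
  obtain ⟨n, hn1, hn⟩ := P.mult D.hxE D.dvd hγ
  have hb : ∀ᶠ u in 𝓝[≠] (0 : ℂ), ∀ j, ev2 (kc σ * hx) (T u) (a j u) =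
        ((σ * n j : ℝ) : ℂ) * ev2 (derivative Qp) (T u) (a j u) := by
    filter_upwards [hn] with u hu j
    rw [ev2_mul, hu j]
    have : ev2 (kc (σ : ℂ)) (T u) (a j u) = σ := by rw [ev2, evt_kc, eval_C]
    rw [this]
    push_cast
    ring
  refine ⟨fun j => σ * n j, fun j => ?_, hb, fun j => ?_, fun j => ?_⟩
  · have : (1 : ℝ) ≤ n j := by exact_mod_cast hn1 j
    nlinarith
  · refine (mero_ev2 p P.hT (P.ha j)).div (MeromorphicAt.mul ?_ (mero_ev2 _ P.hT (P.ha j)))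
    have h1 := mero_ev2 (C d) P.hT (P.ha j)
    refine h1.congr (Eventually.of_forall fun v => ?_)
    change ev2 (C d) (T v) (a j v) = _
    rw [ev2, evt_C, eval_C]
  · have hev : ∀ {p : ℂ → Prop}, (∀ᶠ u in 𝓝[≠] (0 : ℂ), p u) →
        ∀ᶠ u in 𝓝[≠] (0 : ℂ), ∀ᶠ v in 𝓝 u, p v := by
      intro p hp
      have h1 := eventually_eventually_nhdsWithin.2 hp
      filter_upwards [h1, self_mem_nhdsWithin] with u hu hu0
      rwa [nhdsWithin_eq_nhds.2 (isOpen_compl_singleton.mem_nhds hu0)] at hu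
    have hTa := P.hT.eventually_analyticAt
    have haa := eventually_all.2 fun j => (P.ha j).eventually_analyticAt
    filter_upwards [hev P.root, P.inj, hTd, hev hb, hTa, haa] with u h1 h2 h3 h4 h5 h6
    refine D.ode (T := T) (a := a) (b := fun j => ((σ * n j : ℝ) : ℂ))
      (a' := fun j => deriv (a j) u) h5.differentiableAt.hasDerivAt
      (fun j => (h6 j).differentiableAt.hasDerivAt) h1 h2 h3.1 h3.2 h4 (fun j => ?_) (fun j => ?_) j
    · have h7 : (1 : ℝ) ≤ n j := by exact_mod_cast hn1 j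
      have h8 : σ * n j < 0 := by nlinarith
      exact_mod_cast h8.ne
    · have h7 : (1 : ℝ) ≤ n j := by exact_mod_cast hn1 j
      have h8 : σ * n j < 1 := by nlinarith
      exact_mod_cast h8.ne

/-- the logarithmic derivative of an analytic function -/
theorem ord {f : ℂ → ℂ} (hf : AnalyticAt ℂ f 0) (h0 : ∀ᶠ u in 𝓝[≠] (0 : ℂ), f u ≠ 0) :
    ∃ n : ℕ, Tendsto (fun u => u * (deriv f u / f u)) (𝓝[≠] 0) (𝓝 (n : ℂ)) ∧
      (f 0 = 0 → n ≠ 0) ∧ (f 0 ≠ 0 → n = 0) := by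
  have h1 : ¬ ∀ᶠ u in 𝓝 (0 : ℂ), f u = 0 := by
    intro h
    obtain ⟨u, h2, h3⟩ := (h0.and (h.filter_mono nhdsWithin_le_nhds)).exists
    exact h2 h3
  obtain ⟨n, g, hg, hg0, hfg⟩ := (hf.exists_eventuallyEq_pow_smul_nonzero_iff).2 h1
  have hf0 : f 0 = 0 ^ n * g 0 := by
    have := hfg.self_of_nhds
    rwa [sub_zero, smul_eq_mul] at this
  refine ⟨n, ?_, ?_, ?_⟩
  · have hgne : ∀ᶠ u in 𝓝 (0 : ℂ), g u ≠ 0 := hg.continuousAt.eventually_ne hg0
    have h2 : (fun u => u * (deriv f u / f u)) =ᶠ[𝓝[≠] 0]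
        fun u => (n : ℂ) + u * (deriv g u / g u) := by
      have h3 : ∀ᶠ u in 𝓝[≠] (0 : ℂ), ∀ᶠ v in 𝓝 u, f v = v ^ n * g v := by
        have h4 : ∀ᶠ v in 𝓝 (0 : ℂ), f v = v ^ n * g v := by
          filter_upwards [hfg] with v hv
          rw [hv, sub_zero, smul_eq_mul]
        exact h4.eventually_nhds.filter_mono nhdsWithin_le_nhds
      filter_upwards [h3, self_mem_nhdsWithin, hgne.filter_mono nhdsWithin_le_nhds,
        (hg.eventually_analyticAt).filter_mono nhdsWithin_le_nhds] with u h4 h5 h6 h7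
      have hu0 : u ≠ 0 := h5
      have h8 : deriv f u = n * u ^ (n - 1) * g u + u ^ n * deriv g u := by
        rw [EventuallyEq.deriv_eq (show f =ᶠ[𝓝 u] fun v => v ^ n * g v from h4)]
        exact ((hasDerivAt_pow n u).fun_mul h7.differentiableAt.hasDerivAt).deriv
      rw [h8, h4.self_of_nhds]
      rcases Nat.eq_zero_or_pos n with hn | hn
      · rw [hn]
        simp
      · have h9 : u ^ n = u ^ (n - 1) * u := by rw [← pow_succ]; congr 1; omega
        rw [h9]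
        field_simp
    refine Tendsto.congr' h2.symm ?_
    have h3 : Tendsto (fun u : ℂ => u * (deriv g u / g u)) (𝓝[≠] 0) (𝓝 (0 * (deriv g 0 / g 0))) := by
      have h4 : ContinuousAt (fun u : ℂ => u * (deriv g u / g u)) 0 :=
        continuousAt_id.mul (hg.deriv.continuousAt.div hg.continuousAt hg0)
      exact h4.tendsto.mono_left nhdsWithin_le_nhds
    rw [zero_mul] at h3
    simpa using h3.const_add (n : ℂ)
  · intro h hn
    rw [hn, pow_zero, one_mul] at hf0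
    exact hg0 (hf0 ▸ h)
  · intro h
    by_contra hn
    exact h (by rw [hf0, zero_pow hn, zero_mul])

end Pool.Agent.H941.TF
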