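import Pool.Agent.H941.TF.Norm

set_option autoImplicit false
set_option linter.unusedSectionVars false
set_option linter.unusedVariables false

/-! # The primitive in normal form -/

namespace Pool.Agent.H941.TF

open Polynomial Pool.Agent.Helper748.TP

theorem map_kc (c : ℂ) : (kc c).map io = C (io (C c)) := by rw [kc, map_C]

theorem pow_dk (f : Kt[X]) (K : ℕ) : f * dk (f ^ K) = (K : Kt[X]) * f ^ K * dk f := by
  induction K with
  | zero => rw [pow_zero, dk_one, Nat.cast_zero]; ring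
  | succ K ih =>
    rw [pow_succ, dk_mul]
    push_cast
    linear_combination f * ih

theorem pow_der (f : Kt[X]) (K : ℕ) :
    f * derivative (f ^ K) = (K : Kt[X]) * f ^ K * derivative f := by
  induction K with
  | zero => rw [pow_zero, derivative_one, Nat.cast_zero]; ring
  | succ K ih =>
    rw [pow_succ, derivative_mul]
    push_cast
    linear_combination f * ih

theorem natC (n : ℕ) : (C ((n : ℕ) : Kt) : Kt[X]) = (n : Kt[X]) := by simp

/-- The equation with the denominators `Q ^ n`. -/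
theorem to_Cl {Qp γ hx ht P R V : ℂ[X][X]} {s : ℂ} {m0 K M : ℕ} (hγ : γ ≠ 0) (hQ0 : Qp ≠ 0)
    (hxE : derivative γ * Qp = γ * hx) (htE : dt γ * Qp = γ * ht) (hV : γ * V = Qp ^ M)
    (hE : (C X ^ m0 * γ) ^ (K + 1) = (C X ^ m0 * γ) * (dt P + derivative R) +
      kc (s - K) * (dt (C X ^ m0 * γ) * P + derivative (C X ^ m0 * γ) * R)) :
    Cl (Qp.map io) ((kc s * hx).map io) ((kc s * ht).map io) (ee (s * m0)) (M * K + 1)
      (La (m0 * K) (P * (V ^ K * Qp))) (La (m0 * K) (R * (V ^ K * Qp))) := by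
  set Q : Kt[X] := Qp.map io with hQd
  set g : Kt[X] := γ.map io with hgd
  set x : Kt[X] := hx.map io with hxd
  set y : Kt[X] := ht.map io with hyd
  set f : Kt[X] := C (Tk ^ m0) * g with hfd
  set P1 : Kt[X] := P.map io with hP1
  set R1 : Kt[X] := R.map io with hR1
  set W : Kt[X] := (V ^ K * Qp).map io with hW
  set c : Kt[X] := C (Tk⁻¹ ^ (m0 * K)) with hc
  have hinj := map_injective io io_inj
  have hg0 : g ≠ 0 := (Polynomial.map_ne_zero_iff io_inj).2 hγ
  have hQ00 : Q ≠ 0 := (Polynomial.map_ne_zero_iff io_inj).2 hQ0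
  have hf0 : f ≠ 0 := mul_ne_zero (C_ne_zero.2 (pow_ne_zero _ Tk_ne)) hg0
  have hc0 : c ≠ 0 := C_ne_zero.2 (pow_ne_zero _ (inv_ne_zero Tk_ne))
  have e1 : derivative g * Q = g * x := by
    have := congrArg (Polynomial.map io) hxE
    rwa [Polynomial.map_mul, Polynomial.map_mul, ← derivative_map] at this
  have e2 : dk g * Q = g * y := by
    have := congrArg (Polynomial.map io) htE
    rwa [Polynomial.map_mul, Polynomial.map_mul, ← dk_map] at this
  have hfm : (C X ^ m0 * γ).map io = f := by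
    rw [Polynomial.map_mul, Polynomial.map_pow, map_C, ← C_pow]; rfl
  -- logarithmic derivatives of `f`
  have hTm : ∀ n : ℕ, D (Tk ^ n) = (n : Kt) * Tk⁻¹ * Tk ^ n := by
    intro n
    induction n with
    | zero => rw [pow_zero, D_one, Nat.cast_zero, zero_mul, zero_mul]
    | succ n ih =>
      have h1 : Tk⁻¹ * Tk = 1 := inv_mul_cancel₀ Tk_ne
      rw [pow_succ, D_mul, ih, D_Tk]
      push_cast
      linear_combination (-(Tk ^ n)) * h1
  have f1 : Q * derivative f = f * x := by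
    rw [hfd, derivative_C_mul]
    linear_combination C (Tk ^ m0) * e1
  have f2 : Q * dk f = f * (y + C ((m0 : Kt) * Tk⁻¹) * Q) := by
    rw [hfd, dk_mul, dk_C, hTm, C_mul (a := (m0 : Kt) * Tk⁻¹)]
    linear_combination C (Tk ^ m0) * e2
  have hE1 : f ^ (K + 1) = f * (dk P1 + derivative R1) +
      C (io (C (s - K))) * (dk f * P1 + derivative f * R1) := by
    have hE' : (C X ^ m0 * γ) ^ (K + 1) = (C X ^ m0 * γ) * (dt P + derivative R) +
      kc (s - K) * (dt (C X ^ m0 * γ) * P + derivative (C X ^ m0 * γ) * R) := hE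
    generalize hF : C X ^ m0 * γ = F at hE' hfm
    have := congrArg (Polynomial.map io) hE'
    rw [Polynomial.map_pow, Polynomial.map_add, Polynomial.map_mul, Polynomial.map_mul,
      Polynomial.map_add, Polynomial.map_add, Polynomial.map_mul, Polynomial.map_mul, map_kc,
      ← dk_map, ← dk_map, ← derivative_map, ← derivative_map, hfm] at this
    exact this
  have hE2 : Q * f ^ K = Q * (dk P1 + derivative R1) +
      C (io (C (s - K))) * ((y + C ((m0 : Kt) * Tk⁻¹) * Q) * P1 + x * R1) := by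
    refine mul_left_cancel₀ hf0 ?_
    rw [pow_succ] at hE1
    linear_combination Q * hE1 + C (io (C (s - K))) * (P1 * f2 + R1 * f1)
  have hA : c * f ^ K * W = Q ^ (M * K + 1) := by
    have h1 := congrArg (Polynomial.map io) (congrArg (fun z => z ^ K) hV)
    beta_reduce at h1
    rw [mul_pow, Polynomial.map_mul, Polynomial.map_pow, ← pow_mul, Polynomial.map_pow,
      Polynomial.map_pow] at h1
    have h2 : c * C (Tk ^ (m0 * K)) = 1 := by
      rw [hc, ← C_mul, ← mul_pow, inv_mul_cancel₀ Tk_ne, one_pow, C_1]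
    rw [hW, Polynomial.map_mul, hfd, mul_pow, ← C_pow, ← pow_mul, pow_succ, Polynomial.map_pow]
    linear_combination Q * h1 + (g ^ K * (V.map io) ^ K * Q) * h2
  -- the derivatives of this equation
  have hAx : (K : Kt[X]) * c * x * W + c * Q * derivative W =
      ((M * K + 1 : ℕ) : Kt[X]) * c * W * derivative Q := by
    have h1 := congrArg derivative hA
    have h2 := pow_der f K
    have h3 := pow_der Q (M * K + 1)
    have h4 : derivative c = 0 := derivative_C
    rw [derivative_mul, derivative_mul, h4] at h1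
    have h5 : Q * (c * derivative (f ^ K) * W) + c * f ^ K * (Q * derivative W) =
        ((M * K + 1 : ℕ) : Kt[X]) * (c * f ^ K * W) * derivative Q := by
      rw [hA]
      linear_combination Q * h1 + h3
    have h6 : f * (f ^ K * ((K : Kt[X]) * c * x * W + c * Q * derivative W)) =
        f * (f ^ K * (((M * K + 1 : ℕ) : Kt[X]) * c * W * derivative Q)) := by
      linear_combination f * h5 - Q * c * W * h2 - (K : Kt[X]) * c * W * f ^ K * f1
    exact mul_left_cancel₀ (pow_ne_zero K hf0) (mul_left_cancel₀ hf0 h6)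
  have hAt : dk c * W * Q + (K : Kt[X]) * c * (y + C ((m0 : Kt) * Tk⁻¹) * Q) * W +
      c * Q * dk W = ((M * K + 1 : ℕ) : Kt[X]) * c * W * dk Q := by
    have h1 := congrArg dk hA
    have h2 := pow_dk f K
    have h3 := pow_dk Q (M * K + 1)
    rw [dk_mul, dk_mul] at h1
    have h5 : Q * ((dk c * f ^ K + c * dk (f ^ K)) * W) + c * f ^ K * (Q * dk W) =
        ((M * K + 1 : ℕ) : Kt[X]) * (c * f ^ K * W) * dk Q := by
      rw [hA]
      linear_combination Q * h1 + h3
    have h6 : f * (f ^ K * (dk c * W * Q + (K : Kt[X]) * c * (y + C ((m0 : Kt) * Tk⁻¹) * Q) * W +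
        c * Q * dk W)) = f * (f ^ K * (((M * K + 1 : ℕ) : Kt[X]) * c * W * dk Q)) := by
      linear_combination f * h5 - Q * c * W * h2 - (K : Kt[X]) * c * W * f ^ K * f2
    exact mul_left_cancel₀ (pow_ne_zero K hf0) (mul_left_cancel₀ hf0 h6)
  have hP0 : La (m0 * K) (P * (V ^ K * Qp)) = c * (P1 * W) := by
    rw [La, Polynomial.map_mul]
  have hR0 : La (m0 * K) (R * (V ^ K * Qp)) = c * (R1 * W) := by
    rw [La, Polynomial.map_mul]
  have hl1 : (kc s * ht).map io = C (io (C s)) * y := by rw [Polynomial.map_mul, map_kc]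
  have hh1 : (kc s * hx).map io = C (io (C s)) * x := by rw [Polynomial.map_mul, map_kc]
  have hee : (C (ee (s * m0)) : Kt[X]) = C (io (C s)) * C ((m0 : Kt) * Tk⁻¹) := by
    rw [ee, ← C_mul]
    congr 1
    have h1 : io (C ((m0 : ℕ) : ℂ)) = (m0 : Kt) := by simp
    rw [C_mul, RingHom.map_mul, h1]
    ring
  have hsK : (C (io (C (s - K))) : Kt[X]) = C (io (C s)) - (K : Kt[X]) := by
    rw [C_sub (a := s), map_sub, C_sub]
    congr 1
    rw [show io (C ((K : ℕ) : ℂ)) = (K : Kt) by simp]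
    simp
  rw [Cl, hP0, hR0, hl1, hh1, hee, dk_mul, dk_mul, derivative_mul, derivative_mul,
    show derivative c = 0 from derivative_C]
  rw [hsK] at hE2
  rw [pow_succ]
  linear_combination (-Q) * hA + (c * W) * hE2 - P1 * hAt - R1 * hAx

theorem PP_La {Qp : ℂ[X][X]} (hQ : Qp.Monic) (a n : ℕ) (p : ℂ[X][X]) :
    PP (Qp.map io) n (La a p) (La a (p /ₘ (Qp ^ n))) := by
  refine ⟨La a (p %ₘ (Qp ^ n)), ?_, ?_⟩
  · have h1 := congrArg (Polynomial.map io) (modByMonic_add_div p (Qp ^ n))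
    rw [Polynomial.map_add, Polynomial.map_mul, Polynomial.map_pow] at h1
    rw [La, La, La]
    linear_combination (-C (Tk⁻¹ ^ a)) * h1
  · refine lt_of_le_of_lt (deg_C_mul _ _) (lt_of_le_of_lt degree_map_le ?_)
    rw [natDegree_map_eq_of_injective io_inj, ← hQ.natDegree_pow,
      ← degree_eq_natDegree (hQ.pow n).ne_zero]
    exact degree_modByMonic_lt _ (hQ.pow n)

/-- the integrability -/
theorem integ {Qp γ hx ht : ℂ[X][X]} (s : ℂ) (hγ : γ ≠ 0)
    (hxE : derivative γ * Qp = γ * hx) (htE : dt γ * Qp = γ * ht) :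
    dt (kc s * hx) * Qp - (kc s * hx) * dt Qp =
      derivative (kc s * ht) * Qp - (kc s * ht) * derivative Qp := by
  have h1 := congrArg dt hxE
  have h2 := congrArg derivative htE
  rw [dt_mul, dt_mul, dt_der] at h1
  rw [derivative_mul, derivative_mul] at h2
  rw [dt_kc, der_kc]
  refine mul_left_cancel₀ hγ ?_
  linear_combination kc s * (Qp * (h2 - h1) + (ht + dt Qp) * hxE - (hx + derivative Qp) * htE)

/-- **The primitive with simple poles.** -/
theorem stage0 {Qp γ hx ht P R : ℂ[X][X]} {s : ℂ} {m0 K M : ℕ} (hγ : γ ≠ 0) (hQ : Qp.Monic)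
    (hxE : derivative γ * Qp = γ * hx) (htE : dt γ * Qp = γ * ht) (hV : γ ∣ Qp ^ M)
    (hQγ : Qp ∣ γ) (hN : 0 < Qp.natDegree)
    (hxd : hx.degree < (Qp.natDegree : WithBot ℕ)) (htd : ht.degree < (Qp.natDegree : WithBot ℕ))
    (hsq : ∃ (D0 : ℂ[X]) (α β : ℂ[X][X]), D0 ≠ 0 ∧ C D0 = α * Qp + β * derivative Qp)
    (hs : ∀ K m : ℕ, s * ((m : ℂ) + 1) - K ≠ 0)
    (hE : (C X ^ m0 * γ) ^ (K + 1) = (C X ^ m0 * γ) * (dt P + derivative R) +
      kc (s - K) * (dt (C X ^ m0 * γ) * P + derivative (C X ^ m0 * γ) * R)) :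
    ∃ (P' R' : Kt[X]) (a : ℕ) (p q : ℂ[X][X]),
      Cl (Qp.map io) ((kc s * hx).map io) ((kc s * ht).map io) (ee (s * m0)) 1 P' R' ∧
      PP (Qp.map io) 1 P' (La a p) ∧ PP (Qp.map io) 1 R' (La a q) := by
  obtain ⟨V, hV⟩ := hV
  have hC := to_Cl hγ hQ.ne_zero hxE htE hV.symm hE
  have hinj := io_inj
  have : CharZero Kt := charZero_of_injective_algebraMap (R := ℂ[X]) io_inj
  have hhp : (kc s * hx).degree < (Qp.natDegree : WithBot ℕ) :=
    lt_of_le_of_lt (deg_C_mul _ _) hxd
  have hlp : (kc s * ht).degree < (Qp.natDegree : WithBot ℕ) :=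
    lt_of_le_of_lt (deg_C_mul _ _) htd
  have hQk : (Qp.map io).Monic := hQ.map io
  have hnd : (Qp.map io).natDegree = Qp.natDegree := natDegree_map_eq_of_injective io_inj _
  have hhk : ((kc s * hx).map io).degree < ((Qp.map io).natDegree : WithBot ℕ) := by
    rw [hnd]; exact lt_of_le_of_lt degree_map_le hhp
  have hlk : ((kc s * ht).map io).degree < ((Qp.map io).natDegree : WithBot ℕ) := by
    rw [hnd]; exact lt_of_le_of_lt degree_map_le hlp
  have hi : dk ((kc s * hx).map io) * (Qp.map io) - ((kc s * hx).map io) * dk (Qp.map io) =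
      derivative ((kc s * ht).map io) * (Qp.map io) -
        ((kc s * ht).map io) * derivative (Qp.map io) := by
    have h1 := congrArg (Polynomial.map io) (integ s hγ hxE htE)
    rw [Polynomial.map_sub, Polynomial.map_sub] at h1
    rw [dk_map, dk_map, derivative_map, derivative_map]
    simpa only [Polynomial.map_mul] using h1
  have hsep : IsCoprime (Qp.map io) (derivative (Qp.map io)) := by
    obtain ⟨D0, α, β, hD, hαβ⟩ := hsq
    have hD' : io D0 ≠ 0 := fun h0 => hD (hinj (by rw [h0, map_zero]))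
    refine ⟨C (io D0)⁻¹ * α.map io, C (io D0)⁻¹ * β.map io, ?_⟩
    have h2 := congrArg (Polynomial.map io) hαβ
    rw [Polynomial.map_add, Polynomial.map_mul, Polynomial.map_mul, map_C] at h2
    have h3 : (C (io D0)⁻¹ * C (io D0) : Kt[X]) = 1 := by
      rw [← C_mul, inv_mul_cancel₀ hD', C_1]
    rw [derivative_map]
    linear_combination h3 - C (io D0)⁻¹ * h2
  have hc : ∀ m : ℕ, IsCoprime (Qp.map io)
      ((kc s * hx).map io - (m : Kt[X]) * derivative (Qp.map io)) := by
    intro m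
    have h1 := cop_field (F := Kt) (G := γ.map io) (g := Qp.map io) (h := hx.map io) (s := io (C s))
      ((Polynomial.map_ne_zero_iff hinj).2 hγ) (Polynomial.map_dvd io hQγ) ?_ hsep m ?_
    · rw [Polynomial.map_mul, map_kc, ← natC]
      exact h1
    · rw [derivative_map, ← Polynomial.map_mul, hxE, Polynomial.map_mul]
    · intro k h0
      have h2 : io (C (s * ((k : ℂ) + 1) - m)) = 0 := by
        rw [← h0]
        simp [map_sub, map_mul]
      have h3 : (C (s * ((k : ℂ) + 1) - m) : ℂ[X]) = 0 := hinj (by rw [h2, map_zero])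
      exact hs m k (C_eq_zero.1 h3)
  obtain ⟨P', R', h1, h2, h3⟩ := hC.red hi hQk (by rw [hnd]; exact hN) hhk hlk hc _
    (PP_La hQ _ _ _) (PP_La hQ _ _ _)
  exact ⟨P', R', _, _, _, h1, h2, h3⟩

/-- the integrability over `ℂ(t)` -/
theorem integ_map {Qp γ hx ht : ℂ[X][X]} (s : ℂ) (hγ : γ ≠ 0)
    (hxE : derivative γ * Qp = γ * hx) (htE : dt γ * Qp = γ * ht) :
    dk ((kc s * hx).map io) * (Qp.map io) - ((kc s * hx).map io) * dk (Qp.map io) =
      derivative ((kc s * ht).map io) * (Qp.map io) -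
        ((kc s * ht).map io) * derivative (Qp.map io) := by
  have h1 := congrArg (Polynomial.map io) (integ s hγ hxE htE)
  rw [Polynomial.map_sub, Polynomial.map_sub] at h1
  rw [dk_map, dk_map, derivative_map, derivative_map]
  simpa only [Polynomial.map_mul] using h1

/-- **The primitive in normal form.** -/
theorem stage1 {Qp γ hx ht P R : ℂ[X][X]} {s : ℂ} {m0 K M : ℕ} (hγ : γ ≠ 0) (hQ : Qp.Monic)
    (hxE : derivative γ * Qp = γ * hx) (htE : dt γ * Qp = γ * ht) (hV : γ ∣ Qp ^ M)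
    (hQγ : Qp ∣ γ) (hN : 0 < Qp.natDegree)
    (hxd : hx.degree < (Qp.natDegree : WithBot ℕ)) (htd : ht.degree < (Qp.natDegree : WithBot ℕ))
    (hsq : ∃ (D0 : ℂ[X]) (α β : ℂ[X][X]), D0 ≠ 0 ∧ C D0 = α * Qp + β * derivative Qp)
    (hs : ∀ K m : ℕ, s * ((m : ℂ) + 1) - K ≠ 0) (he : ∀ n : ℤ, s * m0 ≠ n)
    (hE : (C X ^ m0 * γ) ^ (K + 1) = (C X ^ m0 * γ) * (dt P + derivative R) +
      kc (s - K) * (dt (C X ^ m0 * γ) * P + derivative (C X ^ m0 * γ) * R)) :
    ∃ P' R' : Kt[X], Cl (Qp.map io) ((kc s * hx).map io) ((kc s * ht).map io) (ee (s * m0)) 1 P' R' ∧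
      PP (Qp.map io) 1 P' (C (io (C (s * m0 + 1)⁻¹) * Tk)) ∧ PP (Qp.map io) 1 R' 0 := by
  obtain ⟨P', R', a, p, q, h1, h2, h3⟩ := stage0 hγ hQ hxE htE hV hQγ hN hxd htd hsq hs hE
  exact normal hQ (lt_of_le_of_lt (deg_C_mul _ _) hxd) (lt_of_le_of_lt (deg_C_mul _ _) htd) he
    (integ_map s hγ hxE htE) h1 h2 h3

/-- clearing denominators -/
theorem clear (P : Kt[X]) : ∃ (d : ℂ[X]) (p : ℂ[X][X]), d ≠ 0 ∧ p.map io = C (io d) * P := by
  obtain ⟨d1, hd1, h1⟩ := IsLocalization.integerNormalization_spec (nonZeroDivisors ℂ[X]) P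
  refine ⟨d1, IsLocalization.integerNormalization (nonZeroDivisors ℂ[X]) P,
    nonZeroDivisors.ne_zero hd1, ?_⟩
  rw [h1, ← smul_eq_C_mul, algebraMap_smul]

/-- The primitive with polynomial coefficients. -/
theorem stage2 {Qp hp lp : ℂ[X][X]} {e0 : ℂ} (hQ : Qp.Monic) {P R : Kt[X]}
    (hC : Cl (Qp.map io) (hp.map io) (lp.map io) (ee e0) 1 P R)
    (hP : PP (Qp.map io) 1 P (C (io (C (e0 + 1)⁻¹) * Tk))) (hR : PP (Qp.map io) 1 R 0) :
    ∃ (d : ℂ[X]) (p r q : ℂ[X][X]), d ≠ 0 ∧ p = C (d * C (e0 + 1)⁻¹ * X) * Qp + q ∧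
      q.degree < (Qp.natDegree : WithBot ℕ) ∧ r.degree < (Qp.natDegree : WithBot ℕ) ∧
      C X * C d ^ 2 * Qp ^ 2 = C X * Qp * (C d * dt p - C (derivative d) * p) +
        C d * (C X * lp + kc e0 * Qp - C X * dt Qp) * p + C X * C d * (Qp * derivative r) +
        C X * C d * (hp - derivative Qp) * r := by
  obtain ⟨d1, p1, hd1, hp1⟩ := clear P
  obtain ⟨d2, r1, hd2, hr1⟩ := clear R
  have hnd : (Qp.map io).natDegree = Qp.natDegree := natDegree_map_eq_of_injective io_inj _
  set d : ℂ[X] := d1 * d2 with hd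
  have hd0 : d ≠ 0 := mul_ne_zero hd1 hd2
  have hdk : io d ≠ 0 := fun h0 => hd0 (io_inj (by rw [h0, map_zero]))
  set p : ℂ[X][X] := C d2 * p1 with hpd
  set r : ℂ[X][X] := C d1 * r1 with hrd
  have hp2 : p.map io = C (io d) * P := by
    rw [hpd, Polynomial.map_mul, map_C, hp1, hd, RingHom.map_mul, C_mul]
    ring
  have hr2 : r.map io = C (io d) * R := by
    rw [hrd, Polynomial.map_mul, map_C, hr1, hd, RingHom.map_mul, C_mul]
    ring
  obtain ⟨rr, hrr, hrrd⟩ := hP
  obtain ⟨rs, hrs, hrsd⟩ := hR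
  rw [one_mul, hnd] at hrrd hrsd
  rw [pow_one] at hrr hrs
  rw [zero_mul, zero_add] at hrs
  refine ⟨d, p, r, p - C (d * C (e0 + 1)⁻¹ * X) * Qp, hd0, by ring, ?_, ?_, ?_⟩
  · have h1 : (p - C (d * C (e0 + 1)⁻¹ * X) * Qp).map io = C (io d) * rr := by
      rw [Polynomial.map_sub, hp2, Polynomial.map_mul, map_C, hrr]
      simp only [Tk, RingHom.map_mul]
      ring
    rw [← degree_map_eq_of_injective io_inj, h1]
    exact lt_of_le_of_lt (deg_C_mul _ _) hrrd
  · rw [← degree_map_eq_of_injective io_inj, hr2, hrs]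
    exact lt_of_le_of_lt (deg_C_mul _ _) hrsd
  · apply map_injective io io_inj
    have hP' : P = C (io d)⁻¹ * p.map io := by
      rw [hp2, ← mul_assoc, ← C_mul, inv_mul_cancel₀ hdk, C_1, one_mul]
    have hR' : R = C (io d)⁻¹ * r.map io := by
      rw [hr2, ← mul_assoc, ← C_mul, inv_mul_cancel₀ hdk, C_1, one_mul]
    have i1 : (C (io d)⁻¹ * C (io d) : Kt[X]) = 1 := by rw [← C_mul, inv_mul_cancel₀ hdk, C_1]
    have i2 : (C Tk * C Tk⁻¹ : Kt[X]) = 1 := by rw [← C_mul, mul_inv_cancel₀ Tk_ne, C_1]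
    rw [Cl, hP', hR', dk_mul, dk_C, D_inv hdk, D_io, derivative_C_mul, dk_map, ee, dk_map] at hC
    simp only [Polynomial.map_add, Polynomial.map_sub, Polynomial.map_mul, Polynomial.map_pow,
      map_C, map_kc]
    change C Tk * C (io d) ^ 2 * _ = C Tk * _ * _ + C (io d) * (C Tk * _ + _ - C Tk * _) * _ +
      C Tk * C (io d) * _ + C Tk * C (io d) * _ * _
    rw [derivative_map, derivative_map] at hC
    simp only [C_mul, C_neg, C_pow, Nat.cast_one, one_mul] at hC
    linear_combination (C Tk * C (io d) ^ 2) * hC +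
      (-(C Tk * Qp.map io * C (io (derivative d)) * p.map io * (C (io d)⁻¹ * C (io d) + 1)) +
        C Tk * Qp.map io * C (io d) * (dt p).map io +
        C (io d) * C Tk * (lp.map io - (dt Qp).map io) * p.map io +
        C (io d) * C (io (C e0)) * Qp.map io * p.map io * (C Tk * C Tk⁻¹) +
        C Tk * C (io d) * Qp.map io * (derivative r).map io +
        C Tk * C (io d) * (hp.map io - (derivative Qp).map io) * r.map io) * i1 +
      (C (io d) * C (io (C e0)) * Qp.map io * p.map io) * i2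

end Pool.Agent.H941.TF
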