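import Pool.Agent.H941.TF.Par

set_option autoImplicit false
set_option linter.unusedSectionVars false
set_option linter.unusedVariables false

/-! # The limits of the residues -/

namespace Pool.Agent.H941.TF

open Polynomial Finset Filter Topology Pool.Agent.Helper748.TP

section
variable {N : ℕ} {Qp γ hx ht : ℂ[X][X]} {σ e0 : ℝ} {d : ℂ[X]} {p r q : ℂ[X][X]}

theorem tendsto_u : Tendsto (fun u : ℂ => u) (𝓝[≠] 0) (𝓝 0) :=
  (tendsto_id (x := 𝓝 (0 : ℂ))).mono_left nhdsWithin_le_nhds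

theorem ev_ne : ∀ᶠ u in 𝓝[≠] (0 : ℂ), u ≠ 0 := by
  filter_upwards [self_mem_nhdsWithin] with u hu
  exact hu

/-- the logarithmic derivatives of the differences -/
theorem ordc {a : Fin N → ℂ → ℂ} (ha : ∀ j, AnalyticAt ℂ (a j) 0)
    (hinj : ∀ᶠ u in 𝓝[≠] (0 : ℂ), Function.Injective fun j => a j u) :
    ∃ c : Fin N → Fin N → ℕ, (∀ j i, j ≠ i → Tendsto (fun u => u * ((deriv (a j) u -
      deriv (a i) u) / (a j u - a i u))) (𝓝[≠] 0) (𝓝 (c j i : ℂ))) ∧
      (∀ j i, j ≠ i → a j 0 = a i 0 → c j i ≠ 0) ∧ (∀ j i, j ≠ i → a j 0 ≠ a i 0 → c j i = 0) ∧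
      ∀ j i, c j i = c i j := by
  classical
  have key : ∀ j i : Fin N, ∃ n : ℕ, (j ≠ i → Tendsto (fun u => u * ((deriv (a j) u -
      deriv (a i) u) / (a j u - a i u))) (𝓝[≠] 0) (𝓝 (n : ℂ))) ∧
      (j ≠ i → a j 0 = a i 0 → n ≠ 0) ∧ (j ≠ i → a j 0 ≠ a i 0 → n = 0) ∧ (j = i → n = 0) := by
    intro j i
    by_cases hji : j = i
    · exact ⟨0, fun h => absurd hji h, fun h => absurd hji h, fun h => absurd hji h, fun _ => rfl⟩
    · obtain ⟨n, h1, h2, h3⟩ := ord (f := fun u => a j u - a i u) ((ha j).sub (ha i)) (by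
        filter_upwards [hinj] with u hu h0
        exact hji (hu (sub_eq_zero.1 h0)))
      refine ⟨n, fun _ => ?_, fun _ h => h2 (sub_eq_zero.2 h), fun _ h => h3 (sub_ne_zero.2 h),
        fun h => absurd h hji⟩
      refine h1.congr' ?_
      filter_upwards [((ha j).eventually_analyticAt).filter_mono nhdsWithin_le_nhds,
        ((ha i).eventually_analyticAt).filter_mono nhdsWithin_le_nhds] with u h4 h5
      have h6 : deriv (fun u => a j u - a i u) u = deriv (a j) u - deriv (a i) u :=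
        deriv_fun_sub h4.differentiableAt h5.differentiableAt
      rw [h6]
  choose c h1 h2 h3 h4 using key
  refine ⟨c, h1, h2, h3, fun j i => ?_⟩
  by_cases hji : j = i
  · rw [hji]
  · have h5 := h1 j i hji
    have h6 := h1 i j (Ne.symm hji)
    have h7 : Tendsto (fun u => u * ((deriv (a i) u - deriv (a j) u) / (a i u - a j u)))
        (𝓝[≠] 0) (𝓝 (c j i : ℂ)) := by
      refine h5.congr fun u => ?_
      rw [← neg_sub (deriv (a i) u), ← neg_sub (a i u), neg_div_neg_eq]
    exact_mod_cast tendsto_nhds_unique h7 h6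

/-- near a finite nonzero value -/
theorem lim_fin (D : Data N Qp γ hx ht σ e0 d p r q) (hσ : σ < 0) {M : ℕ} (hγ : γ ∣ Qp ^ M)
    {T : ℂ → ℂ} {a : Fin N → ℂ → ℂ} (P : Par N Qp T a) (hT : AnalyticAt ℂ T 0) (hT0 : T 0 ≠ 0)
    (ha : ∀ j, AnalyticAt ℂ (a j) 0) (hd : ∀ᶠ u in 𝓝[≠] (0 : ℂ), d.eval (T u) ≠ 0) :
    ∃ L : Fin N → ℂ, (∀ j, Tendsto (fun u => yy σ hx d p (T u) (a j u)) (𝓝[≠] 0) (𝓝 (L j))) ∧
      ∀ j i, a j 0 = a i 0 → L j = L i := by
  classical
  have hTne : ∀ᶠ u in 𝓝[≠] (0 : ℂ), T u ≠ 0 :=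
    (hT.continuousAt.eventually_ne hT0).filter_mono nhdsWithin_le_nhds
  obtain ⟨b, hb, hbe, hme, hode⟩ := D.system hσ hγ P (hd.and hTne)
  obtain ⟨c, hc1, hc2, hc3, hc4⟩ := ordc ha P.inj
  have tu := tendsto_u
  have tT : Tendsto T (𝓝[≠] 0) (𝓝 (T 0)) := hT.continuousAt.tendsto.mono_left nhdsWithin_le_nhds
  have tT' : Tendsto (deriv T) (𝓝[≠] 0) (𝓝 (deriv T 0)) :=
    hT.deriv.continuousAt.tendsto.mono_left nhdsWithin_le_nhds
  have ta' : ∀ j, Tendsto (deriv (a j)) (𝓝[≠] 0) (𝓝 (deriv (a j) 0)) := fun j =>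
    (ha j).deriv.continuousAt.tendsto.mono_left nhdsWithin_le_nhds
  obtain ⟨K, r', h1, h2, h3⟩ := loc (z := fun j v => yy σ hx d p (T v) (a j v)) hme
    (E := fun u => u * (deriv T u * (e0 / T u))) (E0 := 0)
    (by
      have h := tu.mul (tT'.mul ((tendsto_const_nhds (x := (e0 : ℂ))).div tT hT0))
      rwa [zero_mul] at h)
    (B := fun j i u => b i * (u * ((deriv (a j) u - deriv (a i) u) / (a j u - a i u))))
    (β := fun j i => ((b i * c j i : ℝ) : ℂ))
    (fun j i hi => by
      have h := (hc1 j i (Ne.symm (Finset.ne_of_mem_erase hi))).const_mul (b i : ℂ)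
      push_cast
      exact h)
    (f := fun j u => u * (deriv (a j) u * (T u * ((e0 : ℂ) + 1)⁻¹))) (φ := fun _ => 0)
    (fun j => by
      have h := tu.mul ((ta' j).mul (tT.mul_const ((e0 : ℂ) + 1)⁻¹))
      rwa [zero_mul] at h)
    (fun j => by
      filter_upwards [hode j] with u hu
      rw [← hu, mul_add, mul_add, Finset.mul_sum]
      congr 1
      · ring
      · exact Finset.sum_congr rfl fun i _ => by ring)
  have h4 := energy hb (c := fun j i => (c j i : ℝ)) (fun j i => Nat.cast_nonneg _)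
    (fun j i => by rw [hc4]) (K := (K : ℝ)) (Nat.cast_nonneg _) (r := r') (fun j => by
      have h := h3 j
      rw [ite_self, add_zero] at h
      push_cast at h ⊢
      exact h)
  have hK : K = 0 := by
    by_contra hK
    have h5 := h4.1 (by exact_mod_cast Nat.pos_of_ne_zero hK)
    rcases h2 with h2 | ⟨j, hj⟩
    · exact hK h2
    · exact hj (by rw [h5]; rfl)
  refine ⟨r', fun j => ?_, fun j i hji => ?_⟩
  · have h := h1 j
    rw [hK] at h
    simpa using h
  · by_cases h : j = i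
    · rw [h]
    · exact h4.2 j i (by exact_mod_cast hc2 j i h hji)

/-- near `0` -/
theorem lim_zero (D : Data N Qp γ hx ht σ e0 d p r q) (hσ : σ < 0) {M : ℕ} (hγ : γ ∣ Qp ^ M)
    (he : ∀ n : ℤ, e0 ≠ n) {a : Fin N → ℂ → ℂ} (P : Par N Qp (fun u => u) a)
    (ha : ∀ j, AnalyticAt ℂ (a j) 0) (hinj : Function.Injective fun j => a j 0)
    (hd : ∀ᶠ u in 𝓝[≠] (0 : ℂ), d.eval u ≠ 0) :
    ∃ L : Fin N → ℂ, ∀ j, Tendsto (fun u => yy σ hx d p u (a j u) / u ^ 2) (𝓝[≠] 0) (𝓝 (L j)) := by
  classical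
  obtain ⟨b, hb, hbe, hme, hode⟩ := D.system hσ hγ P (hd.and ev_ne)
  obtain ⟨c, hc1, hc2, hc3, hc4⟩ := ordc ha P.inj
  have ta' : ∀ j, Tendsto (deriv (a j)) (𝓝[≠] 0) (𝓝 (deriv (a j) 0)) := fun j =>
    (ha j).deriv.continuousAt.tendsto.mono_left nhdsWithin_le_nhds
  have hyan := eventually_all.2 fun j => (hme j).eventually_analyticAt
  obtain ⟨K, r', h1, h2, h3⟩ := loc (z := fun j v => yy σ hx d p v (a j v) / v ^ 2)
    (fun j => (hme j).div (MeromorphicAt.pow (MeromorphicAt.id 0) 2))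
    (E := fun u => 2 + (e0 : ℂ)) (E0 := 2 + (e0 : ℂ)) tendsto_const_nhds
    (B := fun j i u => b i * (u * ((deriv (a j) u - deriv (a i) u) / (a j u - a i u))))
    (β := fun j i => 0)
    (fun j i hi => by
      have hne := Ne.symm (Finset.ne_of_mem_erase hi)
      have h := (hc1 j i hne).const_mul (b i : ℂ)
      rw [hc3 j i hne (fun h => hne (hinj h))] at h
      simpa using h)
    (f := fun j u => deriv (a j) u * ((e0 : ℂ) + 1)⁻¹)
    (φ := fun j => deriv (a j) 0 * ((e0 : ℂ) + 1)⁻¹)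
    (fun j => (ta' j).mul_const _)
    (fun j => by
      filter_upwards [hode j, ev_ne, hyan] with u hu hu0 hya
      have hd1 := (hya j).differentiableAt.hasDerivAt
      have hd2 : HasDerivAt (fun v : ℂ => v ^ 2) (2 * u) u := by
        simpa using hasDerivAt_pow 2 u
      have hd3 := (hd1.fun_div hd2 (pow_ne_zero 2 hu0)).deriv
      have hd4 : deriv (fun v => yy σ hx d p v (a j v) / v ^ 2) u =
        (deriv (fun v => yy σ hx d p v (a j v)) u * u ^ 2 -
          yy σ hx d p u (a j u) * (2 * u)) / (u ^ 2) ^ 2 := hd3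
      have hS : ∑ i ∈ univ.erase j, (b i : ℂ) * (u * ((deriv (a j) u - deriv (a i) u) /
          (a j u - a i u))) * (yy σ hx d p u (a j u) / u ^ 2 - yy σ hx d p u (a i u) / u ^ 2) =
          u⁻¹ * ∑ i ∈ univ.erase j, b i * (yy σ hx d p u (a j u) - yy σ hx d p u (a i u)) *
            ((deriv (a j) u - deriv (a i) u) / (a j u - a i u)) := by
        rw [Finset.mul_sum]
        refine Finset.sum_congr rfl fun i _ => ?_
        rw [← sub_div, pow_two]
        have : ∀ A B C : ℂ, A * (u * B) * (C / (u * u)) = u⁻¹ * (A * C * B) := by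
          intro A B C
          field_simp
        exact this _ _ _
      rw [hS, hd4]
      rw [deriv_id'', one_mul] at hu
      have h5 : ∑ i ∈ univ.erase j, b i * (yy σ hx d p u (a j u) - yy σ hx d p u (a i u)) *
            ((deriv (a j) u - deriv (a i) u) / (a j u - a i u)) =
          deriv (a j) u * (u * ((e0 : ℂ) + 1)⁻¹) - deriv (fun v => yy σ hx d p v (a j v)) u -
            e0 / u * yy σ hx d p u (a j u) := by
        linear_combination hu
      rw [h5]
      field_simp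
      ring)
  have hK : K = 0 := by
    by_contra hK
    rcases h2 with h2 | ⟨j, hj⟩
    · exact hK h2
    · have h := h3 j
      rw [if_neg hK, Finset.sum_eq_zero (fun i _ => zero_mul _), add_zero] at h
      rcases mul_eq_zero.1 h with h | h
      · apply he (K - 2)
        have h6 : (e0 : ℂ) = ((K : ℝ) - 2 : ℝ) := by
          push_cast
          linear_combination h
        have h7 := Complex.ofReal_injective h6
        rw [h7]
        push_cast
        rfl
      · exact hj h
  refine ⟨r', fun j => ?_⟩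
  have h := h1 j
  rw [hK] at h
  simpa using h

/-- the sum of the residues of the logarithmic form -/
theorem sum_b {T : ℂ → ℂ} {a : Fin N → ℂ → ℂ} (P : Par N Qp T a)
    (hxd : hx.degree < (N : WithBot ℕ)) {δ : ℕ}
    (hlc : hx.coeff (N - 1) = C (δ : ℂ)) {b : Fin N → ℝ}
    (hbe : ∀ᶠ u in 𝓝[≠] (0 : ℂ), ∀ j, ev2 (kc σ * hx) (T u) (a j u) =
        b j * ev2 (derivative Qp) (T u) (a j u)) : ∑ j, b j = σ * δ := by
  obtain ⟨u, h1, h2, h3⟩ := (P.root.and (P.inj.and hbe)).exists
  have h4 := lag_lead h2 (r := evt (T u) (kc σ * hx))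
    (evt_deg (lt_of_le_of_lt (degC_mul _ _) hxd) _)
  have h5 : (evt (T u) (kc σ * hx)).coeff (N - 1) = σ * δ := by
    rw [evt, coe_mapRingHom, coeff_map, kc, coeff_C_mul, hlc]
    simp
  have h6 : ∀ j, (evt (T u) (kc σ * hx)).eval (a j u) /
      (derivative (nod fun j => a j u)).eval (a j u) = b j := by
    intro j
    have h7 := der_nod_ne h2 j
    rw [div_eq_iff h7]
    have h8 := h3 j
    rw [ev2, ev2, evt_der, h1] at h8
    exact h8
  rw [h5] at h4
  have h9 : (∑ j, (b j : ℂ)) = σ * δ := by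
    rw [h4]
    exact Finset.sum_congr rfl fun j _ => (h6 j).symm
  exact_mod_cast h9

/-- near infinity -/
theorem lim_inf (D : Data N Qp γ hx ht σ e0 d p r q) (hσ : σ < 0) {M : ℕ} (hγ : γ ∣ Qp ^ M)
    (he : ∀ n : ℤ, e0 ≠ n) {X : Fin N → ℂ → ℂ}
    (P : Par N Qp (fun u => u⁻¹) (fun j u => X j u / u))
    (hX : ∀ j, AnalyticAt ℂ (X j) 0) (hinj : Function.Injective fun j => X j 0)
    (hd : ∀ᶠ u in 𝓝[≠] (0 : ℂ), d.eval u⁻¹ ≠ 0) {δ : ℕ}
    (hlc : hx.coeff (N - 1) = C (δ : ℂ)) {e1 : ℝ} (he1 : e1 < 0) (hsum : e0 + e1 + σ * δ = -3) :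
    ∃ L : Fin N → ℂ, Function.Injective L ∧ ∀ j,
      Tendsto (fun u => u ^ 2 * yy σ hx d p u⁻¹ (X j u / u)) (𝓝[≠] 0) (𝓝 (L j)) := by
  classical
  obtain ⟨b, hb, hbe, hme, hode⟩ := D.system hσ hγ P (hd.and (ev_ne.mono fun u hu =>
    inv_ne_zero hu))
  have hsb := sum_b P D.hxd hlc hbe
  have hXinj : ∀ᶠ u in 𝓝[≠] (0 : ℂ), Function.Injective fun j => X j u := by
    filter_upwards [P.inj] with u hu j i hji
    exact hu (by
      have h : X j u = X i u := hji
      change X j u / u = X i u / u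
      rw [h])
  obtain ⟨c, hc1, hc2, hc3, hc4⟩ := ordc hX hXinj
  have tX : ∀ j, Tendsto (X j) (𝓝[≠] 0) (𝓝 (X j 0)) := fun j =>
    (hX j).continuousAt.tendsto.mono_left nhdsWithin_le_nhds
  have tX' : ∀ j, Tendsto (deriv (X j)) (𝓝[≠] 0) (𝓝 (deriv (X j) 0)) := fun j =>
    (hX j).deriv.continuousAt.tendsto.mono_left nhdsWithin_le_nhds
  have hyan := eventually_all.2 fun j => (hme j).eventually_analyticAt
  have hXan := eventually_all.2 fun j => ((hX j).eventually_analyticAt).filter_mono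
    (nhdsWithin_le_nhds (s := {0}ᶜ))
  have hdX : ∀ᶠ u in 𝓝[≠] (0 : ℂ), ∀ j, deriv (fun v => X j v / v) u =
      (deriv (X j) u * u - X j u) / u ^ 2 := by
    filter_upwards [hXan, ev_ne] with u hu hu0 j
    have h1 := ((hu j).differentiableAt.hasDerivAt.fun_div (hasDerivAt_id' u) hu0).deriv
    rw [h1, mul_one]
  obtain ⟨K, r', h1, h2, h3⟩ := loc (z := fun j v => v ^ 2 * yy σ hx d p v⁻¹ (X j v / v))
    (fun j => (MeromorphicAt.pow (MeromorphicAt.id 0) 2).mul (hme j))
    (E := fun u => -(2 + (e0 : ℂ))) (E0 := -(2 + (e0 : ℂ))) tendsto_const_nhds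
    (B := fun j i u => b i * (u * ((deriv (X j) u - deriv (X i) u) / (X j u - X i u)) - 1))
    (β := fun j i => -(b i : ℂ))
    (fun j i hi => by
      have hne := Ne.symm (Finset.ne_of_mem_erase hi)
      have h := (hc1 j i hne)
      rw [hc3 j i hne (fun h => hne (hinj h))] at h
      have h' := (h.sub_const 1).const_mul (b i : ℂ)
      simpa using h')
    (f := fun j u => (deriv (X j) u * u - X j u) * ((e0 : ℂ) + 1)⁻¹)
    (φ := fun j => -(X j 0) * ((e0 : ℂ) + 1)⁻¹)
    (fun j => by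
      have h := (((tX' j).mul tendsto_u).sub (tX j)).mul_const ((e0 : ℂ) + 1)⁻¹
      rwa [mul_zero, zero_sub] at h)
    (fun j => by
      filter_upwards [hode j, ev_ne, hyan, hdX, hXinj] with u hu hu0 hya hdu hXi
      have hd1 := (hya j).differentiableAt.hasDerivAt
      have hd2 : HasDerivAt (fun v : ℂ => v ^ 2) (2 * u) u := by
        simpa using hasDerivAt_pow 2 u
      have hd4 : deriv (fun v => v ^ 2 * yy σ hx d p v⁻¹ (X j v / v)) u =
        2 * u * yy σ hx d p u⁻¹ (X j u / u) +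
          u ^ 2 * deriv (fun v => yy σ hx d p v⁻¹ (X j v / v)) u := (hd2.fun_mul hd1).deriv
      have hS : ∑ i ∈ univ.erase j, (b i : ℂ) * (u * ((deriv (X j) u - deriv (X i) u) /
          (X j u - X i u)) - 1) * (u ^ 2 * yy σ hx d p u⁻¹ (X j u / u) -
            u ^ 2 * yy σ hx d p u⁻¹ (X i u / u)) =
          u ^ 3 * ∑ i ∈ univ.erase j, b i * (yy σ hx d p u⁻¹ (X j u / u) -
            yy σ hx d p u⁻¹ (X i u / u)) *
            ((deriv (fun v => X j v / v) u - deriv (fun v => X i v / v) u) /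
              (X j u / u - X i u / u)) := by
        rw [Finset.mul_sum]
        refine Finset.sum_congr rfl fun i hi => ?_
        have hne := Ne.symm (Finset.ne_of_mem_erase hi)
        have h5 : X j u - X i u ≠ 0 := sub_ne_zero.2 fun h => hne (hXi h)
        rw [hdu j, hdu i, ← sub_div, ← sub_div]
        have h6 : ∀ b' y1 y2 A B C D' : ℂ, A - B ≠ 0 → b' * (u * ((C - D') / (A - B)) - 1) *
            (u ^ 2 * y1 - u ^ 2 * y2) = u ^ 3 * (b' * (y1 - y2) *
              (((C * u - A - (D' * u - B)) / u ^ 2) / ((A - B) / u))) := by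
          intro b' y1 y2 A B C D' hAB
          field_simp
          ring
        exact h6 _ _ _ _ _ _ _ h5
      rw [hS, hd4]
      have hdi : deriv (fun v : ℂ => v⁻¹) u = -(u ^ 2)⁻¹ := by
        rw [deriv_inv]
      rw [hdi] at hu
      have h5 : ∑ i ∈ univ.erase j, b i * (yy σ hx d p u⁻¹ (X j u / u) -
            yy σ hx d p u⁻¹ (X i u / u)) *
            ((deriv (fun v => X j v / v) u - deriv (fun v => X i v / v) u) /
              (X j u / u - X i u / u)) =
          deriv (fun v => X j v / v) u * (u⁻¹ * ((e0 : ℂ) + 1)⁻¹) -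
            deriv (fun v => yy σ hx d p v⁻¹ (X j v / v)) u -
            -(u ^ 2)⁻¹ * (e0 / u⁻¹) * yy σ hx d p u⁻¹ (X j u / u) := by
        linear_combination hu
      rw [h5, hdu j]
      field_simp
      ring)
  have hbc : (∑ j, (b j : ℂ)) = -3 - e0 - e1 := by
    have h : (∑ j, b j) = -3 - e0 - e1 := by linarith
    exact_mod_cast h
  -- the equations for the leading coefficients
  have h4 : ∀ j, (-(K : ℂ) + 1 + e1) * r' j + ∑ i, b i * r' i =
      if K = 0 then -(X j 0) * ((e0 : ℂ) + 1)⁻¹ else 0 := by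
    intro j
    rw [← h3 j]
    have h5 : ∑ i ∈ univ.erase j, -(b i : ℂ) * (r' j - r' i) =
        -(∑ i, (b i : ℂ)) * r' j + ∑ i, b i * r' i := by
      have h6 : ∑ i ∈ univ.erase j, -(b i : ℂ) * (r' j - r' i) =
          ∑ i, -(b i : ℂ) * (r' j - r' i) := by
        rw [← Finset.add_sum_erase univ _ (mem_univ j), sub_self, mul_zero, zero_add]
      rw [h6, ← Finset.sum_neg_distrib, Finset.sum_mul, ← Finset.sum_add_distrib]
      exact Finset.sum_congr rfl fun i _ => by ring
    rw [h5, hbc]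
    ring
  have hK : K = 0 := by
    by_contra hK
    have h5 : ∀ j, (-(K : ℂ) + 1 + e1) * r' j + ∑ i, b i * r' i = 0 := by
      intro j
      rw [h4 j, if_neg hK]
    have h6 : (-(K : ℂ) - 2 - e0) * ∑ i, b i * r' i = 0 := by
      have h7 : ∑ j, (b j : ℂ) * ((-(K : ℂ) + 1 + e1) * r' j + ∑ i, b i * r' i) = 0 :=
        Finset.sum_eq_zero fun j _ => by rw [h5 j, mul_zero]
      rw [Finset.sum_congr rfl fun j _ => mul_add _ _ _, Finset.sum_add_distrib,
        ← Finset.sum_mul, hbc] at h7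
      have h8 : ∑ j, (b j : ℂ) * ((-(K : ℂ) + 1 + e1) * r' j) =
          (-(K : ℂ) + 1 + e1) * ∑ i, b i * r' i := by
        rw [Finset.mul_sum]
        exact Finset.sum_congr rfl fun j _ => by ring
      rw [h8] at h7
      linear_combination h7
    have h7 : ∑ i, (b i : ℂ) * r' i = 0 := by
      rcases mul_eq_zero.1 h6 with h | h
      · exfalso
        apply he (-K - 2)
        have h8 : (e0 : ℂ) = (-(K : ℝ) - 2 : ℝ) := by
          push_cast
          linear_combination -h
        have h9 := Complex.ofReal_injective h8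
        rw [h9]
        push_cast
        rfl
      · exact h
    rcases h2 with h2 | ⟨j, hj⟩
    · exact hK h2
    · have h8 := h5 j
      rw [h7, add_zero] at h8
      rcases mul_eq_zero.1 h8 with h | h
      · have h9 : ((-(K : ℝ) + 1 + e1 : ℝ) : ℂ) = 0 := by
          push_cast
          exact h
        have h10 : (-(K : ℝ) + 1 + e1 : ℝ) = 0 := by exact_mod_cast h9
        have h11 : (1 : ℝ) ≤ K := by exact_mod_cast Nat.one_le_iff_ne_zero.2 hK
        linarith
      · exact hj h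
  refine ⟨r', fun j i hji => ?_, fun j => ?_⟩
  · by_contra hne
    have hji' : r' j = r' i := hji
    have h5 := h4 j
    have h6 := h4 i
    rw [if_pos hK] at h5 h6
    rw [hji', h6] at h5
    have h7 : ((e0 : ℂ) + 1) ≠ 0 := by
      intro h
      apply he (-1)
      have h8 : (e0 : ℂ) = (-1 : ℝ) := by
        push_cast
        linear_combination h
      have h9 := Complex.ofReal_injective h8
      rw [h9]
      push_cast
      rfl
    have h8 := mul_right_cancel₀ (inv_ne_zero h7) h5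
    exact hne (hinj (show X j 0 = X i 0 by linear_combination h8))
  · have h := h1 j
    rw [hK] at h
    simpa using h

end

end Pool.Agent.H941.TF
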