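import Pool.Graph.R_pool_sql_team_seeded_620a6dc7.helper748_tp_.T3
import Pool.Graph.R_pool_sql_team_seeded_620a6dc7.helper748_tp_.TC

set_option autoImplicit false
set_option linter.unusedSectionVars false
set_option linter.unusedVariables false

/-! # The derivation of `ℂ(t)` and of `ℂ(t)[x]` -/

namespace Pool.Agent.H941.TF

open Polynomial

/-- the field `ℂ(t)` -/
abbrev Kt := FractionRing ℂ[X]

/-- the embedding of `ℂ[t]` -/
noncomputable abbrev io : ℂ[X] →+* Kt := algebraMap ℂ[X] Kt

theorem io_inj : Function.Injective io := IsFractionRing.injective ℂ[X] Kt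

theorem dual_ext {x y : TrivSqZeroExt Kt Kt} (h1 : x.fst = y.fst) (h2 : x.snd = y.snd) : x = y :=
  TrivSqZeroExt.ext h1 h2

noncomputable def dualHom : ℂ[X] →+* TrivSqZeroExt Kt Kt where
  toFun p := TrivSqZeroExt.inl (io p) + TrivSqZeroExt.inr (io (derivative p))
  map_one' := by
    refine dual_ext ?_ ?_
    · rw [TrivSqZeroExt.fst_add, TrivSqZeroExt.fst_inl, TrivSqZeroExt.fst_inr,
        TrivSqZeroExt.fst_one, map_one, add_zero]
    · rw [TrivSqZeroExt.snd_add, TrivSqZeroExt.snd_inl, TrivSqZeroExt.snd_inr,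
        TrivSqZeroExt.snd_one, derivative_one, map_zero, add_zero]
  map_mul' p q := by
    refine dual_ext ?_ ?_
    · simp only [TrivSqZeroExt.fst_add, TrivSqZeroExt.fst_inl, TrivSqZeroExt.fst_inr,
        TrivSqZeroExt.fst_mul, map_mul, add_zero]
    · simp only [TrivSqZeroExt.snd_add, TrivSqZeroExt.snd_inl, TrivSqZeroExt.snd_inr,
        TrivSqZeroExt.snd_mul, TrivSqZeroExt.fst_add, TrivSqZeroExt.fst_inl,
        TrivSqZeroExt.fst_inr, derivative_mul, map_add, map_mul, add_zero, zero_add, smul_eq_mul,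
        MulOpposite.smul_eq_mul_unop, MulOpposite.unop_op]
      ring
  map_zero' := by
    refine dual_ext ?_ ?_
    · simp only [TrivSqZeroExt.fst_add, TrivSqZeroExt.fst_inl, TrivSqZeroExt.fst_inr,
        TrivSqZeroExt.fst_zero, map_zero, add_zero]
    · simp only [TrivSqZeroExt.snd_add, TrivSqZeroExt.snd_inl, TrivSqZeroExt.snd_inr,
        TrivSqZeroExt.snd_zero, derivative_zero, map_zero, add_zero]
  map_add' p q := by
    refine dual_ext ?_ ?_
    · simp only [TrivSqZeroExt.fst_add, TrivSqZeroExt.fst_inl, TrivSqZeroExt.fst_inr,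
        map_add, add_zero]
    · simp only [TrivSqZeroExt.snd_add, TrivSqZeroExt.snd_inl, TrivSqZeroExt.snd_inr,
        derivative_add, map_add, zero_add]

theorem fst_dualHom (p : ℂ[X]) : (dualHom p).fst = io p := by
  change (TrivSqZeroExt.inl (io p) + TrivSqZeroExt.inr (io (derivative p))).fst = io p
  rw [TrivSqZeroExt.fst_add, TrivSqZeroExt.fst_inl, TrivSqZeroExt.fst_inr, add_zero]

theorem snd_dualHom (p : ℂ[X]) : (dualHom p).snd = io (derivative p) := by
  change (TrivSqZeroExt.inl (io p) + TrivSqZeroExt.inr (io (derivative p))).snd = _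
  rw [TrivSqZeroExt.snd_add, TrivSqZeroExt.snd_inl, TrivSqZeroExt.snd_inr, zero_add]

theorem dualHom_unit (y : nonZeroDivisors ℂ[X]) : IsUnit (dualHom (y : ℂ[X])) := by
  rw [TrivSqZeroExt.isUnit_iff_isUnit_fst, fst_dualHom]
  exact IsLocalization.map_units Kt y

noncomputable def dualLift : Kt →+* TrivSqZeroExt Kt Kt :=
  IsLocalization.lift (M := nonZeroDivisors ℂ[X]) dualHom_unit

theorem dualLift_io (p : ℂ[X]) : dualLift (io p) = dualHom p :=
  IsLocalization.lift_eq _ p

/-- the first component -/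
noncomputable def fstH : TrivSqZeroExt Kt Kt →+* Kt where
  toFun x := x.fst
  map_one' := TrivSqZeroExt.fst_one
  map_mul' := TrivSqZeroExt.fst_mul
  map_zero' := TrivSqZeroExt.fst_zero
  map_add' := TrivSqZeroExt.fst_add

theorem fst_dualLift (a : Kt) : (dualLift a).fst = a := by
  have h : fstH.comp dualLift = RingHom.id Kt := by
    refine IsLocalization.ringHom_ext (nonZeroDivisors ℂ[X]) ?_
    refine RingHom.ext fun p => ?_
    change (dualLift (io p)).fst = io p
    rw [dualLift_io, fst_dualHom]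
  exact congrArg (fun f : Kt →+* Kt => f a) h

/-- the derivation of `ℂ(t)` -/
noncomputable def D (a : Kt) : Kt := (dualLift a).snd

theorem D_add (a b : Kt) : D (a + b) = D a + D b := by
  rw [D, map_add, TrivSqZeroExt.snd_add]; rfl

theorem D_mul (a b : Kt) : D (a * b) = D a * b + a * D b := by
  rw [D, map_mul, TrivSqZeroExt.snd_mul, fst_dualLift, fst_dualLift]
  simp only [D, smul_eq_mul, MulOpposite.smul_eq_mul_unop, MulOpposite.unop_op]
  ring

theorem D_io (p : ℂ[X]) : D (io p) = io (derivative p) := by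
  rw [D, dualLift_io, snd_dualHom]

theorem D_zero : D 0 = 0 := by
  have := D_io 0
  rwa [derivative_zero, map_zero] at this

theorem D_one : D 1 = 0 := by
  have := D_io 1
  rwa [derivative_one, map_one, map_zero] at this

theorem D_neg (a : Kt) : D (-a) = -D a := by
  have := D_add a (-a)
  rw [add_neg_cancel, D_zero] at this
  linear_combination -this

theorem D_sub (a b : Kt) : D (a - b) = D a - D b := by
  rw [sub_eq_add_neg, D_add, D_neg]; ring

/-- `b D(a/b) = …` -/
theorem D_inv {a : Kt} (ha : a ≠ 0) : D a⁻¹ = -(D a * a⁻¹ ^ 2) := by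
  have h := D_mul a a⁻¹
  rw [mul_inv_cancel₀ ha, D_one] at h
  have h2 : a * D a⁻¹ = -(D a * a⁻¹) := by linear_combination -h
  have h3 : a⁻¹ * (a * D a⁻¹) = D a⁻¹ := by rw [← mul_assoc, inv_mul_cancel₀ ha, one_mul]
  rw [← h3, h2]
  ring

/-- the derivation with respect to `t` of the coefficients of a polynomial in `x` -/
noncomputable def dk (p : Kt[X]) : Kt[X] := p.sum fun n a => monomial n (D a)

theorem coeff_dk (p : Kt[X]) (n : ℕ) : (dk p).coeff n = D (p.coeff n) := by
  rw [dk, Polynomial.sum, finsetSum_coeff]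
  simp only [coeff_monomial]
  rw [Finset.sum_ite_eq']
  split_ifs with h
  · rfl
  · rw [notMem_support_iff.1 h, D_zero]

theorem dk_add (p q : Kt[X]) : dk (p + q) = dk p + dk q := by
  ext1 n
  simp only [coeff_dk, coeff_add, D_add]

theorem dk_sub (p q : Kt[X]) : dk (p - q) = dk p - dk q := by
  ext1 n
  simp only [coeff_dk, coeff_sub, D_sub]

theorem dk_C (a : Kt) : dk (C a) = C (D a) := by
  ext1 n
  rw [coeff_dk, coeff_C, coeff_C]
  split_ifs
  · rfl
  · rw [D_zero]

theorem D_sum {ι : Type} (s : Finset ι) (f : ι → Kt) : D (∑ i ∈ s, f i) = ∑ i ∈ s, D (f i) := by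
  classical
  induction s using Finset.induction_on with
  | empty => simp [D_zero]
  | insert i s hi ih => rw [Finset.sum_insert hi, Finset.sum_insert hi, D_add, ih]

theorem dk_mul (p q : Kt[X]) : dk (p * q) = dk p * q + p * dk q := by
  ext1 n
  rw [coeff_dk, coeff_add, coeff_mul, coeff_mul, coeff_mul, D_sum,
    ← Finset.sum_add_distrib]
  refine Finset.sum_congr rfl fun x _ => ?_
  rw [D_mul, coeff_dk, coeff_dk]

theorem dk_one : dk 1 = 0 := by
  rw [← C_1, dk_C, D_one, C_0]

theorem dk_natCast (n : ℕ) : dk (n : Kt[X]) = 0 := by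
  induction n with
  | zero => rw [Nat.cast_zero, ← C_0, dk_C, D_zero]
  | succ n ih => rw [Nat.cast_succ, dk_add, ih, dk_one, add_zero]

theorem dk_der (p : Kt[X]) : dk (derivative p) = derivative (dk p) := by
  ext1 n
  rw [coeff_dk, coeff_derivative, coeff_derivative, coeff_dk, D_mul]
  have : D ((n : Kt) + 1) = 0 := by
    have h : ((n : Kt) + 1) = io ((n : ℂ[X]) + 1) := by simp
    rw [h, D_io, derivative_add, derivative_natCast, derivative_one, add_zero, map_zero]
  rw [this, mul_zero, add_zero]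

theorem dk_map (p : ℂ[X][X]) :
    dk (p.map io) = (Pool.Agent.Helper748.TP.dt p).map io := by
  ext1 n
  rw [coeff_dk, coeff_map, coeff_map, Pool.Agent.Helper748.TP.coeff_dt, D_io]

theorem natDegree_dk_le (p : Kt[X]) : (dk p).natDegree ≤ p.natDegree := by
  rw [natDegree_le_iff_coeff_eq_zero]
  intro N hN
  rw [coeff_dk, coeff_eq_zero_of_natDegree_lt hN, D_zero]

end Pool.Agent.H941.TF
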