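import Pool.Agent.H941.TF.Lim
import Pool.Graph.R_pool_sql_team_seeded_b3bd081e.H734R3.Fib.Puiseux

set_option autoImplicit false
set_option linter.unusedSectionVars false
set_option linter.unusedVariables false

/-! # Parametrizations of the roots and products over pairs of roots -/

namespace Pool.Agent.H941.TF

open Polynomial Finset Filter Topology Metric Pool.Agent.Helper748.TP

/-- an analytic function outside a finite set, with limits at the exceptional points and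
at infinity, is constant -/
theorem liou {F : ℂ → ℂ} {B : Finset ℂ} (hF : ∀ t ∉ B, DifferentiableAt ℂ F t)
    (hB : ∀ t ∈ B, ∃ l, Tendsto F (𝓝[≠] t) (𝓝 l)) {L : ℂ} (hL : Tendsto F (cocompact ℂ) (𝓝 L)) :
    (∀ t ∉ B, F t = L) ∧ ∀ t ∈ B, Tendsto F (𝓝[≠] t) (𝓝 L) := by
  classical
  have hl : ∀ t, ∃ l, t ∈ B → Tendsto F (𝓝[≠] t) (𝓝 l) := by
    intro t
    by_cases ht : t ∈ B
    · obtain ⟨l, hl⟩ := hB t ht
      exact ⟨l, fun _ => hl⟩
    · exact ⟨0, fun h => absurd h ht⟩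
  choose l hl using hl
  set G : ℂ → ℂ := fun t => if t ∈ B then l t else F t with hG
  have hGF : ∀ t ∉ B, G =ᶠ[𝓝 t] F := by
    intro t ht
    have h1 : (B : Set ℂ)ᶜ ∈ 𝓝 t := B.finite_toSet.isClosed.isOpen_compl.mem_nhds (by simpa using ht)
    filter_upwards [h1] with v hv
    have hv' : v ∉ B := by simpa using hv
    simp only [hG, if_neg hv']
  have hGF' : ∀ t, G =ᶠ[𝓝[≠] t] F := by
    intro t
    have h0 : ((B.erase t : Finset ℂ) : Set ℂ)ᶜ ∈ 𝓝 t :=
      (B.erase t).finite_toSet.isClosed.isOpen_compl.mem_nhds (by simp)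
    filter_upwards [mem_nhdsWithin_of_mem_nhds h0, self_mem_nhdsWithin] with v hv hvt
    have hv' : v ∉ B := by
      intro h
      apply hv
      have hvt' : v ≠ t := hvt
      simp [h, hvt']
    simp only [hG, if_neg hv']
  have hGd : Differentiable ℂ G := by
    intro t
    by_cases ht : t ∈ B
    · refine (Complex.analyticAt_of_differentiable_on_punctured_nhds_of_continuousAt ?_ ?_).differentiableAt
      · have h0 : ((B.erase t : Finset ℂ) : Set ℂ)ᶜ ∈ 𝓝 t :=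
          (B.erase t).finite_toSet.isClosed.isOpen_compl.mem_nhds (by simp)
        filter_upwards [mem_nhdsWithin_of_mem_nhds h0, self_mem_nhdsWithin] with v hv hvt
        have hv' : v ∉ B := by
          intro h
          apply hv
          have hvt' : v ≠ t := hvt
          simp [h, hvt']
        exact (hF v hv').congr_of_eventuallyEq (hGF v hv')
      · rw [← continuousWithinAt_compl_self]
        have h1 : G t = l t := by simp only [hG, if_pos ht]
        rw [ContinuousWithinAt, h1]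
        exact (hl t ht).congr' (hGF' t).symm
    · exact (hF t ht).congr_of_eventuallyEq (hGF t ht)
  have hGL : Tendsto G (cocompact ℂ) (𝓝 L) := by
    refine hL.congr' ?_
    filter_upwards [B.finite_toSet.isCompact.compl_mem_cocompact] with v hv
    have hv' : v ∉ B := by simpa using hv
    simp only [hG, if_neg hv']
  have hc := hGd.eq_const_of_tendsto_cocompact hGL
  constructor
  · intro t ht
    have h1 := congrFun hc t
    simp only [hG, if_neg ht, Function.const_apply] at h1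
    exact h1
  · intro t ht
    refine Tendsto.congr' (hGF' t) ?_
    rw [hc]
    exact tendsto_const_nhds

/-- a power substitution -/
theorem lim_pow {F : ℂ → ℂ} {t₀ l : ℂ} {M : ℕ} (hM : 0 < M)
    (h : Tendsto (fun u : ℂ => F (t₀ + u ^ M)) (𝓝[≠] 0) (𝓝 l)) : Tendsto F (𝓝[≠] t₀) (𝓝 l) := by
  rw [Metric.tendsto_nhdsWithin_nhds] at h ⊢
  intro ε hε
  obtain ⟨ρ, hρ, h1⟩ := h ε hε
  refine ⟨ρ ^ M, pow_pos hρ M, fun {t} ht htd => ?_⟩
  obtain ⟨u, hu⟩ := IsAlgClosed.exists_pow_nat_eq (t - t₀) hM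
  have ht0 : t - t₀ ≠ 0 := sub_ne_zero.2 ht
  have hu0 : u ≠ 0 := by
    rintro rfl
    rw [zero_pow hM.ne'] at hu
    exact ht0 hu.symm
  have h2 := h1 (x := u) hu0 (by
    rw [dist_zero_right]
    refine lt_of_pow_lt_pow_left₀ M hρ.le ?_
    rw [← norm_pow, hu, ← dist_eq_norm]
    exact htd)
  rwa [hu, add_sub_cancel] at h2

/-- inversion -/
theorem lim_inv {F : ℂ → ℂ} {l : ℂ} (h : Tendsto (fun u : ℂ => F u⁻¹) (𝓝[≠] 0) (𝓝 l)) :
    Tendsto F (cocompact ℂ) (𝓝 l) := by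
  rw [← Metric.cobounded_eq_cocompact]
  have h1 := h.comp (tendsto_inv₀_cobounded' (α := ℂ))
  refine h1.congr fun t => ?_
  simp

section
variable {N : ℕ}

/-- a monic polynomial with distinct roots -/
theorem eq_nod {P : ℂ[X]} (hP : P.Monic) (hN : P.natDegree = N) {a : Fin N → ℂ}
    (ha : Function.Injective a) (h0 : ∀ j, P.eval (a j) = 0) : P = nod a := by
  have h1 : (nod a).Monic := monic_prod_of_monic _ _ fun j _ => monic_X_sub_C _
  have h2 : (nod a).natDegree = N := by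
    rw [nod, natDegree_prod_of_monic _ _ fun j _ => monic_X_sub_C _]
    simp
  have h3 : nod a ∣ P := by
    refine Finset.prod_dvd_of_coprime ?_ fun j _ => dvd_iff_isRoot.2 (h0 j)
    intro i _ j _ hij
    exact isCoprime_X_sub_C_of_isUnit_sub (sub_ne_zero.2 fun h => hij (ha h)).isUnit
  exact (eq_of_monic_of_dvd_of_natDegree_le h1 hP h3 (by rw [h2, hN]))

theorem natDegree_evt {Q : ℂ[X][X]} (hQ : Q.Monic) (t : ℂ) :
    (evt t Q).natDegree = Q.natDegree := by
  rw [evt, coe_mapRingHom, hQ.natDegree_map]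

theorem evt_monic {Q : ℂ[X][X]} (hQ : Q.Monic) (t : ℂ) : (evt t Q).Monic := by
  rw [evt, coe_mapRingHom]
  exact hQ.map _

theorem coeff_evt (Q : ℂ[X][X]) (t : ℂ) (i : ℕ) : (evt t Q).coeff i = (Q.coeff i).eval t := by
  rw [evt, coe_mapRingHom, coeff_map, coe_evalRingHom]

/-- the product over the pairs of roots -/
noncomputable def Dl (Q : ℂ[X][X]) (v : ℂ → ℂ → ℂ) (t : ℂ) : ℂ :=
  ∏ z ∈ (evt t Q).roots.toFinset.offDiag, (v t z.1 - v t z.2)

theorem roots_nod (a : Fin N → ℂ) : (nod a).roots.toFinset = univ.image a := by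
  classical
  ext x
  have h1 : nod a ≠ 0 := (monic_prod_of_monic _ _ fun j _ => monic_X_sub_C _).ne_zero
  rw [Multiset.mem_toFinset, mem_roots h1, IsRoot, nod, eval_prod, Finset.prod_eq_zero_iff, Finset.mem_image]
  simp only [Finset.mem_univ, true_and, eval_sub, eval_X, eval_C, sub_eq_zero]
  exact ⟨fun ⟨j, h⟩ => ⟨j, h.symm⟩, fun ⟨j, h⟩ => ⟨j, h.symm⟩⟩

theorem Dl_eq {Q : ℂ[X][X]} {v : ℂ → ℂ → ℂ} {t : ℂ} {a : Fin N → ℂ} (hr : evt t Q = nod a)
    (ha : Function.Injective a) :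
    Dl Q v t = ∏ z ∈ (univ : Finset (Fin N)).offDiag, (v t (a z.1) - v t (a z.2)) := by
  classical
  rw [Dl, hr, roots_nod]
  symm
  refine Finset.prod_bij (fun z _ => (a z.1, a z.2)) ?_ ?_ ?_ ?_
  · intro z hz
    rw [Finset.mem_offDiag] at hz ⊢
    exact ⟨Finset.mem_image_of_mem _ (mem_univ _), Finset.mem_image_of_mem _ (mem_univ _),
      fun h => hz.2.2 (ha h)⟩
  · intro z _ z' _ h
    rw [Prod.mk.injEq] at h
    exact Prod.ext (ha h.1) (ha h.2)
  · rintro ⟨x, y⟩ hz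
    rw [Finset.mem_offDiag, Finset.mem_image, Finset.mem_image] at hz
    obtain ⟨⟨i, _, hi⟩, ⟨j, _, hj⟩, hne⟩ := hz
    refine ⟨(i, j), ?_, ?_⟩
    · rw [Finset.mem_offDiag]
      refine ⟨mem_univ _, mem_univ _, fun h => hne ?_⟩
      have h' : i = j := h
      dsimp only at hi hj ⊢
      rw [← hi, ← hj, h']
    · dsimp only at hi hj ⊢
      rw [hi, hj]
  · intro z _
    rfl

theorem Dl_lim {Q : ℂ[X][X]} {v : ℂ → ℂ → ℂ} {T : ℂ → ℂ} {a : Fin N → ℂ → ℂ} {f : Filter ℂ}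
    (h : ∀ᶠ u in f, evt (T u) Q = nod fun j => a j u)
    (hi : ∀ᶠ u in f, Function.Injective fun j => a j u) {L : Fin N → ℂ}
    (hL : ∀ j, Tendsto (fun u => v (T u) (a j u)) f (𝓝 (L j))) :
    Tendsto (fun u => Dl Q v (T u)) f (𝓝 (∏ z ∈ (univ : Finset (Fin N)).offDiag,
      (L z.1 - L z.2))) := by
  have h1 : (fun u => ∏ z ∈ (univ : Finset (Fin N)).offDiag, (v (T u) (a z.1 u) - v (T u) (a z.2 u)))
      =ᶠ[f] fun u => Dl Q v (T u) := by
    filter_upwards [h, hi] with u hu hiu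
    exact (Dl_eq hu hiu).symm
  refine Tendsto.congr' h1 ?_
  exact tendsto_finsetProd _ fun z _ => (hL z.1).sub (hL z.2)

theorem Dl_diff {Q : ℂ[X][X]} {v : ℂ → ℂ → ℂ} {a : Fin N → ℂ → ℂ} {t : ℂ}
    (h : ∀ᶠ u in 𝓝 t, evt u Q = nod fun j => a j u)
    (hi : ∀ᶠ u in 𝓝 t, Function.Injective fun j => a j u)
    (hv : ∀ j, DifferentiableAt ℂ (fun u => v u (a j u)) t) : DifferentiableAt ℂ (Dl Q v) t := by
  have h1 : Dl Q v =ᶠ[𝓝 t] fun u => ∏ z ∈ (univ : Finset (Fin N)).offDiag,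
      (v u (a z.1 u) - v u (a z.2 u)) := by
    filter_upwards [h, hi] with u hu hiu
    exact Dl_eq hu hiu
  refine DifferentiableAt.congr_of_eventuallyEq ?_ h1
  exact DifferentiableAt.fun_finsetProd fun z _ => (hv z.1).sub (hv z.2)

open AR.J5652 in
/-- the roots over a ball -/
theorem par_ball {Q : ℂ[X][X]} (hQ : Q.Monic) (hN : Q.natDegree = N) {c : ℂ} {ρ : ℝ}
    (hs : ∀ t ∈ ball c ρ, (evt t Q).Separable) :
    ∃ a : Fin N → ℂ → ℂ, (∀ j, DifferentiableOn ℂ (a j) (ball c ρ)) ∧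
      (∀ t ∈ ball c ρ, Function.Injective fun j => a j t) ∧
      ∀ t ∈ ball c ρ, evt t Q = nod fun j => a j t := by
  obtain ⟨a, h1, h2, h3⟩ := root_functions isOpen_ball (convex_ball c ρ) N (fun t => evt t Q)
    (fun i => by
      have h : (fun t => (evt t Q).coeff i) = fun t => (Q.coeff i).eval t := by
        funext t
        exact coeff_evt Q t i
      change DifferentiableOn ℂ (fun t => (evt t Q).coeff i) _
      rw [h]
      exact (Q.coeff i).differentiable.differentiableOn)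
    (fun t _ => by rw [natDegree_evt hQ, hN]) hs
  refine ⟨a, h1, h2, fun t ht => ?_⟩
  exact eq_nod (evt_monic hQ t) (by rw [natDegree_evt hQ, hN]) (h2 t ht)
    fun j => (h3 t ht _).2 ⟨j, rfl⟩

/-- the roots are bounded over a ball -/
theorem root_bound {Q : ℂ[X][X]} (hQ : Q.Monic) (c : ℂ) (ρ : ℝ) :
    ∃ C : ℝ, ∀ t ∈ closedBall c ρ, ∀ x, (evt t Q).eval x = 0 → ‖x‖ ≤ C := by
  have hcont : Continuous fun t : ℂ => ∑ i ∈ range Q.natDegree, ‖(Q.coeff i).eval t‖ :=
    continuous_finsetSum _ fun i _ => (Q.coeff i).continuous.norm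
  obtain ⟨C, hC⟩ := (isCompact_closedBall c ρ).bddAbove_image hcont.continuousOn
  refine ⟨C + 1, fun t ht x hx => ?_⟩
  have h1 := IsRoot.norm_lt_cauchyBound (evt_monic hQ t).ne_zero (a := x) hx
  have h2 : cauchyBound (evt t Q) ≤ ∑ i ∈ range Q.natDegree, ‖(Q.coeff i).eval t‖₊ + 1 := by
    rw [cauchyBound, (evt_monic hQ t).leadingCoeff, nnnorm_one, div_one, natDegree_evt hQ]
    refine add_le_add ?_ le_rfl
    refine Finset.sup_le fun i hi => ?_
    rw [coeff_evt]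
    exact Finset.single_le_sum (f := fun i => ‖(Q.coeff i).eval t‖₊) (fun _ _ => zero_le) hi
  have h3 : ‖x‖ ≤ ∑ i ∈ range Q.natDegree, ‖(Q.coeff i).eval t‖ + 1 := by
    have h4 : ‖x‖₊ ≤ ∑ i ∈ range Q.natDegree, ‖(Q.coeff i).eval t‖₊ + 1 := h1.le.trans h2
    have h5 : ((‖x‖₊ : NNReal) : ℝ) ≤
      ((∑ i ∈ range Q.natDegree, ‖(Q.coeff i).eval t‖₊ + 1 : NNReal) : ℝ) := by exact_mod_cast h4
    push_cast at h5
    exact h5
  have h4 := hC (Set.mem_image_of_mem _ ht)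
  linarith

/-- the roots over a punctured ball -/
theorem par_punct {Q : ℂ[X][X]} (hQ : Q.Monic) (hN : Q.natDegree = N) {c : ℂ} {ρ : ℝ} (hρ : 0 < ρ)
    (hs : ∀ t ∈ ball c ρ, t ≠ c → (evt t Q).Separable) :
    ∃ (M : ℕ) (a : Fin N → ℂ → ℂ), 0 < M ∧ (∀ j, AnalyticAt ℂ (a j) 0) ∧
      (∀ᶠ u in 𝓝[≠] (0 : ℂ), Function.Injective fun j => a j u) ∧
      ∀ᶠ u in 𝓝[≠] (0 : ℂ), evt (c + u ^ M) Q = nod fun j => a j u := by
  classical
  have hexp : Real.exp (Real.log ρ) = ρ := Real.exp_log hρ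
  have hmem : ∀ z ∈ ball (0 : ℂ) ρ, c + z ∈ ball c ρ := by
    intro z hz
    rw [mem_ball, dist_eq_norm, add_sub_cancel_left]
    simpa using hz
  obtain ⟨C, hC⟩ := root_bound hQ c ρ
  obtain ⟨M, a, hM, h1, h2, h3, h4, h5⟩ := Pool.Agent.H734R3.Fib.puiseux (Real.log ρ) N
    (fun z => evt (c + z) Q) (fun i => by
      have h : (fun z => (evt (c + z) Q).coeff i) = fun z => (Q.coeff i).eval (c + z) := by
        funext t
        exact coeff_evt Q _ i
      change DifferentiableOn ℂ (fun z => (evt (c + z) Q).coeff i) _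
      rw [h]
      exact ((Q.coeff i).differentiable.comp (differentiable_id.const_add c)).differentiableOn)
    (fun z _ => by rw [natDegree_evt hQ, hN])
    (fun z hz => by
      rw [hexp] at hz
      exact hs _ (hmem z hz.1) (by simpa using hz.2))
    C 0 (fun z hz v hv => by
      rw [hexp] at hz
      rw [pow_zero, mul_one]
      exact hC _ (ball_subset_closedBall (hmem z hz.1)) v hv)
  set δ := Real.exp (Real.log ρ / M) with hδ
  have hδ0 : 0 < δ := Real.exp_pos _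
  have hroot : ∀ u ∈ ball (0 : ℂ) δ \ {0}, evt (c + u ^ M) Q = nod fun j => a j u := by
    intro u hu
    exact eq_nod (evt_monic hQ _) (by rw [natDegree_evt hQ, hN]) (h2 u hu)
      fun j => (h4 u hu _).2 ⟨j, rfl⟩
  have hbdd : ∀ j, BddAbove (norm ∘ a j '' (ball 0 δ \ {0})) := by
    intro j
    refine ⟨C, ?_⟩
    rintro _ ⟨z, hz, rfl⟩
    have h6 := h3 z hz
    rw [hexp] at h6
    exact hC _ (ball_subset_closedBall (hmem _ h6.1)) _ ((h4 z hz _).2 ⟨j, rfl⟩)
  have hmb : ball (0 : ℂ) δ \ {0} ∈ 𝓝[≠] (0 : ℂ) := by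
    rw [Set.sdiff_eq, Set.inter_comm]
    exact inter_mem_nhdsWithin _ (ball_mem_nhds _ hδ0)
  have hupd : ∀ j, ∀ u ≠ (0 : ℂ), Function.update (a j) 0 (limUnder (𝓝[≠] 0) (a j)) u = a j u :=
    fun j u hu => Function.update_of_ne hu _ _
  refine ⟨M, fun j => Function.update (a j) 0 (limUnder (𝓝[≠] 0) (a j)), hM, fun j => ?_, ?_, ?_⟩
  · exact (Complex.differentiableOn_update_limUnder_of_bddAbove (ball_mem_nhds (0 : ℂ) hδ0)
      (h1 j) (hbdd j)).analyticAt (ball_mem_nhds (0 : ℂ) hδ0)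
  · filter_upwards [hmb] with u hu
    have hu0 : u ≠ 0 := hu.2
    simp only [hupd _ u hu0]
    exact h2 u hu
  · filter_upwards [hmb] with u hu
    have hu0 : u ≠ 0 := hu.2
    simp only [hupd _ u hu0]
    exact hroot u hu

/-- the discriminant -/
theorem disc {Q : ℂ[X][X]} (hQ : Q.Monic) (hN : 0 < Q.natDegree) (h0 : (evt 0 Q).Separable) :
    ∃ (D0 : ℂ[X]) (α β : ℂ[X][X]), D0 ≠ 0 ∧ C D0 = α * Q + β * derivative Q := by
  obtain ⟨α, β, _, _, h⟩ := exists_mul_add_mul_eq_C_resultant (m := Q.natDegree)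
    (n := Q.natDegree - 1) Q (derivative Q) le_rfl (natDegree_derivative_le Q)
    (Or.inl hN.ne')
  refine ⟨resultant Q (derivative Q) Q.natDegree (Q.natDegree - 1), α, β, ?_, ?_⟩
  · intro h1
    have h2 := resultant_map_map Q (derivative Q) Q.natDegree (Q.natDegree - 1)
      (evalRingHom (0 : ℂ))
    rw [h1, map_zero] at h2
    have h3 : Q.map (evalRingHom (0 : ℂ)) = evt 0 Q := rfl
    have h4 : (derivative Q).map (evalRingHom (0 : ℂ)) = derivative (evt 0 Q) := by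
      rw [← derivative_map]; rfl
    rw [h3, h4] at h2
    have h5 : (evt 0 Q).natDegree = Q.natDegree := natDegree_evt hQ 0
    have h6 : (derivative (evt 0 Q)).natDegree = Q.natDegree - 1 := by
      rw [natDegree_derivative, h5]
    exact resultant_ne_zero _ _ h0 (by rw [h5, h6]; exact h2)
  · rw [← h]
    ring

theorem sep_of_disc {Q : ℂ[X][X]} {D0 : ℂ[X]} {α β : ℂ[X][X]}
    (h : C D0 = α * Q + β * derivative Q) {t : ℂ} (ht : D0.eval t ≠ 0) : (evt t Q).Separable := by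
  have h1 := congrArg (evt t) h
  rw [evt_C, map_add, map_mul, map_mul, evt_der] at h1
  refine ⟨C (D0.eval t)⁻¹ * evt t α, C (D0.eval t)⁻¹ * evt t β, ?_⟩
  have h3 : (C (D0.eval t)⁻¹ * C (D0.eval t) : ℂ[X]) = 1 := by
    rw [← C_mul, inv_mul_cancel₀ ht, C_1]
  linear_combination h3 - C (D0.eval t)⁻¹ * h1

/-- a polynomial does not vanish near a point -/
theorem ball_ne {d : ℂ[X]} (hd : d ≠ 0) (c : ℂ) :
    ∃ ρ : ℝ, 0 < ρ ∧ ∀ t ∈ ball c ρ, t ≠ c → d.eval t ≠ 0 := by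
  classical
  have h0 : ((d.roots.toFinset.erase c : Finset ℂ) : Set ℂ)ᶜ ∈ 𝓝 c :=
    (d.roots.toFinset.erase c).finite_toSet.isClosed.isOpen_compl.mem_nhds (by simp)
  obtain ⟨ρ, hρ, h1⟩ := Metric.mem_nhds_iff.1 h0
  refine ⟨ρ, hρ, fun t ht htc h => h1 ht ?_⟩
  simp only [Finset.coe_erase, Set.mem_sdiff, Finset.mem_coe, Multiset.mem_toFinset,
    Set.mem_singleton_iff]
  exact ⟨(mem_roots hd).2 h, htc⟩

/-- the roots near a regular point -/
theorem par_reg {Q : ℂ[X][X]} (hQ : Q.Monic) (hN : Q.natDegree = N) (hN0 : 0 < N)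
    (h0 : (evt 0 Q).Separable) :
    ∃ a : Fin N → ℂ → ℂ, (∀ j, AnalyticAt ℂ (a j) 0) ∧ (∀ᶠ u in 𝓝 (0 : ℂ),
      Function.Injective fun j => a j u) ∧ ∀ᶠ u in 𝓝 (0 : ℂ), evt u Q = nod fun j => a j u := by
  obtain ⟨D0, α, β, hD, h⟩ := disc hQ (by rw [hN]; exact hN0) h0
  obtain ⟨ρ, hρ, h1⟩ := ball_ne hD 0
  obtain ⟨a, h2, h3, h4⟩ := par_ball hQ hN (c := 0) (ρ := ρ) (fun t ht => by
    by_cases htc : t = 0
    · rw [htc]; exact h0
    · exact sep_of_disc h (h1 t ht htc))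
  exact ⟨a, fun j => (h2 j).analyticAt (ball_mem_nhds _ hρ),
    Filter.mem_of_superset (ball_mem_nhds _ hρ) h3, Filter.mem_of_superset (ball_mem_nhds _ hρ) h4⟩

end

end Pool.Agent.H941.TF
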