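import Mathlib

set_option autoImplicit false
set_option linter.unusedSectionVars false
set_option linter.unusedVariables false

/-! # Leading coefficients of the solutions of a differential system -/

namespace Pool.Agent.H941.TF

open Filter Topology Finset

theorem loc {N : ℕ} {z : Fin N → ℂ → ℂ} (hz : ∀ j, MeromorphicAt (z j) 0)
    {E : ℂ → ℂ} {E0 : ℂ} (hE : Tendsto E (𝓝[≠] 0) (𝓝 E0))
    {B : Fin N → Fin N → ℂ → ℂ} {β : Fin N → Fin N → ℂ}
    (hB : ∀ j, ∀ i ∈ univ.erase j, Tendsto (B j i) (𝓝[≠] 0) (𝓝 (β j i)))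
    {f : Fin N → ℂ → ℂ} {φ : Fin N → ℂ} (hf : ∀ j, Tendsto (f j) (𝓝[≠] 0) (𝓝 (φ j)))
    (hode : ∀ j, ∀ᶠ u in 𝓝[≠] (0 : ℂ), u * deriv (z j) u + E u * z j u +
      ∑ i ∈ univ.erase j, B j i u * (z j u - z i u) = f j u) :
    ∃ (K : ℕ) (r : Fin N → ℂ),
      (∀ j, Tendsto (fun u => u ^ K * z j u) (𝓝[≠] 0) (𝓝 (r j))) ∧ (K = 0 ∨ ∃ j, r j ≠ 0) ∧
      ∀ j, (-(K : ℂ) + E0) * r j + ∑ i ∈ univ.erase j, β j i * (r j - r i) =
        if K = 0 then φ j else 0 := by
  classical
  set Pr : ℕ → Prop := fun n => ∃ g : Fin N → ℂ → ℂ, (∀ j, AnalyticAt ℂ (g j) 0) ∧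
    ∀ j, ∀ᶠ u in 𝓝[≠] (0 : ℂ), u ^ n * z j u = g j u with hPr
  have hex : ∃ n, Pr n := by
    choose n hn using hz
    refine ⟨∑ j, n j, fun j u => u ^ (∑ j, n j - n j) * ((u - 0) ^ n j • z j u), fun j => ?_,
      fun j => ?_⟩
    · exact (analyticAt_id.pow _).mul (hn j)
    · refine Eventually.of_forall fun u => ?_
      have h1 : n j ≤ ∑ j, n j := Finset.single_le_sum (fun _ _ => Nat.zero_le _) (mem_univ j)
      beta_reduce
      rw [sub_zero, smul_eq_mul, ← mul_assoc, ← pow_add, Nat.sub_add_cancel h1]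
  obtain ⟨g, hg, hgz⟩ := Nat.find_spec hex
  set K := Nat.find hex with hK
  refine ⟨K, fun j => g j 0, fun j => ?_, ?_, fun j => ?_⟩
  · have h1 : Tendsto (g j) (𝓝[≠] 0) (𝓝 (g j 0)) :=
      (hg j).continuousAt.tendsto.mono_left nhdsWithin_le_nhds
    exact h1.congr' ((hgz j).mono fun u hu => hu.symm)
  · rcases Nat.eq_zero_or_pos K with h0 | h0
    · exact Or.inl h0
    · right
      by_contra hcon
      push Not at hcon
      refine Nat.find_min hex (m := K - 1) (by omega) ?_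
      refine ⟨fun j => dslope (g j) 0, fun j => ?_, fun j => ?_⟩
      · obtain ⟨p, hp⟩ := hg j
        exact ⟨_, hp.has_fpower_series_dslope_fslope⟩
      · filter_upwards [hgz j, self_mem_nhdsWithin] with u hu hu0
        have hu0' : u ≠ 0 := hu0
        rw [dslope_of_ne _ hu0', slope_def_field, hcon j, ← hu, sub_zero, sub_zero]
        have : u ^ K = u ^ (K - 1) * u := by rw [← pow_succ]; congr 1; omega
        rw [this]
        field_simp
  · -- the limit of the equation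
    have hgd : ∀ j, ∀ᶠ u in 𝓝[≠] (0 : ℂ), DifferentiableAt ℂ (g j) u := fun j =>
      ((hg j).eventually_analyticAt.mono fun u hu => hu.differentiableAt).filter_mono
        nhdsWithin_le_nhds
    have hder : ∀ j, ∀ᶠ u in 𝓝[≠] (0 : ℂ),
        u ^ K * (u * deriv (z j) u) = -(K : ℂ) * g j u + u * deriv (g j) u := by
      intro j
      have h1 : ∀ᶠ u in 𝓝[≠] (0 : ℂ), ∀ᶠ v in 𝓝 u, z j v = (v ^ K)⁻¹ * g j v := by
        have h2 : ∀ᶠ u in 𝓝[≠] (0 : ℂ), ∀ᶠ v in 𝓝[≠] u, u ≠ 0 ∧ True := by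
          filter_upwards [self_mem_nhdsWithin] with u hu
          exact Eventually.of_forall fun v => ⟨hu, trivial⟩
        have h3 : ∀ᶠ v in 𝓝[≠] (0 : ℂ), z j v = (v ^ K)⁻¹ * g j v := by
          filter_upwards [hgz j, self_mem_nhdsWithin] with v hv hv0
          have hv0' : v ≠ 0 := hv0
          rw [← hv]
          field_simp
        exact eventually_eventually_nhdsWithin.2 h3 |>.mp (by
          filter_upwards [self_mem_nhdsWithin] with u hu hh
          have hu' : u ≠ 0 := hu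
          rwa [nhdsWithin_eq_nhds.2 (isOpen_compl_singleton.mem_nhds hu')] at hh)
      filter_upwards [h1, hgd j, self_mem_nhdsWithin] with u hu hgu hu0
      have hu0' : u ≠ 0 := hu0
      have h2 : deriv (z j) u = deriv (fun v => (v ^ K)⁻¹ * g j v) u := EventuallyEq.deriv_eq hu
      have h3 : HasDerivAt (fun v : ℂ => (v ^ K)⁻¹) (-(K * u ^ (K - 1)) / (u ^ K) ^ 2) u :=
        (hasDerivAt_pow K u).fun_inv (pow_ne_zero _ hu0')
      have h4 := (h3.mul hgu.hasDerivAt).deriv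
      have h5 : deriv (fun v => (v ^ K)⁻¹ * g j v) u = -(K * u ^ (K - 1)) / (u ^ K) ^ 2 * g j u +
        (u ^ K)⁻¹ * deriv (g j) u := h4
      rw [h2, h5]
      rcases Nat.eq_zero_or_pos K with h0 | h0
      · rw [h0]
        simp
      · have : u ^ K = u ^ (K - 1) * u := by rw [← pow_succ]; congr 1; omega
        rw [this]
        field_simp
    have hlim1 : Tendsto (fun u => (-(K : ℂ) * g j u + u * deriv (g j) u) + E u * g j u +
        ∑ i ∈ univ.erase j, B j i u * (g j u - g i u)) (𝓝[≠] 0)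
        (𝓝 ((-(K : ℂ) * g j 0 + 0 * deriv (g j) 0) + E0 * g j 0 +
          ∑ i ∈ univ.erase j, β j i * (g j 0 - g i 0))) := by
      have t1 : ∀ i, Tendsto (g i) (𝓝[≠] 0) (𝓝 (g i 0)) := fun i =>
        (hg i).continuousAt.tendsto.mono_left nhdsWithin_le_nhds
      have t2 : Tendsto (deriv (g j)) (𝓝[≠] 0) (𝓝 (deriv (g j) 0)) :=
        (hg j).deriv.continuousAt.tendsto.mono_left nhdsWithin_le_nhds
      have t3 : Tendsto (fun u : ℂ => u) (𝓝[≠] 0) (𝓝 0) :=
        (tendsto_id (x := 𝓝 (0 : ℂ))).mono_left nhdsWithin_le_nhds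
      refine ((((t1 j).const_mul _).add (t3.mul t2)).add (hE.mul (t1 j))).add ?_
      exact tendsto_finsetSum _ fun i hi => (hB j i hi).mul ((t1 j).sub (t1 i))
    have hlim2 : Tendsto (fun u => u ^ K * f j u) (𝓝[≠] 0) (𝓝 (if K = 0 then φ j else 0)) := by
      have t3 : Tendsto (fun u : ℂ => u ^ K) (𝓝[≠] 0) (𝓝 (0 ^ K)) :=
        ((continuous_pow K).tendsto (0 : ℂ)).mono_left nhdsWithin_le_nhds
      have t4 := t3.mul (hf j)
      split_ifs with h0
      · rw [h0, pow_zero, one_mul] at t4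
        rw [h0]
        exact t4
      · rwa [zero_pow h0, zero_mul] at t4
    have heq : (fun u => u ^ K * f j u) =ᶠ[𝓝[≠] 0] (fun u => (-(K : ℂ) * g j u +
        u * deriv (g j) u) + E u * g j u + ∑ i ∈ univ.erase j, B j i u * (g j u - g i u)) := by
      have hall : ∀ᶠ u in 𝓝[≠] (0 : ℂ), ∀ i, u ^ K * z i u = g i u := eventually_all.2 hgz
      filter_upwards [hode j, hder j, hall] with u h1 h2 h3
      rw [← h1, mul_add, mul_add, h2, Finset.mul_sum]
      congr 1
      · congr 1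
        rw [← h3 j]
        ring
      · refine Finset.sum_congr rfl fun i _ => ?_
        rw [← h3 j, ← h3 i]
        ring
    have := tendsto_nhds_unique (hlim2.congr' heq) hlim1
    rw [this]
    ring

/-- the energy identity -/
theorem energy {N : ℕ} {b : Fin N → ℝ} (hb : ∀ j, b j < 0) {c : Fin N → Fin N → ℝ}
    (hc : ∀ j i, 0 ≤ c j i) (hcs : ∀ j i, c j i = c i j) {K : ℝ} (hK : 0 ≤ K) {r : Fin N → ℂ}
    (h : ∀ j, -(K : ℂ) * r j + ∑ i ∈ univ.erase j, (b i * c j i : ℝ) * (r j - r i) = 0) :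
    (0 < K → r = 0) ∧ ∀ j i, c j i ≠ 0 → r j = r i := by
  have h0 : ∀ j, -(K : ℂ) * r j + ∑ i, ((b i * c j i : ℝ) : ℂ) * (r j - r i) = 0 := by
    intro j
    rw [← h j, ← Finset.add_sum_erase univ _ (mem_univ j), sub_self, mul_zero, zero_add]
  have h1 : ∀ j i, ((starRingEnd ℂ (r j)) * (r j - r i) + (starRingEnd ℂ (r i)) * (r i - r j)) =
      ((Complex.normSq (r j - r i) : ℝ) : ℂ) := by
    intro j i
    rw [Complex.normSq_eq_conj_mul_self, map_sub]
    ring
  have h2 : -(K : ℂ) * ∑ j, (b j : ℂ) * ((Complex.normSq (r j) : ℝ) : ℂ) +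
      ∑ j, ∑ i, ((b j * b i * c j i : ℝ) : ℂ) * ((starRingEnd ℂ (r j)) * (r j - r i)) = 0 := by
    have : ∑ j, (b j : ℂ) * (starRingEnd ℂ (r j)) *
        (-(K : ℂ) * r j + ∑ i, ((b i * c j i : ℝ) : ℂ) * (r j - r i)) = 0 := by
      simp only [h0, mul_zero, Finset.sum_const_zero]
    rw [← this, Finset.mul_sum, ← Finset.sum_add_distrib]
    refine Finset.sum_congr rfl fun j _ => ?_
    rw [mul_add, Finset.mul_sum, Complex.normSq_eq_conj_mul_self]
    congr 1
    · ring
    · refine Finset.sum_congr rfl fun i _ => ?_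
      push_cast
      ring
  have h3 : ∑ j, ∑ i, ((b j * b i * c j i : ℝ) : ℂ) * ((starRingEnd ℂ (r j)) * (r j - r i)) =
      ∑ j, ∑ i, ((b j * b i * c j i : ℝ) : ℂ) * ((starRingEnd ℂ (r i)) * (r i - r j)) := by
    rw [Finset.sum_comm]
    refine Finset.sum_congr rfl fun i _ => Finset.sum_congr rfl fun j _ => ?_
    rw [hcs, mul_comm (b j)]
  have h4 : -(K : ℝ) * ∑ j, b j * Complex.normSq (r j) +
      (∑ j, ∑ i, (b j * b i * c j i) * Complex.normSq (r j - r i)) / 2 = 0 := by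
    have h5 : ((-(K : ℝ) * ∑ j, b j * Complex.normSq (r j) +
      (∑ j, ∑ i, (b j * b i * c j i) * Complex.normSq (r j - r i)) / 2 : ℝ) : ℂ) = 0 := by
      have h6 : ∑ j, ∑ i, ((b j * b i * c j i : ℝ) : ℂ) *
          ((Complex.normSq (r j - r i) : ℝ) : ℂ) =
          ∑ j, ∑ i, ((b j * b i * c j i : ℝ) : ℂ) * ((starRingEnd ℂ (r j)) * (r j - r i)) +
          ∑ j, ∑ i, ((b j * b i * c j i : ℝ) : ℂ) * ((starRingEnd ℂ (r i)) * (r i - r j)) := by
        rw [← Finset.sum_add_distrib]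
        refine Finset.sum_congr rfl fun j _ => ?_
        rw [← Finset.sum_add_distrib]
        refine Finset.sum_congr rfl fun i _ => ?_
        rw [← h1]
        ring
      rw [← h3] at h6
      push_cast at h6 h2 ⊢
      rw [h6]
      linear_combination h2
    exact_mod_cast h5
  have h5 : 0 ≤ -(K : ℝ) * ∑ j, b j * Complex.normSq (r j) := by
    rw [neg_mul, ← mul_neg, ← Finset.sum_neg_distrib]
    refine mul_nonneg hK (Finset.sum_nonneg fun j _ => ?_)
    have := Complex.normSq_nonneg (r j)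
    nlinarith [hb j]
  have h6 : ∀ j i, 0 ≤ (b j * b i * c j i) * Complex.normSq (r j - r i) := fun j i =>
    mul_nonneg (mul_nonneg (mul_nonneg_of_nonpos_of_nonpos (hb j).le (hb i).le) (hc j i))
      (Complex.normSq_nonneg _)
  have h7 : 0 ≤ ∑ j, ∑ i, (b j * b i * c j i) * Complex.normSq (r j - r i) :=
    Finset.sum_nonneg fun j _ => Finset.sum_nonneg fun i _ => h6 j i
  constructor
  · intro hK0
    have h8 : ∑ j, b j * Complex.normSq (r j) = 0 := by
      have : -(K : ℝ) * ∑ j, b j * Complex.normSq (r j) = 0 := by linarith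
      exact (mul_eq_zero.1 this).resolve_left (by linarith)
    have h9 : ∀ j ∈ univ, b j * Complex.normSq (r j) = 0 :=
      (Finset.sum_eq_zero_iff_of_nonpos fun j _ =>
        mul_nonpos_of_nonpos_of_nonneg (hb j).le (Complex.normSq_nonneg _)).1 h8
    funext j
    exact Complex.normSq_eq_zero.1 ((mul_eq_zero.1 (h9 j (mem_univ j))).resolve_left (hb j).ne)
  · intro j i hji
    have h8 : ∑ j, ∑ i, (b j * b i * c j i) * Complex.normSq (r j - r i) = 0 := by linarith
    have h9 := (Finset.sum_eq_zero_iff_of_nonneg fun j _ => Finset.sum_nonneg fun i _ =>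
      h6 j i).1 h8 j (mem_univ j)
    have h10 := (Finset.sum_eq_zero_iff_of_nonneg fun i _ => h6 j i).1 h9 i (mem_univ i)
    have h11 : b j * b i * c j i ≠ 0 := mul_ne_zero (mul_ne_zero (hb j).ne (hb i).ne) hji
    exact sub_eq_zero.1 (Complex.normSq_eq_zero.1 ((mul_eq_zero.1 h10).resolve_left h11))

end Pool.Agent.H941.TF
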