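import Pool.Agent.H941.TF.Red

set_option autoImplicit false
set_option linter.unusedSectionVars false
set_option linter.unusedVariables false

/-! # Normalization of the polynomial part -/

namespace Pool.Agent.H941.TF

open Polynomial Pool.Agent.Helper748.TP

section Bop

theorem quot_unique {Q f q r : ℂ[X][X]} (hQ : Q.Monic) (h : f = Q * q + r)
    (hr : r.degree < Q.degree) : f /ₘ Q = q :=
  (div_modByMonic_unique q r hQ ⟨by rw [h]; ring, hr⟩).1

theorem add_div' {Q : ℂ[X][X]} (hQ : Q.Monic) (p q : ℂ[X][X]) :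
    (p + q) /ₘ Q = p /ₘ Q + q /ₘ Q := by
  refine quot_unique (r := p %ₘ Q + q %ₘ Q) hQ ?_ ?_
  · linear_combination -(modByMonic_add_div p Q) - (modByMonic_add_div q Q)
  · exact lt_of_le_of_lt (degree_add_le _ _)
      (max_lt (degree_modByMonic_lt _ hQ) (degree_modByMonic_lt _ hQ))

theorem sub_div' {Q : ℂ[X][X]} (hQ : Q.Monic) (p q : ℂ[X][X]) :
    (p - q) /ₘ Q = p /ₘ Q - q /ₘ Q := by
  refine quot_unique (r := p %ₘ Q - q %ₘ Q) hQ ?_ ?_
  · linear_combination -(modByMonic_add_div p Q) + (modByMonic_add_div q Q)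
  · exact lt_of_le_of_lt (degree_sub_le _ _)
      (max_lt (degree_modByMonic_lt _ hQ) (degree_modByMonic_lt _ hQ))

theorem deg_C_mul {A : Type} [CommRing A] (c : A) (p : A[X]) : (C c * p).degree ≤ p.degree := by
  rw [degree_le_iff_coeff_zero]
  intro m hm
  rw [coeff_C_mul, coeff_eq_zero_of_degree_lt hm, mul_zero]

variable (Qp lp : ℂ[X][X]) (e0 : ℂ)

/-- `t ^ (a + 1) ∇_t (q / t ^ a)`, modulo functions which vanish at `x = ∞` -/
noncomputable def Bop (a : ℕ) (q : ℂ[X][X]) : ℂ[X][X] :=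
  C (C (e0 - a)) * q + C X * dt q + C X * ((lp * q) /ₘ Qp)

theorem Bop_add (hQ : Qp.Monic) (a : ℕ) (p q : ℂ[X][X]) :
    Bop Qp lp e0 a (p + q) = Bop Qp lp e0 a p + Bop Qp lp e0 a q := by
  rw [Bop, Bop, Bop, dt_add, mul_add lp, add_div' hQ]
  ring

theorem Bop_sub (hQ : Qp.Monic) (a : ℕ) (p q : ℂ[X][X]) :
    Bop Qp lp e0 a (p - q) = Bop Qp lp e0 a p - Bop Qp lp e0 a q := by
  rw [Bop, Bop, Bop, dt_sub, mul_sub lp, sub_div' hQ]
  ring

variable {Qp lp e0}

theorem quot_lt (hQ : Qp.Monic) (hl : lp.degree < (Qp.natDegree : WithBot ℕ)) {n : ℕ}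
    {c : ℂ[X][X]} (hc : c.natDegree ≤ n) : ((lp * c) /ₘ Qp).degree < (n : WithBot ℕ) := by
  by_cases h0 : (lp * c) /ₘ Qp = 0
  · rw [h0, degree_zero]; exact WithBot.bot_lt_coe _
  · have h1 := modByMonic_add_div (lp * c) Qp
    have h2 : (Qp * ((lp * c) /ₘ Qp)).degree < ((Qp.natDegree + n : ℕ) : WithBot ℕ) := by
      have h3 : Qp * ((lp * c) /ₘ Qp) = lp * c - (lp * c) %ₘ Qp := by linear_combination h1
      rw [h3]
      refine lt_of_le_of_lt (degree_sub_le _ _) (max_lt ?_ ?_)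
      · by_cases hl0 : lp = 0
        · rw [hl0, zero_mul, degree_zero]; exact WithBot.bot_lt_coe _
        by_cases hc0 : c = 0
        · rw [hc0, mul_zero, degree_zero]; exact WithBot.bot_lt_coe _
        rw [degree_mul, degree_eq_natDegree hl0, degree_eq_natDegree hc0]
        have h4 : lp.natDegree < Qp.natDegree := (natDegree_lt_iff_degree_lt hl0).2 hl
        have h5 : lp.natDegree + c.natDegree < Qp.natDegree + n := by omega
        exact_mod_cast h5
      · refine lt_of_lt_of_le (degree_modByMonic_lt _ hQ) ?_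
        rw [degree_eq_natDegree hQ.ne_zero]
        exact_mod_cast Nat.le_add_right _ _
    rw [degree_mul, degree_eq_natDegree hQ.ne_zero, degree_eq_natDegree h0] at h2
    rw [degree_eq_natDegree h0]
    have h3 : Qp.natDegree + ((lp * c) /ₘ Qp).natDegree < Qp.natDegree + n := by exact_mod_cast h2
    have h4 : ((lp * c) /ₘ Qp).natDegree < n := by omega
    exact_mod_cast h4

theorem coeff_Bop (hQ : Qp.Monic) (hl : lp.degree < (Qp.natDegree : WithBot ℕ)) {n : ℕ}
    {c : ℂ[X][X]} (hc : c.natDegree ≤ n) (a i : ℕ) :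
    ((Bop Qp lp e0 a c).coeff n).coeff i = (e0 - a + i) * (c.coeff n).coeff i := by
  have h0 : ((Bop Qp lp e0 a c).coeff n) = C (e0 - a) * c.coeff n + X * derivative (c.coeff n) := by
    rw [Bop, coeff_add, coeff_add, coeff_C_mul, coeff_C_mul, coeff_C_mul, coeff_dt,
      (degree_lt_iff_coeff_zero _ _).1 (quot_lt hQ hl hc) n le_rfl, mul_zero, add_zero]
  rw [h0, coeff_add, coeff_C_mul]
  rcases Nat.eq_zero_or_pos i with h | h
  · rw [h, coeff_X_mul_zero, Nat.cast_zero]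
    ring
  · obtain ⟨k, rfl⟩ : ∃ k, i = k + 1 := ⟨i - 1, by omega⟩
    rw [coeff_X_mul, coeff_derivative]
    push_cast
    ring

theorem Bop_inj (hQ : Qp.Monic) (hl : lp.degree < (Qp.natDegree : WithBot ℕ))
    (he : ∀ n : ℤ, e0 ≠ n) {a : ℕ} {c : ℂ[X][X]} (h : Bop Qp lp e0 a c = 0) : c = 0 := by
  by_contra hc
  have h1 : c.coeff c.natDegree = 0 := by
    ext i
    have h2 := coeff_Bop (e0 := e0) hQ hl (le_refl c.natDegree) a i
    rw [h, coeff_zero, coeff_zero] at h2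
    rw [coeff_zero]
    refine (mul_eq_zero.1 h2.symm).resolve_left fun h3 => he (a - i) ?_
    push_cast
    linear_combination h3
  rw [coeff_natDegree] at h1
  exact hc (leadingCoeff_eq_zero.1 h1)

theorem Bop_surj (hQ : Qp.Monic) (hl : lp.degree < (Qp.natDegree : WithBot ℕ))
    (he : ∀ n : ℤ, e0 ≠ n) (a n : ℕ) (q : ℂ[X][X]) (hq : q.degree < (n : WithBot ℕ)) :
    ∃ c, Bop Qp lp e0 a c = q := by
  induction n generalizing q with
  | zero =>
    refine ⟨0, ?_⟩
    have : q = 0 := by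
      rw [← degree_eq_bot]
      have : q.degree < (0 : WithBot ℕ) := by exact_mod_cast hq
      exact Nat.WithBot.lt_zero_iff.1 this
    rw [this, Bop, dt_zero, mul_zero, mul_zero, mul_zero, zero_divByMonic]
    ring
  | succ n ih =>
    set p : ℂ[X] := ∑ i ∈ (q.coeff n).support, monomial i ((q.coeff n).coeff i / (e0 - a + i))
      with hp
    have hpc : ∀ i, (e0 - a + i) * p.coeff i = (q.coeff n).coeff i := by
      intro i
      have h3 : e0 - a + i ≠ 0 := by
        intro h3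
        apply he (a - i)
        push_cast
        linear_combination h3
      rw [hp, finsetSum_coeff]
      simp only [coeff_monomial]
      rw [Finset.sum_ite_eq']
      split_ifs with h
      · field_simp
      · rw [notMem_support_iff.1 h, mul_zero]
    set m : ℂ[X][X] := monomial n p with hm
    have hmd : m.natDegree ≤ n := natDegree_monomial_le _
    have h1 : (q - Bop Qp lp e0 a m).degree < (n : WithBot ℕ) := by
      rw [degree_lt_iff_coeff_zero]
      intro k hk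
      rcases hk.eq_or_lt with h2 | h2
      · rw [← h2, coeff_sub]
        refine sub_eq_zero.2 ?_
        ext i
        rw [coeff_Bop hQ hl hmd, hm, coeff_monomial, if_pos rfl, hpc]
      · rw [coeff_sub, (degree_lt_iff_coeff_zero _ _).1 hq k (by omega)]
        refine sub_eq_zero.2 ?_
        ext i
        rw [coeff_Bop hQ hl (by omega : m.natDegree ≤ k), hm, coeff_monomial, if_neg (by omega),
          coeff_zero, mul_zero]
    obtain ⟨c, hc⟩ := ih _ h1
    refine ⟨c + m, ?_⟩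
    rw [Bop_add _ _ _ hQ, hc]
    ring

end Bop

section Main

/-- `t` -/
noncomputable def Tk : Kt := io X

theorem Tk_ne : Tk ≠ 0 := by
  intro h
  have := io_inj (h.trans (map_zero io).symm)
  exact X_ne_zero this

theorem D_Tk : D Tk = 1 := by rw [Tk, D_io, derivative_X, map_one]

theorem D_Tk_inv : D Tk⁻¹ = -(Tk⁻¹ ^ 2) := by
  rw [D_inv Tk_ne, D_Tk, one_mul]

theorem D_Tk_pow (a : ℕ) : D (Tk⁻¹ ^ a) = -((a : Kt) * Tk⁻¹ ^ (a + 1)) := by
  induction a with
  | zero => rw [pow_zero, D_one, Nat.cast_zero, zero_mul, neg_zero]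
  | succ a ih =>
    rw [pow_succ, D_mul, ih, D_Tk_inv]
    push_cast
    ring

/-- elements of `ℂ[t, 1/t][x]` -/
noncomputable def La (a : ℕ) (q : ℂ[X][X]) : Kt[X] := C (Tk⁻¹ ^ a) * q.map io

theorem La_inj {a : ℕ} {p q : ℂ[X][X]} (h : La a p = La a q) : p = q := by
  have h1 : (C (Tk⁻¹ ^ a) : Kt[X]) ≠ 0 := C_ne_zero.2 (pow_ne_zero _ (inv_ne_zero Tk_ne))
  exact map_injective io io_inj (mul_left_cancel₀ h1 h)

theorem La_succ (a : ℕ) (q : ℂ[X][X]) : La (a + 1) (C X * q) = La a q := by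
  rw [La, La, Polynomial.map_mul, map_C, ← mul_assoc, ← C_mul]
  congr 2
  rw [pow_succ, mul_assoc]
  change Tk⁻¹ ^ a * (Tk⁻¹ * Tk) = _
  rw [inv_mul_cancel₀ Tk_ne, mul_one]

variable {Qp hp lp : ℂ[X][X]} {e0 : ℂ}

/-- The quotient of `l c` by `Q` -/
theorem La_quot (hQ : Qp.Monic) (a : ℕ) (c : ℂ[X][X]) :
    ∃ r : Kt[X], r.degree < ((Qp.map io).natDegree : WithBot ℕ) ∧
      lp.map io * La a c = Qp.map io * La a ((lp * c) /ₘ Qp) + r := by
  refine ⟨C (Tk⁻¹ ^ a) * ((lp * c) %ₘ Qp).map io, ?_, ?_⟩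
  · refine lt_of_le_of_lt (deg_C_mul _ _) ?_
    refine lt_of_le_of_lt degree_map_le ?_
    rw [natDegree_map_eq_of_injective io_inj, ← degree_eq_natDegree hQ.ne_zero]
    exact degree_modByMonic_lt _ hQ
  · have h1 := congrArg (Polynomial.map io) (modByMonic_add_div (lp * c) Qp)
    rw [Polynomial.map_add, Polynomial.map_mul, Polynomial.map_mul] at h1
    rw [La, La]
    linear_combination (-C (Tk⁻¹ ^ a)) * h1

theorem dk_La (a : ℕ) (q : ℂ[X][X]) :
    dk (La a q) = C (Tk⁻¹ ^ (a + 1)) * ((C (C (-(a : ℂ))) * q + C X * dt q).map io) := by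
  rw [La, dk_mul, dk_C, D_Tk_pow, dk_map, Polynomial.map_add, Polynomial.map_mul,
    Polynomial.map_mul, map_C, map_C]
  have h1 : io (C (-(a : ℂ))) = -(a : Kt) := by
    rw [C_neg, map_neg]
    congr 1
    rw [show (C (a : ℂ) : ℂ[X]) = (a : ℂ[X]) by simp, map_natCast]
  have h2 : Tk⁻¹ ^ a = Tk⁻¹ ^ (a + 1) * Tk := by
    rw [pow_succ, mul_assoc, inv_mul_cancel₀ Tk_ne, mul_one]
  rw [h1, mul_add, ← mul_assoc, ← mul_assoc, ← C_mul, ← C_mul]
  congr 2
  · congr 1
    ring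
  · congr 1

/-- `e` -/
noncomputable def ee (e0 : ℂ) : Kt := io (C e0) * Tk⁻¹

theorem pol_La (a : ℕ) (c : ℂ[X][X]) : dk (La a c) + C (ee e0) * La a c +
    La a ((lp * c) /ₘ Qp) = La (a + 1) (Bop Qp lp e0 a c) := by
  rw [dk_La, ← La_succ a ((lp * c) /ₘ Qp), Bop, La, La, La]
  have h3 : (C (C (e0 - a)) : ℂ[X][X]) = C (C e0) + C (C (-(a : ℂ))) := by
    rw [← C_add, ← C_add, sub_eq_add_neg]
  rw [h3]
  simp only [Polynomial.map_add, Polynomial.map_mul, map_C, ee, C_mul]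
  have h2 : (C (Tk⁻¹ ^ a) : Kt[X]) * C Tk⁻¹ = C (Tk⁻¹ ^ (a + 1)) := by
    rw [← C_mul, ← pow_succ]
  linear_combination (C (io (C e0)) * Polynomial.map io c) * h2

theorem dvd_deg {Q p : Kt[X]} (hQ : Q.Monic)
    (h : (Q ^ 2 * p).degree < ((2 * Q.natDegree : ℕ) : WithBot ℕ)) : p = 0 := by
  by_contra hp
  rw [degree_mul, degree_eq_natDegree (hQ.pow 2).ne_zero, hQ.natDegree_pow,
    degree_eq_natDegree hp] at h
  have h2 : 2 * Q.natDegree + p.natDegree < 2 * Q.natDegree := by exact_mod_cast h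
  omega

/-- the polynomial part of the equation -/
theorem pol_eq {Q h l P R w u : Kt[X]} {e : Kt} (hQ : Q.Monic)
    (hh : h.degree < (Q.natDegree : WithBot ℕ)) (hl : l.degree < (Q.natDegree : WithBot ℕ))
    (hC : Cl Q h l e 1 P R) (hP : PP Q 1 P w) (hR : PP Q 1 R 0)
    (hu : ∃ r : Kt[X], r.degree < (Q.natDegree : WithBot ℕ) ∧ l * w = Q * u + r) :
    dk w + C e * w + u = 1 := by
  obtain ⟨r, hr, hrd⟩ := hP
  obtain ⟨r2, hr2, hrd2⟩ := hR
  obtain ⟨r3, hrd3, hr3⟩ := hu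
  rw [one_mul] at hrd hrd2
  rw [pow_one] at hr hr2
  rw [zero_mul, zero_add] at hr2
  have hdQ : (dk Q).natDegree ≤ Q.natDegree := natDegree_dk_le Q
  have key : Q ^ 2 * (1 - dk w - C e * w - u) = Q * r3 + gt Q l e 1 r + gx Q h 1 R := by
    rw [Cl, hr, dk_add, dk_mul] at hC
    rw [gt, gx]
    push_cast at hC ⊢
    linear_combination hC + Q * hr3
  have h0 : 1 - dk w - C e * w - u = 0 := by
    refine dvd_deg hQ ?_
    rw [key]
    refine lt_of_le_of_lt (degree_add_le _ _) (max_lt (lt_of_le_of_lt (degree_add_le _ _)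
      (max_lt ?_ ?_)) ?_)
    · exact deg_mul_lt le_rfl hrd3 (by omega)
    · exact deg_gt hl hrd
    · exact deg_gx hh (by rw [hr2]; exact hrd2)
  linear_combination -h0

/-- the polynomial part of `Q ∇_t c` -/
theorem PP_gt {R v : Kt[X]} (hQ : Qp.Monic) (hR : PP (Qp.map io) 1 R v) (a : ℕ) (c : ℂ[X][X]) :
    PP (Qp.map io) 1 (R + gt (Qp.map io) (lp.map io) (ee e0) 0 (La a c))
      (v + La (a + 1) (Bop Qp lp e0 a c)) := by
  obtain ⟨r, hr, hrd⟩ := hR
  obtain ⟨r1, hrd1, hr1⟩ := La_quot (lp := lp) hQ a c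
  refine ⟨r + r1, ?_, ?_⟩
  · rw [← pol_La, gt, hr, Nat.cast_zero]
    linear_combination hr1
  · rw [one_mul] at hrd ⊢
    exact lt_of_le_of_lt (degree_add_le _ _) (max_lt hrd hrd1)

theorem PP_gx {P w : Kt[X]} (hQ : Qp.Monic) (hP : PP (Qp.map io) 1 P w) (a : ℕ) (c : ℂ[X][X]) :
    PP (Qp.map io) 1 (P - gx (Qp.map io) (hp.map io) 0 (La a c))
      (w - La a (derivative c + (hp * c) /ₘ Qp)) := by
  obtain ⟨r, hr, hrd⟩ := hP
  obtain ⟨r1, hrd1, hr1⟩ := La_quot (lp := hp) hQ a c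
  refine ⟨r - r1, ?_, ?_⟩
  · have h2 : derivative (La a c) = La a (derivative c) := by
      rw [La, La, derivative_C_mul, derivative_map]
    have h3 : La a (derivative c + (hp * c) /ₘ Qp) = La a (derivative c) +
        La a ((hp * c) /ₘ Qp) := by
      rw [La, La, La, Polynomial.map_add, mul_add]
    rw [h3, gx, hr, h2, Nat.cast_zero]
    linear_combination -hr1
  · rw [one_mul] at hrd ⊢
    exact lt_of_le_of_lt (degree_sub_le _ _) (max_lt hrd hrd1)

theorem La_sub (a : ℕ) (p q : ℂ[X][X]) : La a p - La a q = La a (p - q) := by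
  rw [La, La, La, Polynomial.map_sub, mul_sub]

theorem La_add (a : ℕ) (p q : ℂ[X][X]) : La a p + La a q = La a (p + q) := by
  rw [La, La, La, Polynomial.map_add, mul_add]

/-- **Normalization**: the polynomial parts can be chosen as `t / κ`, `0`. -/
theorem normal (hQ : Qp.Monic) (hhp : hp.degree < (Qp.natDegree : WithBot ℕ))
    (hlp : lp.degree < (Qp.natDegree : WithBot ℕ)) (he : ∀ n : ℤ, e0 ≠ n)
    (hi : dk (hp.map io) * (Qp.map io) - (hp.map io) * dk (Qp.map io) =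
      derivative (lp.map io) * (Qp.map io) - (lp.map io) * derivative (Qp.map io))
    {P R : Kt[X]} (hC : Cl (Qp.map io) (hp.map io) (lp.map io) (ee e0) 1 P R) {a : ℕ}
    {p q : ℂ[X][X]} (hP : PP (Qp.map io) 1 P (La a p)) (hR : PP (Qp.map io) 1 R (La a q)) :
    ∃ P' R' : Kt[X], Cl (Qp.map io) (hp.map io) (lp.map io) (ee e0) 1 P' R' ∧
      PP (Qp.map io) 1 P' (C (io (C (e0 + 1)⁻¹) * Tk)) ∧ PP (Qp.map io) 1 R' 0 := by
  have hQk : (Qp.map io).Monic := hQ.map io
  have hnd : (Qp.map io).natDegree = Qp.natDegree := natDegree_map_eq_of_injective io_inj _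
  have hhk : (hp.map io).degree < ((Qp.map io).natDegree : WithBot ℕ) := by
    rw [hnd]; exact lt_of_le_of_lt degree_map_le hhp
  have hlk : (lp.map io).degree < ((Qp.map io).natDegree : WithBot ℕ) := by
    rw [hnd]; exact lt_of_le_of_lt degree_map_le hlp
  obtain ⟨c, hc⟩ := Bop_surj (e0 := e0) hQ hlp he a _ (-(C X * q))
    (degree_le_natDegree.trans_lt (by exact_mod_cast Nat.lt_succ_self _))
  have hC' := hC.gauge (m := 0) hi (La a c)
  have hR' := PP_gt (lp := lp) (e0 := e0) hQ hR a c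
  have hP' := PP_gx (hp := hp) hQ hP a c
  rw [hc, ← La_succ a q, La_add, add_neg_cancel] at hR'
  have h0 : La (a + 1) 0 = 0 := by rw [La, Polynomial.map_zero, mul_zero]
  rw [h0] at hR'
  rw [La_sub] at hP'
  set p' := p - (derivative c + (hp * c) /ₘ Qp) with hp'
  obtain ⟨r1, hrd1, hr1⟩ := La_quot (lp := lp) hQ a p'
  have hpol := pol_eq hQk hhk hlk hC' hP' hR' ⟨r1, hrd1, hr1⟩
  rw [pol_La] at hpol
  have h1 : (1 : Kt[X]) = La (a + 1) (C (X ^ (a + 1))) := by
    rw [La, map_C, ← C_mul, map_pow]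
    change 1 = C (Tk⁻¹ ^ (a + 1) * Tk ^ (a + 1))
    rw [← mul_pow, inv_mul_cancel₀ Tk_ne, one_pow, C_1]
  rw [h1] at hpol
  have h2 := La_inj hpol
  have he1 : e0 + 1 ≠ 0 := by
    intro h
    apply he (-1)
    push_cast
    linear_combination h
  have h3 : Bop Qp lp e0 a (C (C (e0 + 1)⁻¹ * X ^ (a + 1))) = C (X ^ (a + 1)) := by
    have h4 : (lp * C (C (e0 + 1)⁻¹ * X ^ (a + 1))) /ₘ Qp = 0 := by
      have := quot_lt hQ hlp (c := C (C (e0 + 1)⁻¹ * X ^ (a + 1))) (n := 0) (by rw [natDegree_C])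
      rw [← degree_eq_bot]
      exact Nat.WithBot.lt_zero_iff.1 (by exact_mod_cast this)
    rw [Bop, h4, dt_C, derivative_C_mul, derivative_pow, derivative_X, mul_zero, add_zero,
      ← C_mul, ← C_mul, ← C_add]
    congr 1
    have h5 : (C (e0 + 1) * C (e0 + 1)⁻¹ : ℂ[X]) = 1 := by rw [← C_mul, mul_inv_cancel₀ he1, C_1]
    have h6 : (C ((a + 1 : ℕ) : ℂ) : ℂ[X]) = C (a : ℂ) + 1 := by simp
    have h7 : (C (e0 - a) : ℂ[X]) = C (e0 + 1) - 1 - C (a : ℂ) := by
      rw [← C_1, ← C_sub, ← C_sub]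
      congr 1
      ring
    rw [h6, h7, Nat.add_sub_cancel]
    linear_combination X ^ (a + 1) * h5
  have h4 : p' = C (C (e0 + 1)⁻¹ * X ^ (a + 1)) := by
    have := Bop_inj hQ hlp he (a := a) (c := p' - C (C (e0 + 1)⁻¹ * X ^ (a + 1))) (by
      rw [Bop_sub _ _ _ hQ, h2, h3, sub_self])
    linear_combination this
  refine ⟨_, _, hC', ?_, hR'⟩
  have h5 : La a p' = C (io (C (e0 + 1)⁻¹) * Tk) := by
    rw [h4, La, map_C, ← C_mul]
    congr 1
    rw [map_mul, map_pow]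
    change Tk⁻¹ ^ a * (io (C (e0 + 1)⁻¹) * Tk ^ (a + 1)) = _
    have : Tk⁻¹ ^ a * Tk ^ a = 1 := by rw [← mul_pow, inv_mul_cancel₀ Tk_ne, one_pow]
    rw [pow_succ]
    linear_combination (io (C (e0 + 1)⁻¹) * Tk) * this
  rwa [h5] at hP'

end Main

end Pool.Agent.H941.TF
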