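import Mathlib

set_option autoImplicit false
set_option linter.unusedSectionVars false
set_option linter.unusedVariables false

/-! # The differential equation of the residues, at one point -/

namespace Pool.Agent.H941.TF

open Polynomial Finset

theorem degC_mul {A : Type} [CommRing A] (c : A) (p : A[X]) : (C c * p).degree ≤ p.degree := by
  rw [degree_le_iff_coeff_zero]
  intro m hm
  rw [coeff_C_mul, coeff_eq_zero_of_degree_lt hm, mul_zero]

section Lag

variable {N : ℕ} {x : Fin N → ℂ}

/-- the nodal polynomial -/
noncomputable def nod (x : Fin N → ℂ) : ℂ[X] := ∏ j, (X - C (x j))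

theorem nod_erase (j : Fin N) : nod x = (X - C (x j)) * ∏ i ∈ univ.erase j, (X - C (x i)) := by
  rw [nod, ← Finset.mul_prod_erase univ _ (mem_univ j)]

theorem eval_nod (j : Fin N) : (nod x).eval (x j) = 0 := by
  rw [nod_erase j, eval_mul, eval_sub, eval_X, eval_C, sub_self, zero_mul]

theorem der_nod (j : Fin N) : (derivative (nod x)).eval (x j) =
    ∏ i ∈ univ.erase j, (x j - x i) := by
  rw [nod_erase j, derivative_mul, derivative_sub, derivative_X, derivative_C, eval_add, eval_mul,
    eval_mul, eval_sub (p := X), eval_X, eval_C, sub_self, zero_mul, add_zero, sub_zero, eval_one,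
    one_mul, eval_prod]
  simp only [eval_sub, eval_X, eval_C]

theorem der_nod_ne (hx : Function.Injective x) (j : Fin N) :
    (derivative (nod x)).eval (x j) ≠ 0 := by
  rw [der_nod]
  refine Finset.prod_ne_zero_iff.2 fun i hi => sub_ne_zero.2 fun h => ?_
  exact (Finset.ne_of_mem_erase hi) (hx h).symm

/-- the derivative at a node of a polynomial which vanishes there -/
theorem lag_der (hx : Function.Injective x) {r : ℂ[X]} (hr : r.degree < (N : WithBot ℕ))
    {j : Fin N} (hj : r.eval (x j) = 0) :
    (derivative r).eval (x j) = ∑ i ∈ univ.erase j, r.eval (x i) /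
      (derivative (nod x)).eval (x i) * ((derivative (nod x)).eval (x j) / (x j - x i)) := by
  obtain ⟨s, hs⟩ := dvd_iff_isRoot.2 (show r.IsRoot (x j) from hj)
  have h1 : (derivative r).eval (x j) = s.eval (x j) := by
    rw [hs, derivative_mul, derivative_sub, derivative_X, derivative_C]
    simp
  have hsd : s.degree < (#(univ.erase j) : WithBot ℕ) := by
    rw [Finset.card_erase_of_mem (mem_univ j), card_univ, Fintype.card_fin]
    by_cases hs0 : s = 0
    · rw [hs0, degree_zero]; exact WithBot.bot_lt_coe _
    · rw [hs, degree_mul, degree_X_sub_C, degree_eq_natDegree hs0] at hr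
      rw [degree_eq_natDegree hs0]
      have h2 : 1 + s.natDegree < N := by exact_mod_cast hr
      have h3 : s.natDegree < N - 1 := by omega
      exact_mod_cast h3
  have h2 := Lagrange.eq_interpolate (v := x) (s := univ.erase j) (fun a _ b _ h => hx h) hsd
  have h3 : s.eval (x j) = ∑ i ∈ univ.erase j, s.eval (x i) *
      (Lagrange.basis (univ.erase j) x i).eval (x j) := by
    conv_lhs => rw [h2]
    rw [Lagrange.interpolate_apply, eval_finsetSum]
    refine Finset.sum_congr rfl fun i _ => ?_
    rw [eval_mul, eval_C]
  rw [h1, h3]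
  refine Finset.sum_congr rfl fun i hi => ?_
  have hij : i ≠ j := Finset.ne_of_mem_erase hi
  have hxij : x i - x j ≠ 0 := sub_ne_zero.2 fun h => hij (hx h)
  have hxji : x j - x i ≠ 0 := sub_ne_zero.2 fun h => hij (hx h).symm
  have e1 : r.eval (x i) = (x i - x j) * s.eval (x i) := by
    rw [hs, eval_mul, eval_sub, eval_X, eval_C]
  have e2 : (Lagrange.basis (univ.erase j) x i).eval (x j) =
      (∏ k ∈ (univ.erase j).erase i, (x j - x k)) / ∏ k ∈ (univ.erase j).erase i, (x i - x k) := by
    rw [Lagrange.basis, eval_prod, ← Finset.prod_div_distrib]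
    refine Finset.prod_congr rfl fun k hk => ?_
    rw [Lagrange.basisDivisor, eval_mul, eval_C, eval_sub, eval_X, eval_C]
    rw [div_eq_mul_inv, mul_comm]
  have e3 : (derivative (nod x)).eval (x j) =
      (x j - x i) * ∏ k ∈ (univ.erase j).erase i, (x j - x k) := by
    rw [der_nod, Finset.mul_prod_erase (univ.erase j) (fun k => x j - x k) hi]
  have e4 : (derivative (nod x)).eval (x i) =
      (x i - x j) * ∏ k ∈ (univ.erase j).erase i, (x i - x k) := by
    rw [der_nod, Finset.erase_right_comm, Finset.mul_prod_erase (univ.erase i)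
      (fun k => x i - x k) (Finset.mem_erase.2 ⟨hij.symm, mem_univ j⟩)]
  have h5 : (∏ k ∈ (univ.erase j).erase i, (x i - x k)) ≠ 0 := by
    refine Finset.prod_ne_zero_iff.2 fun k hk => sub_ne_zero.2 fun h => ?_
    exact (Finset.ne_of_mem_erase hk) (hx h).symm
  rw [e1, e2, e3, e4]
  field_simp

/-- the coefficient of `x ^ (N - 1)` -/
theorem lag_lead (hx : Function.Injective x) {r : ℂ[X]} (hr : r.degree < (N : WithBot ℕ)) :
    r.coeff (N - 1) = ∑ i, r.eval (x i) / (derivative (nod x)).eval (x i) := by
  have hsd : r.degree < (#(univ : Finset (Fin N)) : WithBot ℕ) := by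
    rwa [card_univ, Fintype.card_fin]
  have h2 := Lagrange.eq_interpolate (v := x) (s := univ) (fun a _ b _ h => hx h) hsd
  conv_lhs => rw [h2]
  rw [Lagrange.interpolate_apply, finsetSum_coeff]
  refine Finset.sum_congr rfl fun i _ => ?_
  rw [coeff_C_mul, div_eq_mul_inv]
  congr 1
  have h3 : Lagrange.basis univ x i = C (∏ k ∈ univ.erase i, (x i - x k)⁻¹) *
      ∏ k ∈ univ.erase i, (X - C (x k)) := by
    rw [Lagrange.basis, map_prod, ← Finset.prod_mul_distrib]
    rfl
  have h4 : (∏ k ∈ univ.erase i, (X - C (x k))).Monic := monic_prod_of_monic _ _ fun k _ =>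
    monic_X_sub_C (x k)
  have h5 : (∏ k ∈ univ.erase i, (X - C (x k))).natDegree = N - 1 := by
    rw [natDegree_prod_of_monic _ _ fun k _ => monic_X_sub_C (x k)]
    simp
  rw [h3, coeff_C_mul, ← h5, h4.coeff_natDegree, mul_one, der_nod, Finset.prod_inv_distrib]

end Lag

/-- **The differential equation** -/
theorem point {N : ℕ} {x x' : Fin N → ℂ} (hx : Function.Injective x)
    {Q Qt P Pt R h l rP : ℂ[X]} {E T' w : ℂ} {b y : Fin N → ℂ} (hQ : Q = nod x)
    (hQt : ∀ j, T' * Qt.eval (x j) = -(x' j * (derivative Q).eval (x j)))
    (hh : h.degree < (N : WithBot ℕ)) (hl : l.degree < (N : WithBot ℕ))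
    (hhb : ∀ j, h.eval (x j) = b j * (derivative Q).eval (x j))
    (hlb : ∀ j, l.eval (x j) = b j * Qt.eval (x j))
    (hP : P = C w * Q + rP) (hrP : rP.degree < (N : WithBot ℕ)) (hR : R.degree < (N : WithBot ℕ))
    (hC : Q ^ 2 = Q * Pt + (l + C E * Q - Qt) * P + Q * derivative R + (h - derivative Q) * R)
    (hy : ∀ j, P.eval (x j) = b j * y j * (derivative Q).eval (x j))
    (hb0 : ∀ j, b j ≠ 0) (hb1 : ∀ j, b j ≠ 1) (j : Fin N) :
    ((T' * Pt.eval (x j) + x' j * (derivative P).eval (x j)) * (derivative Q).eval (x j) -
      P.eval (x j) * (T' * (derivative Qt).eval (x j) +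
        x' j * (derivative (derivative Q)).eval (x j))) / (b j * (derivative Q).eval (x j) ^ 2) +
      T' * E * y j + ∑ i ∈ univ.erase j, b i * (y j - y i) * ((x' j - x' i) / (x j - x i)) =
      x' j * w := by
  have hq : ∀ i, (derivative Q).eval (x i) ≠ 0 := fun i => by rw [hQ]; exact der_nod_ne hx i
  have hQ0 : ∀ i, Q.eval (x i) = 0 := fun i => by rw [hQ]; exact eval_nod i
  -- the values of `R`
  have hRv : ∀ i, T' * R.eval (x i) = x' i * P.eval (x i) := by
    intro i
    have h1 := congrArg (eval (x i)) hC
    simp only [eval_add, eval_mul, eval_sub, eval_pow, eval_C, hQ0, hhb, hlb] at h1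
    have h2 : (b i - 1) * (Qt.eval (x i) * P.eval (x i) +
        (derivative Q).eval (x i) * R.eval (x i)) = 0 := by linear_combination -h1
    have h3 := (mul_eq_zero.1 h2).resolve_left (sub_ne_zero.2 (hb1 i))
    refine mul_left_cancel₀ (hq i) ?_
    linear_combination T' * h3 - P.eval (x i) * hQt i
  -- the derivative of the equation
  have hD := congrArg (fun p => eval (x j) (derivative p)) hC
  beta_reduce at hD
  rw [pow_two] at hD
  simp only [derivative_add, derivative_mul, derivative_sub, derivative_C, eval_add, eval_mul,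
    eval_sub, eval_C, hQ0, hhb, hlb, zero_mul, mul_zero, add_zero, zero_add] at hD
  -- the polynomials `T' R - x' P` and `T' l + x' h`
  have d1 := lag_der hx (r := C T' * R - C (x' j) * rP) (j := j) ?_ ?_
  · have d2 := lag_der hx (r := C T' * l + C (x' j) * h) (j := j) ?_ ?_
    · rw [← hQ] at d1 d2
      have hrPv : ∀ i, rP.eval (x i) = P.eval (x i) := fun i => by
        rw [hP, eval_add, eval_mul, hQ0, mul_zero, zero_add]
      have d1' : T' * (derivative R).eval (x j) - x' j * (derivative rP).eval (x j) =
          ∑ i ∈ univ.erase j, b i * y i * (x' i - x' j) *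
            ((derivative Q).eval (x j) / (x j - x i)) := by
        simp only [derivative_sub, derivative_C_mul, eval_sub, eval_mul, eval_C] at d1
        rw [d1]
        refine Finset.sum_congr rfl fun i _ => ?_
        rw [hrPv, hRv, hy]
        field_simp [hq i]
        try ring
      have d2' : T' * (derivative l).eval (x j) + x' j * (derivative h).eval (x j) =
          ∑ i ∈ univ.erase j, b i * (x' j - x' i) *
            ((derivative Q).eval (x j) / (x j - x i)) := by
        simp only [derivative_add, derivative_C_mul, eval_add, eval_mul, eval_C] at d2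
        rw [d2]
        refine Finset.sum_congr rfl fun i _ => ?_
        have h1 : T' * l.eval (x i) + x' j * h.eval (x i) =
            b i * (x' j - x' i) * (derivative Q).eval (x i) := by
          rw [hlb, hhb]
          linear_combination b i * hQt i
        rw [h1]
        field_simp [hq i]
      have hPd : (derivative P).eval (x j) = w * (derivative Q).eval (x j) +
          (derivative rP).eval (x j) := by
        rw [hP, derivative_add, derivative_C_mul, eval_add, eval_mul, eval_C]
      have hxd : ∀ i ∈ univ.erase j, x j - x i ≠ 0 := fun i hi => sub_ne_zero.2 fun h =>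
        (Finset.ne_of_mem_erase hi) (hx h).symm
      have s1 : ∑ i ∈ univ.erase j, b i * (y j - y i) * ((x' j - x' i) / (x j - x i)) =
          (y j * (T' * (derivative l).eval (x j) + x' j * (derivative h).eval (x j)) +
            (T' * (derivative R).eval (x j) - x' j * (derivative rP).eval (x j))) /
              (derivative Q).eval (x j) := by
        rw [d1', d2', Finset.mul_sum, ← Finset.sum_add_distrib, Finset.sum_div]
        refine Finset.sum_congr rfl fun i hi => ?_
        have h1 := hxd i hi
        have h2 := hq j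
        field_simp
        ring
      have hq' := hq j
      have hb' := hb0 j
      rw [s1]
      have hT : T' * Qt.eval (x j) = -(x' j * (derivative Q).eval (x j)) := hQt j
      have hRj := hRv j
      have hPj := hy j
      clear s1 d1 d2 d1' d2'
      field_simp
      linear_combination (-T') * hD + (-(T' * (derivative l).eval (x j)) -
        T' * E * (derivative Q).eval (x j) - (derivative h).eval (x j) * x' j) * hPj +
        ((derivative (derivative Q)).eval (x j) - (derivative h).eval (x j)) * hRj -
        (b j - 1) * (derivative P).eval (x j) * hT + ((derivative Q).eval (x j) * b j * x' j) * hPd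
    · refine lt_of_le_of_lt (degree_add_le _ _) (max_lt ?_ ?_)
      · exact lt_of_le_of_lt (degC_mul _ _) hl
      · exact lt_of_le_of_lt (degC_mul _ _) hh
    · rw [eval_add, eval_mul, eval_mul, eval_C, eval_C, hlb, hhb]
      linear_combination b j * hQt j
  · refine lt_of_le_of_lt (degree_sub_le _ _) (max_lt ?_ ?_)
    · exact lt_of_le_of_lt (degC_mul _ _) hR
    · exact lt_of_le_of_lt (degC_mul _ _) hrP
  · have h1 : rP.eval (x j) = P.eval (x j) := by
      rw [hP, eval_add, eval_mul, hQ0, mul_zero, zero_add]
    rw [eval_sub, eval_mul, eval_mul, eval_C, eval_C, h1, hRv, sub_self]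

end Pool.Agent.H941.TF
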