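import Pool.Agent.H941.TF.Stage
import Pool.Agent.H941.TF.Point
import Pool.Agent.H941.TF.Loc

set_option autoImplicit false
set_option linter.unusedSectionVars false
set_option linter.unusedVariables false

/-! # The differential system of the residues along a parametrized family of roots -/

namespace Pool.Agent.H941.TF

open Polynomial Finset Filter Topology Pool.Agent.Helper748.TP

/-- the value -/
noncomputable def ev2 (P : ℂ[X][X]) (t x : ℂ) : ℂ := (evt t P).eval x

theorem ev2_add (P Q : ℂ[X][X]) (t x : ℂ) : ev2 (P + Q) t x = ev2 P t x + ev2 Q t x := by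
  rw [ev2, map_add, eval_add]; rfl

theorem ev2_mul (P Q : ℂ[X][X]) (t x : ℂ) : ev2 (P * Q) t x = ev2 P t x * ev2 Q t x := by
  rw [ev2, map_mul, eval_mul]; rfl

theorem ev2_monomial (n : ℕ) (c : ℂ[X]) (t x : ℂ) : ev2 (monomial n c) t x = c.eval t * x ^ n := by
  rw [ev2, evt, coe_mapRingHom, map_monomial, coe_evalRingHom, eval_monomial]

theorem dt_monomial (n : ℕ) (c : ℂ[X]) : dt (monomial n c) = monomial n (derivative c) := by
  ext1 m
  rw [coeff_dt, coeff_monomial, coeff_monomial]
  split_ifs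
  · rfl
  · rw [derivative_zero]

theorem hasDerivAt_ev2 (P : ℂ[X][X]) {T a : ℂ → ℂ} {T' a' u : ℂ} (hT : HasDerivAt T T' u)
    (ha : HasDerivAt a a' u) : HasDerivAt (fun v => ev2 P (T v) (a v))
      (T' * ev2 (dt P) (T u) (a u) + a' * ev2 (derivative P) (T u) (a u)) u := by
  induction P using Polynomial.induction_on' with
  | add P Q hP hQ =>
    have h := hP.add hQ
    refine (h.congr_of_eventuallyEq (Eventually.of_forall fun v => ?_)).congr_deriv ?_
    · exact ev2_add P Q _ _
    · rw [dt_add, derivative_add, ev2_add, ev2_add]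
      ring
  | monomial n c =>
    have h1 : HasDerivAt (fun v => c.eval (T v)) ((derivative c).eval (T u) * T') u :=
      (c.hasDerivAt (T u)).comp u hT
    have h2 : HasDerivAt (fun v => a v ^ n) (n * a u ^ (n - 1) * a') u := ha.fun_pow n
    refine ((h1.mul h2).congr_of_eventuallyEq (Eventually.of_forall fun v => ?_)).congr_deriv ?_
    · exact ev2_monomial n c _ _
    · rw [dt_monomial, derivative_monomial, ev2_monomial, ev2_monomial, eval_mul, eval_natCast]
      ring

theorem mero_ev2 (P : ℂ[X][X]) {T a : ℂ → ℂ} {u : ℂ} (hT : MeromorphicAt T u)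
    (ha : MeromorphicAt a u) : MeromorphicAt (fun v => ev2 P (T v) (a v)) u := by
  induction P using Polynomial.induction_on' with
  | add P Q hP hQ =>
    refine (hP.add hQ).congr (Eventually.of_forall fun v => ?_)
    exact (ev2_add P Q _ _).symm
  | monomial n c =>
    have h1 : MeromorphicAt (fun v => c.eval (T v)) u := by
      induction c using Polynomial.induction_on' with
      | add p q hp hq =>
        refine (hp.add hq).congr (Eventually.of_forall fun v => ?_)
        exact eval_add.symm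
      | monomial m r =>
        refine ((MeromorphicAt.const r u).mul (hT.pow m)).congr (Eventually.of_forall fun v => ?_)
        exact (eval_monomial).symm
    refine (h1.mul (ha.pow n)).congr (Eventually.of_forall fun v => ?_)
    exact (ev2_monomial n c _ _).symm

/-- The data of the differential system. -/
structure Data (N : ℕ) (Qp γ hx ht : ℂ[X][X]) (s e0 : ℂ) (d : ℂ[X]) (p r q : ℂ[X][X]) : Prop where
  monic : Qp.Monic
  deg : Qp.natDegree = N
  γ0 : γ ≠ 0
  dvd : Qp ∣ γ
  hxE : derivative γ * Qp = γ * hx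
  htE : dt γ * Qp = γ * ht
  hxd : hx.degree < (N : WithBot ℕ)
  htd : ht.degree < (N : WithBot ℕ)
  d0 : d ≠ 0
  pE : p = C (d * C (e0 + 1)⁻¹ * X) * Qp + q
  qd : q.degree < (N : WithBot ℕ)
  rd : r.degree < (N : WithBot ℕ)
  eq : C X * C d ^ 2 * Qp ^ 2 = C X * Qp * (C d * dt p - C (derivative d) * p) +
        C d * (C X * (kc s * ht) + kc e0 * Qp - C X * dt Qp) * p +
        C X * C d * (Qp * derivative r) + C X * C d * (kc s * hx - derivative Qp) * r

/-- the residues -/
noncomputable def yy (s : ℂ) (hx : ℂ[X][X]) (d : ℂ[X]) (p : ℂ[X][X]) (t x : ℂ) : ℂ :=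
  ev2 p t x / (d.eval t * ev2 (kc s * hx) t x)

theorem evt_deg {q : ℂ[X][X]} {N : ℕ} (hq : q.degree < (N : WithBot ℕ)) (t : ℂ) :
    (evt t q).degree < (N : WithBot ℕ) := by
  rw [evt, coe_mapRingHom]
  exact lt_of_le_of_lt degree_map_le hq

/-- The differential equation along a family of roots. -/
theorem Data.ode {N : ℕ} {Qp γ hx ht : ℂ[X][X]} {s e0 : ℂ} {d : ℂ[X]} {p r q : ℂ[X][X]}
    (D : Data N Qp γ hx ht s e0 d p r q) {T : ℂ → ℂ} {a : Fin N → ℂ → ℂ} {T' u : ℂ}
    {a' b : Fin N → ℂ} (hT : HasDerivAt T T' u) (ha : ∀ j, HasDerivAt (a j) (a' j) u)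
    (hroot : ∀ᶠ v in 𝓝 u, evt (T v) Qp = nod fun j => a j v)
    (hinj : Function.Injective fun j => a j u) (hd : d.eval (T u) ≠ 0) (hT0 : T u ≠ 0)
    (hb : ∀ᶠ v in 𝓝 u, ∀ j, ev2 (kc s * hx) (T v) (a j v) = b j * ev2 (derivative Qp) (T v) (a j v))
    (hb0 : ∀ j, b j ≠ 0) (hb1 : ∀ j, b j ≠ 1) (j : Fin N) :
    deriv (fun v => yy s hx d p (T v) (a j v)) u + T' * (e0 / T u) * yy s hx d p (T u) (a j u) +
      ∑ i ∈ univ.erase j, b i * (yy s hx d p (T u) (a j u) - yy s hx d p (T u) (a i u)) *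
        ((a' j - a' i) / (a j u - a i u)) = a' j * (T u * (e0 + 1)⁻¹) := by
  have hru := hroot.self_of_nhds
  have hbu := hb.self_of_nhds
  set t := T u with ht'
  set x : Fin N → ℂ := fun j => a j u with hxdef
  have hq0 : ∀ i, ev2 (derivative Qp) t (x i) ≠ 0 := by
    intro i
    rw [ev2, evt_der, hru]
    exact der_nod_ne hinj i
  have hQ0 : ∀ i, ev2 Qp t (x i) = 0 := by
    intro i
    rw [ev2, hru]
    exact eval_nod i
  have hQt : ∀ i, T' * ev2 (dt Qp) t (x i) = -(a' i * ev2 (derivative Qp) t (x i)) := by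
    intro i
    have h1 := (hasDerivAt_ev2 Qp hT (ha i)).deriv
    have h2 : (fun v => ev2 Qp (T v) (a i v)) =ᶠ[𝓝 u] fun _ => 0 := by
      filter_upwards [hroot] with v hv
      rw [ev2, hv]
      exact eval_nod (x := fun j => a j v) i
    rw [h2.deriv_eq, deriv_const] at h1
    linear_combination -h1
  have hlb : ∀ i, ev2 (kc s * ht) t (x i) = b i * ev2 (dt Qp) t (x i) := by
    intro i
    have h1 := congrArg (fun P => ev2 P t (x i)) (integ s D.γ0 D.hxE D.htE)
    have h2 : ∀ P P' : ℂ[X][X], ev2 (P - P') t (x i) = ev2 P t (x i) - ev2 P' t (x i) :=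
      fun P P' => by rw [ev2, map_sub, eval_sub]; rfl
    beta_reduce at h1
    rw [h2, h2, ev2_mul _ Qp, ev2_mul _ Qp, ev2_mul _ (dt Qp), ev2_mul _ (derivative Qp), hQ0] at h1
    have h3 : ev2 (kc s * hx) t (x i) = b i * ev2 (derivative Qp) t (x i) := hbu i
    rw [h3] at h1
    refine mul_right_cancel₀ (hq0 i) ?_
    linear_combination h1
  -- the derivative of `y`
  have hnum : HasDerivAt (fun v => ev2 p (T v) (a j v) / d.eval (T v))
      (((T' * ev2 (dt p) t (x j) + a' j * ev2 (derivative p) t (x j)) * d.eval t -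
        ev2 p t (x j) * ((derivative d).eval t * T')) / d.eval t ^ 2) u := by
    have h1 := hasDerivAt_ev2 p hT (ha j)
    have h2 : HasDerivAt (fun v => d.eval (T v)) ((derivative d).eval t * T') u :=
      (d.hasDerivAt t).comp u hT
    exact h1.fun_div h2 hd
  have hden := hasDerivAt_ev2 (derivative Qp) hT (ha j)
  have hyd : deriv (fun v => yy s hx d p (T v) (a j v)) u =
      ((((T' * ev2 (dt p) t (x j) + a' j * ev2 (derivative p) t (x j)) * d.eval t -
        ev2 p t (x j) * ((derivative d).eval t * T')) / d.eval t ^ 2) *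
          (b j * ev2 (derivative Qp) t (x j)) - (ev2 p t (x j) / d.eval t) *
          (b j * (T' * ev2 (dt (derivative Qp)) t (x j) +
            a' j * ev2 (derivative (derivative Qp)) t (x j)))) /
            (b j * ev2 (derivative Qp) t (x j)) ^ 2 := by
    have h1 := (hnum.fun_div (hden.const_mul (b j)) (mul_ne_zero (hb0 j) (hq0 j))).deriv
    rw [← h1]
    apply EventuallyEq.deriv_eq
    filter_upwards [hb] with v hv
    rw [yy, hv j, div_div]
  have hyv : ∀ i, yy s hx d p t (x i) = ev2 p t (x i) / d.eval t /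
      (b i * ev2 (derivative Qp) t (x i)) := by
    intro i
    rw [yy, hbu i, div_div]
  have key := point (N := N) (x := x) (x' := a') hinj (Q := evt t Qp) (Qt := evt t (dt Qp))
    (P := C (d.eval t)⁻¹ * evt t p)
    (Pt := C ((d.eval t)⁻¹ ^ 2) * (C (d.eval t) * evt t (dt p) - C ((derivative d).eval t) * evt t p))
    (R := C (d.eval t)⁻¹ * evt t r) (h := evt t (kc s * hx)) (l := evt t (kc s * ht))
    (rP := C (d.eval t)⁻¹ * evt t q) (E := e0 / t) (T' := T') (w := t * (e0 + 1)⁻¹) (b := b)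
    (y := fun i => yy s hx d p t (x i)) hru ?_ ?_ ?_ ?_ ?_ ?_ ?_ ?_ ?_ ?_ hb0 hb1 j
  · rw [← key, hyd]
    have hq := hq0 j
    have hbj := hb0 j
    have c1 : (evt t (dt Qp)).eval (x j) = ev2 (dt Qp) t (x j) := rfl
    have c2 : (derivative (evt t Qp)).eval (x j) = ev2 (derivative Qp) t (x j) := by
      rw [ev2, evt_der]
    have c3 : (derivative (evt t (dt Qp))).eval (x j) = ev2 (dt (derivative Qp)) t (x j) := by
      rw [ev2, dt_der, evt_der]
    have c4 : (derivative (derivative (evt t Qp))).eval (x j) =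
        ev2 (derivative (derivative Qp)) t (x j) := by
      rw [ev2, evt_der, evt_der]
    have c5 : (derivative (C (d.eval t)⁻¹ * evt t p)).eval (x j) =
        (d.eval t)⁻¹ * ev2 (derivative p) t (x j) := by
      rw [derivative_C_mul, eval_mul, eval_C, ev2, evt_der]
    have c6 : (C (d.eval t)⁻¹ * evt t p).eval (x j) = (d.eval t)⁻¹ * ev2 p t (x j) := by
      rw [eval_mul, eval_C]; rfl
    have c7 : (C ((d.eval t)⁻¹ ^ 2) * (C (d.eval t) * evt t (dt p) -
        C ((derivative d).eval t) * evt t p)).eval (x j) = (d.eval t)⁻¹ ^ 2 *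
        (d.eval t * ev2 (dt p) t (x j) - (derivative d).eval t * ev2 p t (x j)) := by
      rw [eval_mul, eval_C, eval_sub, eval_mul, eval_mul, eval_C, eval_C]; rfl
    rw [c2, c3, c4, c5, c6, c7]
    congr 1
    congr 1
    field_simp
    ring
  · intro i
    have c2 : (derivative (evt t Qp)).eval (x i) = ev2 (derivative Qp) t (x i) := by
      rw [ev2, evt_der]
    rw [c2]
    exact hQt i
  · exact evt_deg (lt_of_le_of_lt (degC_mul _ _) D.hxd) t
  · exact evt_deg (lt_of_le_of_lt (degC_mul _ _) D.htd) t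
  · intro i
    have c2 : (derivative (evt t Qp)).eval (x i) = ev2 (derivative Qp) t (x i) := by
      rw [ev2, evt_der]
    rw [c2]
    exact hbu i
  · exact hlb
  · have h1 := congrArg (evt t) D.pE
    rw [map_add, map_mul, evt_C] at h1
    rw [h1]
    have h2 : (d * C (e0 + 1)⁻¹ * X).eval t = d.eval t * (t * (e0 + 1)⁻¹) := by
      simp only [eval_mul, eval_C, eval_X]
      ring
    have h3 : (C (d.eval t)⁻¹ * C (d.eval t) : ℂ[X]) = 1 := by
      rw [← C_mul, inv_mul_cancel₀ hd, C_1]
    rw [h2, C_mul (a := d.eval t)]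
    linear_combination (C (t * (e0 + 1)⁻¹) * evt t Qp) * h3
  · exact lt_of_le_of_lt (degC_mul _ _) (evt_deg D.qd t)
  · exact lt_of_le_of_lt (degC_mul _ _) (evt_deg D.rd t)
  · have h1 := congrArg (evt t) D.eq
    simp only [map_add, map_sub, map_mul (evt t), map_pow, evt_C, evt_kc, eval_X, evt_der] at h1
    rw [map_mul (evt t), map_mul (evt t), evt_kc, derivative_C_mul, div_eq_mul_inv,
      C_mul (a := e0), C_pow]
    have h3 : (C (d.eval t)⁻¹ * C (d.eval t) : ℂ[X]) = 1 := by
      rw [← C_mul, inv_mul_cancel₀ hd, C_1]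
    have h4 : (C t⁻¹ * C t : ℂ[X]) = 1 := by
      rw [← C_mul, inv_mul_cancel₀ hT0, C_1]
    set A := (C (d.eval t)⁻¹ : ℂ[X])
    set B := (C (d.eval t) : ℂ[X])
    set Q1 := evt t Qp
    set p1 := evt t p
    set L1 := C s * evt t ht
    set H1 := C s * evt t hx
    linear_combination (C t⁻¹ * A ^ 2) * h1 + (-Q1 ^ 2 + A ^ 2 * Q1 * (B * evt t (dt p) -
        C ((derivative d).eval t) * p1) + A * L1 * p1 - A * evt t (dt Qp) * p1 +
        A * Q1 * derivative (evt t r) + A * (H1 - derivative Q1) * evt t r) * h4 +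
      (-(C t⁻¹ * C t * (A * B + 1) * Q1 ^ 2) + C t⁻¹ * C t * A * L1 * p1 +
        A * C e0 * C t⁻¹ * Q1 * p1 - C t⁻¹ * C t * A * evt t (dt Qp) * p1 +
        C t⁻¹ * C t * A * Q1 * derivative (evt t r) +
        C t⁻¹ * C t * A * (H1 - derivative Q1) * evt t r) * h3
  · intro i
    have c2 : (derivative (evt t Qp)).eval (x i) = ev2 (derivative Qp) t (x i) := by
      rw [ev2, evt_der]
    rw [c2, hyv i, eval_mul, eval_C]
    have h1 := hb0 i
    have h2 := hq0 i
    change (d.eval t)⁻¹ * ev2 p t (x i) = _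
    field_simp

end Pool.Agent.H941.TF
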