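import Pool.Agent.H941.TF.Der

set_option autoImplicit false
set_option linter.unusedSectionVars false
set_option linter.unusedVariables false

/-! # Reduction of the order of the pole -/

namespace Pool.Agent.H941.TF

open Polynomial

variable {Q h l : Kt[X]} {e : Kt}

/-- `1 = ∇_t (P / Q ^ n) + ∇_x (R / Q ^ n)`, where `∇_x = ∂_x + h / Q` and
`∇_t = ∂_t + e + l / Q`. -/
def Cl (Q h l : Kt[X]) (e : Kt) (n : ℕ) (P R : Kt[X]) : Prop :=
  Q ^ (n + 1) = Q * dk P + (l + C e * Q - (n : Kt[X]) * dk Q) * P + Q * derivative R +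
    (h - (n : Kt[X]) * derivative Q) * R

/-- `Q ^ (m + 1) ∇_x (Z / Q ^ m)` -/
noncomputable def gx (Q h : Kt[X]) (m : ℕ) (Z : Kt[X]) : Kt[X] :=
  Q * derivative Z + (h - (m : Kt[X]) * derivative Q) * Z

/-- `Q ^ (m + 1) ∇_t (Z / Q ^ m)` -/
noncomputable def gt (Q l : Kt[X]) (e : Kt) (m : ℕ) (Z : Kt[X]) : Kt[X] :=
  Q * dk Z + (l + C e * Q - (m : Kt[X]) * dk Q) * Z

theorem Cl.gauge (hi : dk h * Q - h * dk Q = derivative l * Q - l * derivative Q) {m : ℕ}
    {P R : Kt[X]} (hC : Cl Q h l e (m + 1) P R) (Z : Kt[X]) :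
    Cl Q h l e (m + 1) (P - gx Q h m Z) (R + gt Q l e m Z) := by
  have h1 : derivative (C e : Kt[X]) = 0 := derivative_C
  have h2 : ∀ n : ℕ, derivative (n : Kt[X]) = 0 := fun n => derivative_natCast
  have e1 : dk (gx Q h m Z) = dk Q * derivative Z + Q * derivative (dk Z) +
      (dk h - (m : Kt[X]) * derivative (dk Q)) * Z + (h - (m : Kt[X]) * derivative Q) * dk Z := by
    rw [gx, dk_add, dk_mul, dk_mul, dk_sub, dk_mul, dk_natCast, dk_der, dk_der]
    ring
  have e2 : derivative (gt Q l e m Z) = derivative Q * dk Z + Q * derivative (dk Z) +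
      (derivative l + C e * derivative Q - (m : Kt[X]) * derivative (dk Q)) * Z +
      (l + C e * Q - (m : Kt[X]) * dk Q) * derivative Z := by
    rw [gt, derivative_add, derivative_mul, derivative_mul, derivative_sub, derivative_add,
      derivative_mul, derivative_mul, h1, h2]
    ring
  rw [Cl] at hC ⊢
  rw [dk_sub, derivative_add, e1, e2, gx, gt]
  push_cast at hC ⊢
  linear_combination hC + Z * hi

/-- the polynomial part of `P / Q ^ n` is `w` -/
def PP (Q : Kt[X]) (n : ℕ) (P w : Kt[X]) : Prop :=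
  ∃ r : Kt[X], P = w * Q ^ n + r ∧ r.degree < ((n * Q.natDegree : ℕ) : WithBot ℕ)

theorem deg_lt_of_mul (hQ : Q.Monic) {n : ℕ} {p : Kt[X]}
    (h1 : (Q * p).degree < (((n + 1) * Q.natDegree : ℕ) : WithBot ℕ)) :
    p.degree < ((n * Q.natDegree : ℕ) : WithBot ℕ) := by
  by_cases hp : p = 0
  · rw [hp, degree_zero]
    exact WithBot.bot_lt_coe _
  · rw [degree_mul, degree_eq_natDegree hQ.ne_zero, degree_eq_natDegree hp] at h1
    rw [degree_eq_natDegree hp]
    have h2 : Q.natDegree + p.natDegree < (n + 1) * Q.natDegree := by exact_mod_cast h1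
    have h3 : p.natDegree < n * Q.natDegree := by
      rw [add_mul, one_mul] at h2
      omega
    exact_mod_cast h3

theorem deg_mul_lt {N a b : ℕ} {p q : Kt[X]} (hp : p.natDegree ≤ a) (hq : q.degree < (b : WithBot ℕ))
    (hN : a + b ≤ N) : (p * q).degree < (N : WithBot ℕ) := by
  by_cases hq0 : q = 0
  · rw [hq0, mul_zero, degree_zero]
    exact WithBot.bot_lt_coe _
  · have h1 : q.natDegree < b := (natDegree_lt_iff_degree_lt hq0).2 hq
    refine lt_of_le_of_lt (degree_le_natDegree) ?_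
    have h2 : (p * q).natDegree < N := lt_of_le_of_lt natDegree_mul_le (by omega)
    exact_mod_cast h2

theorem deg_der_lt {b : ℕ} {q : Kt[X]} (hq : q.degree < (b : WithBot ℕ)) :
    (derivative q).degree < (b : WithBot ℕ) :=
  lt_of_le_of_lt (degree_derivative_le) hq

theorem deg_dk_lt {b : ℕ} {q : Kt[X]} (hq : q.degree < (b : WithBot ℕ)) :
    (dk q).degree < (b : WithBot ℕ) := by
  rw [degree_lt_iff_coeff_zero] at hq ⊢
  intro m hm
  rw [coeff_dk, hq m hm, D_zero]

theorem deg_gx (hh : h.degree < (Q.natDegree : WithBot ℕ)) {m : ℕ} {Z : Kt[X]}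
    (hZ : Z.degree < (Q.natDegree : WithBot ℕ)) :
    (gx Q h m Z).degree < ((2 * Q.natDegree : ℕ) : WithBot ℕ) := by
  refine lt_of_le_of_lt (degree_add_le _ _) (max_lt ?_ ?_)
  · exact deg_mul_lt le_rfl (deg_der_lt hZ) (by omega)
  · refine deg_mul_lt (a := Q.natDegree) ?_ hZ (by omega)
    refine (natDegree_sub_le _ _).trans (max_le ?_ ?_)
    · exact natDegree_le_of_degree_le hh.le
    · refine natDegree_mul_le.trans ?_
      rw [natDegree_natCast, zero_add]
      exact (natDegree_derivative_le _).trans (Nat.sub_le _ _)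

theorem deg_gt (hl : l.degree < (Q.natDegree : WithBot ℕ)) {m : ℕ} {Z : Kt[X]}
    (hZ : Z.degree < (Q.natDegree : WithBot ℕ)) :
    (gt Q l e m Z).degree < ((2 * Q.natDegree : ℕ) : WithBot ℕ) := by
  refine lt_of_le_of_lt (degree_add_le _ _) (max_lt ?_ ?_)
  · exact deg_mul_lt le_rfl (deg_dk_lt hZ) (by omega)
  · refine deg_mul_lt (a := Q.natDegree) ?_ hZ (by omega)
    refine (natDegree_sub_le _ _).trans (max_le ?_ ?_)
    · refine (natDegree_add_le _ _).trans (max_le (natDegree_le_of_degree_le hl.le) ?_)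
      exact natDegree_C_mul_le _ _
    · refine natDegree_mul_le.trans ?_
      rw [natDegree_natCast, zero_add]
      exact natDegree_dk_le _

/-- Reduction of the order of the pole. -/
theorem Cl.step (hi : dk h * Q - h * dk Q = derivative l * Q - l * derivative Q)
    (hQ : Q.Monic) (hN : 0 < Q.natDegree) (hh : h.degree < (Q.natDegree : WithBot ℕ))
    (hl : l.degree < (Q.natDegree : WithBot ℕ))
    (hc : ∀ m : ℕ, IsCoprime Q (h - (m : Kt[X]) * derivative Q)) {m : ℕ} (hm : 1 ≤ m)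
    {P R w v : Kt[X]} (hC : Cl Q h l e (m + 1) P R) (hP : PP Q (m + 1) P w)
    (hR : PP Q (m + 1) R v) :
    ∃ P' R' : Kt[X], Cl Q h l e m P' R' ∧ PP Q m P' w ∧ PP Q m R' v := by
  obtain ⟨α, β, hαβ⟩ := hc m
  set Z : Kt[X] := (β * P) %ₘ Q with hZ
  have hZd : Z.degree < (Q.natDegree : WithBot ℕ) := by
    rw [← degree_eq_natDegree hQ.ne_zero]
    exact degree_modByMonic_lt _ hQ
  have hZ2 : Z + Q * ((β * P) /ₘ Q) = β * P := modByMonic_add_div _ Q
  obtain ⟨P1, hP1⟩ : Q ∣ P - gx Q h m Z := by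
    refine ⟨α * P + (h - (m : Kt[X]) * derivative Q) * ((β * P) /ₘ Q) - derivative Z, ?_⟩
    rw [gx]
    linear_combination (-P) * hαβ - (h - (m : Kt[X]) * derivative Q) * hZ2
  have hC2 := hC.gauge hi Z
  obtain ⟨R1, hR1⟩ : Q ∣ R + gt Q l e m Z := by
    refine (hc (m + 1)).dvd_of_dvd_mul_left ?_
    rw [hP1, Cl] at hC2
    refine ⟨Q ^ (m + 1) - dk (Q * P1) - (l + C e * Q - ((m + 1 : ℕ) : Kt[X]) * dk Q) * P1 -
      derivative (R + gt Q l e m Z), ?_⟩
    linear_combination -hC2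
  refine ⟨P1, R1, ?_, ?_, ?_⟩
  · rw [hP1, hR1, Cl] at hC2
    rw [Cl]
    refine mul_left_cancel₀ hQ.ne_zero ?_
    rw [dk_mul, derivative_mul] at hC2
    push_cast at hC2
    linear_combination hC2
  · obtain ⟨r, hr, hrd⟩ := hP
    refine ⟨P1 - w * Q ^ m, by ring, deg_lt_of_mul hQ ?_⟩
    have h1 : Q * (P1 - w * Q ^ m) = r - gx Q h m Z := by
      linear_combination -hP1 + hr
    rw [h1]
    refine lt_of_le_of_lt (degree_sub_le _ _) (max_lt hrd ?_)
    refine lt_of_lt_of_le (deg_gx hh hZd) ?_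
    have : 2 * Q.natDegree ≤ (m + 1) * Q.natDegree := Nat.mul_le_mul_right _ (by omega)
    exact_mod_cast this
  · obtain ⟨r, hr, hrd⟩ := hR
    refine ⟨R1 - v * Q ^ m, by ring, deg_lt_of_mul hQ ?_⟩
    have h1 : Q * (R1 - v * Q ^ m) = r + gt Q l e m Z := by
      linear_combination -hR1 + hr
    rw [h1]
    refine lt_of_le_of_lt (degree_add_le _ _) (max_lt hrd ?_)
    refine lt_of_lt_of_le (deg_gt hl hZd) ?_
    have : 2 * Q.natDegree ≤ (m + 1) * Q.natDegree := Nat.mul_le_mul_right _ (by omega)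
    exact_mod_cast this

theorem Cl.red (hi : dk h * Q - h * dk Q = derivative l * Q - l * derivative Q)
    (hQ : Q.Monic) (hN : 0 < Q.natDegree) (hh : h.degree < (Q.natDegree : WithBot ℕ))
    (hl : l.degree < (Q.natDegree : WithBot ℕ))
    (hc : ∀ m : ℕ, IsCoprime Q (h - (m : Kt[X]) * derivative Q)) (m : ℕ)
    {P R w v : Kt[X]} (hC : Cl Q h l e (m + 1) P R) (hP : PP Q (m + 1) P w)
    (hR : PP Q (m + 1) R v) :
    ∃ P' R' : Kt[X], Cl Q h l e 1 P' R' ∧ PP Q 1 P' w ∧ PP Q 1 R' v := by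
  induction m generalizing P R with
  | zero => exact ⟨P, R, hC, hP, hR⟩
  | succ m ih =>
    obtain ⟨P', R', h1, h2, h3⟩ := hC.step hi hQ hN hh hl hc (by omega) hP hR
    exact ih h1 h2 h3

end Pool.Agent.H941.TF
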